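import Mathlib

set_option autoImplicit false

open Module LieAlgebra LieSubalgebra

namespace Pool.Agent.Lib.MP_93fb9a_gt

section Cartan

variable {K L : Type*} [Field K] [Infinite K] [LieRing L] [LieAlgebra K L] [FiniteDimensional K L]

open Cardinal in
theorem isCartan_engel (x : L) (hx : finrank K (engel K x) = rank K L) :
    IsCartanSubalgebra (engel K x) := by
  have h : (finrank K L : Cardinal) ≤ #K :=
    natCast_le_aleph0.trans <| Cardinal.infinite_iff.mp ‹Infinite K›
  refine ⟨?_, normalizer_engel _ _⟩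
  apply isNilpotent_of_forall_le_engel
  intro y hy
  set Ex : {engel K z | z ∈ engel K x} := ⟨engel K x, x, self_mem_engel _ _, rfl⟩
  suffices IsBot Ex from @this ⟨engel K y, y, hy, rfl⟩
  apply engel_isBot_of_isMin h (engel K x) Ex le_rfl
  rintro ⟨_, y, hy, rfl⟩ hyx
  suffices finrank K (engel K x) ≤ finrank K (engel K y) by
    suffices engel K y = engel K x from this.ge
    apply LieSubalgebra.toSubmodule_injective
    exact Submodule.eq_of_le_of_finrank_le hyx this
  rw [hx]
  apply rank_le_finrank_engel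

end Cartan

section Sl2

variable {𝔤 : Type*} [LieRing 𝔤] [LieAlgebra ℂ 𝔤] [FiniteDimensional ℂ 𝔤]
variable {h e f : 𝔤}

omit [FiniteDimensional ℂ 𝔤] in
theorem ad_e_maps (t : IsSl2Triple h e f) (μ : ℂ) {x : 𝔤}
    (hx : x ∈ (ad ℂ 𝔤 h).maxGenEigenspace μ) :
    ⁅e, x⁆ ∈ (ad ℂ 𝔤 h).maxGenEigenspace (μ + 2) := by
  rw [End.mem_maxGenEigenspace] at hx ⊢
  obtain ⟨k, hk⟩ := hx
  refine ⟨k, ?_⟩
  have hs : SemiconjBy (ad ℂ 𝔤 e) (ad ℂ 𝔤 h - μ • (1 : End ℂ 𝔤))
      (ad ℂ 𝔤 h - (μ + 2) • (1 : End ℂ 𝔤)) := by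
    ext y
    simp only [End.mul_apply, LinearMap.sub_apply, LinearMap.smul_apply, End.one_apply,
      ad_apply, lie_sub, lie_smul, leibniz_lie h e y, t.lie_h_e_nsmul]
    simp only [two_smul, add_lie, add_smul]
    abel
  have := hs.pow_right k
  have h2 := congrArg (fun T : End ℂ 𝔤 => T x) this.eq
  simp only [End.mul_apply, hk, map_zero, ad_apply] at h2
  exact h2.symm

theorem finrank_zero_le (t : IsSl2Triple h e f) :
    finrank ℂ ((ad ℂ 𝔤 h).maxGenEigenspace 0) ≤ finrank ℂ (LinearMap.ker (ad ℂ 𝔤 e)) := by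
  set G : ℂ → Submodule ℂ 𝔤 := (ad ℂ 𝔤 h).maxGenEigenspace with hG
  set U' : Submodule ℂ 𝔤 := ⨆ k : ℕ, G (2 * (k + 1)) with hU'
  set U : Submodule ℂ 𝔤 := G 0 ⊔ U' with hU
  have hmap : ∀ x ∈ U, ad ℂ 𝔤 e x ∈ U' := by
    intro x hx
    rw [hU, Submodule.mem_sup] at hx
    obtain ⟨y, hy, z, hz, rfl⟩ := hx
    rw [map_add]
    refine add_mem ?_ ?_
    · have h1 := ad_e_maps t 0 hy
      have h2 : G (0 + 2) ≤ U' := by
        have : (0 + 2 : ℂ) = 2 * ((0 : ℕ) + 1) := by norm_num
        rw [this]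
        exact le_iSup (fun k : ℕ => G (2 * (k + 1))) 0
      exact h2 h1
    · rw [hU'] at hz
      refine Submodule.iSup_induction (fun k : ℕ => G (2 * (k + 1)))
        (motive := fun z => ad ℂ 𝔤 e z ∈ U') hz ?_ ?_ ?_
      · intro k z hz
        have h1 := ad_e_maps t _ hz
        have h2 : G (2 * (k + 1) + 2) ≤ U' := by
          have : (2 * (k + 1) + 2 : ℂ) = 2 * ((k + 1 : ℕ) + 1) := by push_cast; ring
          rw [this]
          exact le_iSup (fun k : ℕ => G (2 * (k + 1))) (k + 1)
        exact h2 h1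
      · simp
      · intro a b ha hb
        rw [map_add]
        exact add_mem ha hb
  have hdisj : Disjoint (G 0) U' := by
    have hind := End.independent_maxGenEigenspace (ad ℂ 𝔤 h)
    have h1 := hind 0
    refine h1.mono_right ?_
    rw [hU']
    refine iSup_le (fun k => ?_)
    refine le_iSup₂_of_le (2 * ((k : ℂ) + 1)) ?_ le_rfl
    have : ((2 * ((k : ℂ) + 1))) = ((2 * (k + 1) : ℕ) : ℂ) := by push_cast; ring
    rw [this]
    exact_mod_cast (by omega : 2 * (k + 1) ≠ 0)
  have hdim : finrank ℂ U = finrank ℂ (G 0) + finrank ℂ U' := by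
    have := Submodule.finrank_sup_add_finrank_inf_eq (G 0) U'
    rw [hdisj.eq_bot, finrank_bot, add_zero] at this
    exact this
  set E' : U →ₗ[ℂ] U' := (ad ℂ 𝔤 e).restrict (p := U) (q := U') hmap with hE'
  have hrn := LinearMap.finrank_range_add_finrank_ker E'
  have hr : finrank ℂ (LinearMap.range E') ≤ finrank ℂ U' := Submodule.finrank_le _
  have hk : finrank ℂ (LinearMap.ker E') ≤ finrank ℂ (LinearMap.ker (ad ℂ 𝔤 e)) := by
    have hinj : Function.Injective ((U.subtype).comp (LinearMap.ker E').subtype) :=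
      (Submodule.injective_subtype U).comp (Submodule.injective_subtype _)
    have hmem : ∀ x, ((U.subtype).comp (LinearMap.ker E').subtype) x ∈ LinearMap.ker (ad ℂ 𝔤 e) := by
      intro x
      have hx : E' (x : U) = 0 := x.2
      rw [LinearMap.mem_ker]
      have h9 : ((E' (x : U) : U') : 𝔤) = 0 := by rw [hx]; rfl
      exact h9
    refine LinearMap.finrank_le_finrank_of_injective
      (f := ((U.subtype).comp (LinearMap.ker E').subtype).codRestrict _ hmem) ?_
    intro a b hab
    apply hinj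
    have := congrArg (fun y : LinearMap.ker (ad ℂ 𝔤 e) => (y : 𝔤)) hab
    exact this
  omega

omit [FiniteDimensional ℂ 𝔤] in
theorem engel_eq_maxGen (x : 𝔤) :
    (engel ℂ x).toSubmodule = (ad ℂ 𝔤 x).maxGenEigenspace 0 := by
  ext y
  rw [End.mem_maxGenEigenspace]
  simp [LieSubalgebra.mem_engel_iff]

theorem regular_h (t : IsSl2Triple h e f)
    (hr : finrank ℂ (LinearMap.ker (ad ℂ 𝔤 e)) = rank ℂ 𝔤) :
    finrank ℂ (engel ℂ h) = rank ℂ 𝔤 := by
  apply le_antisymm
  · rw [← hr]
    have := finrank_zero_le t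
    rw [← engel_eq_maxGen] at this
    exact this
  · exact rank_le_finrank_engel ℂ h

variable [IsSimple ℂ 𝔤]

theorem isSemisimple_ad_h (t : IsSl2Triple h e f)
    (hr : finrank ℂ (LinearMap.ker (ad ℂ 𝔤 e)) = rank ℂ 𝔤) :
    (ad ℂ 𝔤 h).IsSemisimple := by
  have hc : IsCartanSubalgebra (engel ℂ h) := isCartan_engel h (regular_h t hr)
  exact LieAlgebra.IsKilling.isSemisimple_ad_of_mem_isCartanSubalgebra (H := engel ℂ h)
    (self_mem_engel ℂ h)

omit [FiniteDimensional ℂ 𝔤] [IsSimple ℂ 𝔤] in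
theorem eigenvalue_int [FiniteDimensional ℂ 𝔤] (t : IsSl2Triple h e f) {μ : ℂ} {x : 𝔤} (hx : x ≠ 0)
    (hμ : ⁅h, x⁆ = μ • x) : ∃ k : ℤ, μ = k := by
  -- the string `(ad e)^n x`
  have hstr : ∀ n : ℕ, ⁅h, ((LieModule.toEnd ℂ 𝔤 𝔤 e) ^ n) x⁆ =
      (μ + 2 * n) • ((LieModule.toEnd ℂ 𝔤 𝔤 e) ^ n) x :=
    fun n => t.lie_h_pow_toEnd_e hμ n
  have hzero : ∃ n : ℕ, ((LieModule.toEnd ℂ 𝔤 𝔤 e) ^ n) x = 0 := by
    by_contra! contra
    have hinj : Function.Injective (fun n : ℕ => μ + 2 * (n : ℂ)) := by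
      intro a b hab
      simpa using hab
    have aux : ∀ ν : Set.range (fun n : ℕ => μ + 2 * (n : ℂ)),
        (LieModule.toEnd ℂ 𝔤 𝔤 h).HasEigenvector ν
          (((LieModule.toEnd ℂ 𝔤 𝔤 e) ^ (ν.property.choose)) x) := by
      intro ν
      refine ⟨?_, contra _⟩
      rw [Module.End.mem_eigenspace_iff, LieModule.toEnd_apply_apply]
      have h1 := hstr ν.property.choose
      have h2 := ν.property.choose_spec
      simp only at h2
      rw [h2] at h1
      exact h1
    have hfin := ((LieModule.toEnd ℂ 𝔤 𝔤 h).eigenvectors_linearIndependent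
      (Set.range (fun n : ℕ => μ + 2 * (n : ℂ))) _ aux).finite
    exact (Set.infinite_range_of_injective hinj) (Set.toFinite _)
  obtain ⟨n, hn1, hn2⟩ := Nat.exists_not_and_succ_of_not_zero_of_exists
    (p := fun n => ((LieModule.toEnd ℂ 𝔤 𝔤 e) ^ n) x = 0) (by simpa using hx) hzero
  have hP : t.HasPrimitiveVectorWith (((LieModule.toEnd ℂ 𝔤 𝔤 e) ^ n) x) (μ + 2 * n) :=
    { ne_zero := hn1
      lie_h := hstr n
      lie_e := by
        rw [IsSl2Triple.lie_e_pow_toEnd_e]
        exact hn2 }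
  obtain ⟨k, hk⟩ := hP.exists_nat
  refine ⟨(k : ℤ) - 2 * n, ?_⟩
  push_cast
  rw [← hk]
  ring

theorem iSup_eigenspace_eq_top (t : IsSl2Triple h e f)
    (hr : finrank ℂ (LinearMap.ker (ad ℂ 𝔤 e)) = rank ℂ 𝔤) :
    ⨆ μ : ℂ, (ad ℂ 𝔤 h).eigenspace μ = ⊤ := by
  have hs := (isSemisimple_ad_h t hr).isFinitelySemisimple
  have := End.iSup_maxGenEigenspace_eq_top (ad ℂ 𝔤 h)
  simpa only [hs.maxGenEigenspace_eq_eigenspace] using this

theorem exists_eigenbasis (t : IsSl2Triple h e f)
    (hr : finrank ℂ (LinearMap.ker (ad ℂ 𝔤 e)) = rank ℂ 𝔤) :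
    ∃ (b : Basis (Fin (finrank ℂ 𝔤)) ℂ 𝔤) (μ : Fin (finrank ℂ 𝔤) → ℤ),
      ∀ i, ⁅h, b i⁆ = (μ i : ℂ) • b i := by
  classical
  have hint : DirectSum.IsInternal (fun μ : ℂ => (ad ℂ 𝔤 h).eigenspace μ) :=
    DirectSum.isInternal_submodule_of_iSupIndep_of_iSup_eq_top
      (End.eigenspaces_iSupIndep _) (iSup_eigenspace_eq_top t hr)
  set B := hint.collectedBasis (fun μ => finBasis ℂ ((ad ℂ 𝔤 h).eigenspace μ)) with hB
  set b : Basis (Fin (finrank ℂ 𝔤)) ℂ 𝔤 := B.reindex (B.indexEquiv (finBasis ℂ 𝔤)) with hb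
  have hex : ∀ i, ∃ k : ℤ, ⁅h, b i⁆ = (k : ℂ) • b i := by
    intro i
    have hbi : b i = B ((B.indexEquiv (finBasis ℂ 𝔤)).symm i) := by
      rw [hb, Basis.reindex_apply]
    set a := (B.indexEquiv (finBasis ℂ 𝔤)).symm i with ha
    have hmem : B a ∈ (ad ℂ 𝔤 h).eigenspace a.1 := hint.collectedBasis_mem _ a
    rw [End.mem_eigenspace_iff, ad_apply] at hmem
    obtain ⟨k, hk⟩ := eigenvalue_int t (B.ne_zero a) hmem
    refine ⟨k, ?_⟩
    rw [hbi, hmem, hk]
  choose μ hμ using hex
  exact ⟨b, μ, hμ⟩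

omit [FiniteDimensional ℂ 𝔤] [IsSimple ℂ 𝔤] in
theorem killing_zero [FiniteDimensional ℂ 𝔤] {x y : 𝔤} {a b : ℂ} (hx : ⁅h, x⁆ = a • x)
    (hy : ⁅h, y⁆ = b • y) (hab : a + b ≠ 0) : killingForm ℂ 𝔤 x y = 0 := by
  have h1 : killingForm ℂ 𝔤 ⁅x, h⁆ y = killingForm ℂ 𝔤 x ⁅h, y⁆ :=
    LieModule.traceForm_apply_lie_apply ℂ 𝔤 𝔤 x h y
  rw [← lie_skew, hx, hy] at h1
  simp only [map_neg, map_smul, LinearMap.neg_apply, LinearMap.smul_apply, smul_eq_mul] at h1
  have h2 : (a + b) * killingForm ℂ 𝔤 x y = 0 := by linear_combination -h1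
  exact (mul_eq_zero.1 h2).resolve_left hab

theorem card_le_card (b : Basis (Fin (finrank ℂ 𝔤)) ℂ 𝔤) (μ : Fin (finrank ℂ 𝔤) → ℤ)
    (hμ : ∀ i, ⁅h, b i⁆ = (μ i : ℂ) • b i) (s : ℤ) :
    (Finset.univ.filter (fun i => 0 < s * μ i)).card ≤
      (Finset.univ.filter (fun i => s * μ i < 0)).card := by
  classical
  set P := Finset.univ.filter (fun i => 0 < s * μ i) with hP
  set M := Finset.univ.filter (fun i => s * μ i < 0) with hM
  let Φ : (P → ℂ) →ₗ[ℂ] (M → ℂ) :=
    { toFun := fun c j => killingForm ℂ 𝔤 (∑ i : P, c i • b i) (b j)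
      map_add' := by
        intro c d
        ext j
        simp only [Pi.add_apply, add_smul, Finset.sum_add_distrib, map_add, LinearMap.add_apply]
      map_smul' := by
        intro r c
        ext j
        simp only [Pi.smul_apply, smul_eq_mul, mul_smul, ← Finset.smul_sum, map_smul,
          LinearMap.smul_apply, RingHom.id_apply] }
  have hinj : Function.Injective Φ := by
    rw [← LinearMap.ker_eq_bot, LinearMap.ker_eq_bot']
    intro c hc
    set x := ∑ i : P, c i • b i with hx
    have hx0 : x = 0 := by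
      have hnd := LieAlgebra.IsKilling.killingForm_nondegenerate (R := ℂ) (L := 𝔤)
      apply hnd.1
      intro y
      have hall : ∀ j, killingForm ℂ 𝔤 x (b j) = 0 := by
        intro j
        by_cases hj : j ∈ M
        · exact congrFun hc ⟨j, hj⟩
        · rw [hx, map_sum, LinearMap.sum_apply]
          apply Finset.sum_eq_zero
          intro i _
          rw [map_smul, LinearMap.smul_apply]
          have hi := Finset.mem_filter.1 i.2
          rw [hM, Finset.mem_filter] at hj
          have hne : ((μ i : ℂ) + (μ j : ℂ)) ≠ 0 := by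
            have h1 : μ i + μ j ≠ 0 := by
              intro h0
              have h3 : 0 ≤ s * μ j := by
                by_contra hlt
                exact hj ⟨Finset.mem_univ _, not_le.1 hlt⟩
              have h4 : s * (μ i + μ j) = 0 := by rw [h0, mul_zero]
              have h5 := hi.2
              linarith [h4, mul_add s (μ i) (μ j)]
            exact_mod_cast h1
          rw [killing_zero (hμ i) (hμ j) hne, smul_zero]
      have := b.sum_repr y
      rw [← this, map_sum]
      apply Finset.sum_eq_zero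
      intro j _
      rw [map_smul, hall j, smul_zero]
    have hli := b.linearIndependent
    have hli' : LinearIndependent ℂ (fun i : P => b i) :=
      hli.comp (fun i : P => (i : Fin (finrank ℂ 𝔤))) Subtype.val_injective
    rw [Fintype.linearIndependent_iff] at hli'
    funext i
    exact hli' c (by rw [← hx]; exact hx0) i
  have := LinearMap.finrank_le_finrank_of_injective hinj
  simpa using this

theorem card_pos (t : IsSl2Triple h e f)
    (hr : finrank ℂ (LinearMap.ker (ad ℂ 𝔤 e)) = rank ℂ 𝔤)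
    (b : Basis (Fin (finrank ℂ 𝔤)) ℂ 𝔤) (μ : Fin (finrank ℂ 𝔤) → ℤ)
    (hμ : ∀ i, ⁅h, b i⁆ = (μ i : ℂ) • b i) :
    (Finset.univ.filter (fun i => 0 < μ i)).card = (finrank ℂ 𝔤 - rank ℂ 𝔤) / 2 := by
  classical
  have h1 := card_le_card b μ hμ 1
  have h2 := card_le_card b μ hμ (-1)
  simp only [one_mul, neg_mul, Left.neg_pos_iff, Left.neg_neg_iff] at h1 h2
  have hz : (Finset.univ.filter (fun i => μ i = 0)).card = rank ℂ 𝔤 := by
    rw [← regular_h t hr]
    have hs := (isSemisimple_ad_h t hr).isFinitelySemisimple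
    have he : (engel ℂ h).toSubmodule = (ad ℂ 𝔤 h).eigenspace 0 := by
      rw [engel_eq_maxGen, hs.maxGenEigenspace_eq_eigenspace]
    have he2 : (engel ℂ h).toSubmodule =
        Submodule.span ℂ (Set.range (fun i : (Finset.univ.filter (fun i => μ i = 0)) => b i)) := by
      rw [he]
      apply le_antisymm
      · intro x hx
        rw [End.mem_eigenspace_iff, ad_apply, zero_smul] at hx
        have hrep : ∀ i, (μ i : ℂ) * b.repr x i = 0 := by
          intro i
          have h3 := congrArg (fun y => b.repr y i) hx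
          simp only [map_zero, Finsupp.coe_zero, Pi.zero_apply] at h3
          rw [← h3]
          conv_rhs => rw [← b.sum_repr x]
          rw [lie_sum, map_sum, Finsupp.finsetSum_apply]
          rw [Finset.sum_eq_single i]
          · rw [lie_smul, hμ i, map_smul, map_smul]
            simp [mul_comm]
          · intro j _ hj
            rw [lie_smul, hμ j, map_smul, map_smul]
            simp [hj]
          · intro hi
            exact absurd (Finset.mem_univ i) hi
        rw [← b.sum_repr x]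
        apply Submodule.sum_mem
        intro i _
        by_cases hi : μ i = 0
        · apply Submodule.smul_mem
          apply Submodule.subset_span
          exact ⟨⟨i, Finset.mem_filter.2 ⟨Finset.mem_univ _, hi⟩⟩, rfl⟩
        · have h4 : b.repr x i = 0 := by
            have h5 := hrep i
            have h6 : (μ i : ℂ) ≠ 0 := by exact_mod_cast hi
            exact (mul_eq_zero.1 h5).resolve_left h6
          rw [h4, zero_smul]
          exact Submodule.zero_mem _
      · rw [Submodule.span_le]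
        rintro _ ⟨i, rfl⟩
        have hi := (Finset.mem_filter.1 i.2).2
        simp only [SetLike.mem_coe]
        rw [End.mem_eigenspace_iff, ad_apply, hμ i, hi]
        simp
    have hfr : finrank ℂ (engel ℂ h) = finrank ℂ (engel ℂ h).toSubmodule := rfl
    rw [hfr, he2, finrank_span_eq_card]
    · exact (Fintype.card_coe _).symm
    · exact b.linearIndependent.comp
        (fun i : (Finset.univ.filter (fun i => μ i = 0)) => (i : Fin (finrank ℂ 𝔤)))
        Subtype.val_injective
  have htot : (Finset.univ.filter (fun i => 0 < μ i)).card +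
      (Finset.univ.filter (fun i => μ i < 0)).card +
      (Finset.univ.filter (fun i => μ i = 0)).card = finrank ℂ 𝔤 := by
    have hu : (Finset.univ : Finset (Fin (finrank ℂ 𝔤))).card = finrank ℂ 𝔤 := by simp
    refine Eq.trans ?_ hu
    rw [← Finset.card_union_of_disjoint, ← Finset.card_union_of_disjoint]
    · congr 1
      ext i
      simp only [Finset.mem_union, Finset.mem_filter, Finset.mem_univ, true_and, iff_true]
      omega
    · rw [Finset.disjoint_left]
      intro i hi hi'
      simp only [Finset.mem_union, Finset.mem_filter, Finset.mem_univ, true_and] at hi hi'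
      omega
    · rw [Finset.disjoint_left]
      intro i hi hi'
      simp only [Finset.mem_filter, Finset.mem_univ, true_and] at hi hi'
      omega
  omega

end Sl2

end Pool.Agent.Lib.MP_93fb9a_gt
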