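import Pool.Agent.Lib.MP_93fb9a_gt.Link

set_option autoImplicit false
set_option linter.unusedSectionVars false

open UpperHalfPlane Module
open scoped MatrixGroups

namespace Pool.Agent.Lib.MP_93fb9a_gt

variable {𝔤 : Type*} [LieRing 𝔤] [LieAlgebra ℂ 𝔤] [FiniteDimensional ℂ 𝔤]

theorem KostantSlice.finrank_ker (D : KostantSlice 𝔤) :
    finrank ℂ (LinearMap.ker (LieAlgebra.ad ℂ 𝔤 D.e : 𝔤 →ₗ[ℂ] 𝔤)) = LieAlgebra.rank ℂ 𝔤 := by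
  rw [← D.span_eq, finrank_span_eq_card D.linearIndependent, Fintype.card_fin]

theorem exists_weight (b : Basis (Fin (finrank ℂ 𝔤)) ℂ 𝔤) {μ : Fin (finrank ℂ 𝔤) → ℤ} {h x : 𝔤}
    (hμ : ∀ i, ⁅h, b i⁆ = (μ i : ℂ) • b i) {k : ℤ} (hx : ⁅h, x⁆ = (k : ℂ) • x) (hx0 : x ≠ 0) :
    ∃ i, μ i = k := by
  by_contra hcon
  push Not at hcon
  apply hx0
  apply (coords b).map_eq_zero_iff.1
  have h1 : Hop μ (coords b x) = (k : ℂ) • coords b x := by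
    rw [← adOp_h b hμ, adOp_apply, hx, map_smul]
  ext i
  have h2 : (Hop μ (coords b x)) i = (μ i : ℂ) * coords b x i := rfl
  have h3 : ((k : ℂ) • coords b x) i = (k : ℂ) * coords b x i := rfl
  rw [h1, h3] at h2
  have h4 : ((k : ℂ) - μ i) * coords b x i = 0 := by linear_combination h2
  have h5 : (k : ℂ) - μ i ≠ 0 := by
    intro h6
    apply hcon i
    have : (k : ℂ) = (μ i : ℂ) := by linear_combination h6
    exact_mod_cast this.symm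
  exact (mul_eq_zero.1 h4).resolve_left h5

theorem hasDerivAt_Ed {d : ℕ} {g : ℂ → Ed d} {g' : Ed d} {z : ℂ}
    (h : ∀ i, HasDerivAt (fun w => g w i) (g' i) z) : HasDerivAt g g' z := by
  have h1 : HasDerivAt (fun w => fun i => g w i) (fun i => g' i) z := hasDerivAt_pi.2 h
  exact ((EuclideanSpace.equiv (Fin d) ℂ).symm : (Fin d → ℂ) →L[ℂ] Ed d).hasFDerivAt.comp_hasDerivAt
    z h1

theorem conn_eq (D : KostantSlice 𝔤) (b : Basis (Fin (finrank ℂ 𝔤)) ℂ 𝔤)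
    (μ : Fin (finrank ℂ 𝔤) → ℤ) (hμ : ∀ i, ⁅D.h, b i⁆ = (μ i : ℂ) • b i)
    (α : Fin (LieAlgebra.rank ℂ 𝔤) → ℂ → ℂ) (z : ℂ) :
    (D.pdata b μ hμ).conn (fun i => α i z) = adOp (coords b) (D.oper α z) := by
  rw [PData.conn, KostantSlice.oper, map_add, map_sum]
  congr 1
  apply Finset.sum_congr rfl
  intro i _
  rw [map_smul]
  rfl

theorem flat_of_holonomy (D : KostantSlice 𝔤) (b : Basis (Fin (finrank ℂ 𝔤)) ℂ 𝔤)
    (μ : Fin (finrank ℂ 𝔤) → ℤ) (hμ : ∀ i, ⁅D.h, b i⁆ = (μ i : ℂ) • b i)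
    (α : Fin (LieAlgebra.rank ℂ 𝔤) → ℂ → ℂ) (Y : ℂ → (𝔤 ≃ₗ⁅ℂ⁆ 𝔤))
    (hY : ∀ z : ℂ, 0 < z.im → ∀ (x : 𝔤) (φ : 𝔤 →ₗ[ℂ] ℂ),
      HasDerivAt (fun w => φ (Y w x)) (-φ ⁅D.oper α z, Y z x⁆) z) (v : Ed (finrank ℂ 𝔤)) :
    (D.pdata b μ hμ).IsFlat α (fun z => cj (coords b) (Y z : 𝔤 →ₗ[ℂ] 𝔤) v) := by
  intro z hz
  obtain ⟨x, rfl⟩ := (coords b).surjective v
  simp only [cj_apply]
  rw [conn_eq]
  have h1 : adOp (coords b) (D.oper α z) (coords b ((Y z : 𝔤 →ₗ[ℂ] 𝔤) x)) =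
      coords b ⁅D.oper α z, Y z x⁆ := adOp_apply _ _ _
  rw [h1]
  apply hasDerivAt_Ed
  intro i
  exact hY z hz x (b.coord i)

theorem le_sqrt_two_mul {y : ℝ} (hy : 0 < y) : y ≤ √2 * y := by
  have : (1 : ℝ) ≤ √2 := Real.one_le_sqrt.2 (by norm_num)
  nlinarith

open LieAlgebra in
theorem isDeltaAnosov_of_small [IsSimple ℂ 𝔤] (D : KostantSlice 𝔤) :
    ∃ ε : ℝ, 0 < ε ∧ ∀ Γ : Subgroup SL(2, ℝ), IsCocompactFuchsian Γ →
      ∀ α : Fin (LieAlgebra.rank ℂ 𝔤) → ℂ → ℂ,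
        (∀ i, ∀ z : ℍ, ptNorm (D.m i + 1) (α i) z < ε) →
        ∀ ρ : Γ →* (𝔤 ≃ₗ[ℂ] 𝔤), IsOperHolonomy D Γ α ρ → IsDeltaAnosov ρ := by
  obtain ⟨b, μ, hμ⟩ := exists_eigenbasis D.triple D.finrank_ker
  set P := D.pdata b μ hμ with hP
  have hPμ : P.μ = μ := rfl
  have hK0 := P.K_nonneg
  set ε := 1 / (16 * (P.K + 1)) with hεdef
  have hε0 : 0 < ε := by positivity
  refine ⟨ε, hε0, ?_⟩
  intro Γ hΓ α hα ρ hρ
  obtain ⟨_, Y, hY, heq⟩ := hρ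
  have hα' : ∀ i, ∀ z : ℂ, 0 < z.im → ‖α i z‖ * z.im ^ (P.m i + 1) ≤ ε := by
    intro i z hz
    have h1 := hα i ⟨z, hz⟩
    unfold ptNorm at h1
    refine le_trans ?_ h1.le
    have h2 := le_sqrt_two_mul hz
    have h3 : z.im ^ (P.m i + 1) ≤ (√2 * z.im) ^ (P.m i + 1) := pow_le_pow_left₀ hz.le h2 _
    exact mul_le_mul_of_nonneg_left h3 (norm_nonneg _)
  have hε : ε * P.K ≤ 1 / 16 := by
    rw [hεdef, one_div, inv_mul_le_iff₀ (by positivity)]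
    linarith
  set Yo : ℂ → Op (finrank ℂ 𝔤) := fun z => cj (coords b) (Y z : 𝔤 →ₗ[ℂ] 𝔤) with hYo
  set W : Op (finrank ℂ 𝔤) := cj (coords b) ((Y Complex.I).symm : 𝔤 →ₗ[ℂ] 𝔤) with hWdef
  have hW : W * Yo Complex.I = 1 := by
    rw [hWdef, hYo, ← cj_mul, ← cj_one (coords b)]
    congr 1
    ext x
    exact (Y Complex.I).symm_apply_apply x
  obtain ⟨K, hK, hcore⟩ := core P (flat_of_holonomy D b μ hμ α Y hY) hα' hε hW
  obtain ⟨S₀, hS₀, hword⟩ := exists_word hΓ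
  have hfg : Group.FG Γ := by
    rw [Group.fg_iff]
    refine ⟨S₀, ?_, hS₀⟩
    rw [eq_top_iff]
    intro g _
    obtain ⟨w, _, hw, rfl⟩ := hword g
    exact Subgroup.list_prod_mem _ (fun s hs => Subgroup.subset_closure (hw s hs))
  refine ⟨hfg, ?_⟩
  intro S hS ψ
  obtain ⟨L', hL'⟩ := wordLength_comparison hS hS₀
  set Φ : Ed (finrank ℂ 𝔤) ≃ₗ[ℂ] Ed (finrank ℂ 𝔤) := (coords b).symm ≪≫ₗ ψ with hΦ
  obtain ⟨L, hL, hconj⟩ := conj_gap Φ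
  refine ⟨5 / (16 * (L' + 1)), by positivity, 5 / 8 + 2 * Real.log (K * L), fun γ => ?_⟩
  set N := (finrank ℂ 𝔤 - LieAlgebra.rank ℂ 𝔤) / 2 with hN
  have hcard : (Finset.univ.filter (fun i => 0 < μ i)).card = N :=
    card_pos D.triple D.finrank_ker b μ hμ
  have hcard2 : (Finset.univ.filter (fun i => ¬ 0 < μ i)).card + N = finrank ℂ 𝔤 := by
    rw [← hcard, add_comm, Finset.card_filter_add_card_filter_not]
    simp
  have hN1 : 1 ≤ N := by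
    rw [← hcard]
    obtain ⟨i, hi⟩ := exists_weight b hμ (k := 2) (x := D.e)
      (by rw [D.triple.lie_h_e_nsmul, ← Nat.cast_smul_eq_nsmul ℂ]; norm_num) D.triple.e_ne_zero
    exact Finset.card_pos.2 ⟨i, by simp [hi]⟩
  have hNd : N < finrank ℂ 𝔤 := by
    obtain ⟨i, hi⟩ := exists_weight b hμ (k := -2) (x := D.f)
      (by rw [D.triple.lie_h_f_nsmul, ← Nat.cast_smul_eq_nsmul ℂ]; push_cast; module)
      D.triple.f_ne_zero
    have : 0 < (Finset.univ.filter (fun i => ¬ 0 < μ i)).card :=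
      Finset.card_pos.2 ⟨i, by simp [hi]⟩
    omega
  set R : Op (finrank ℂ 𝔤) := cj (coords b) (ρ γ⁻¹ : 𝔤 →ₗ[ℂ] 𝔤) with hR
  set R' : Op (finrank ℂ 𝔤) := cj (coords b) (ρ γ : 𝔤 →ₗ[ℂ] 𝔤) with hR'
  have hRR : R * R' = 1 := by
    rw [hR, hR', ← cj_mul, ← cj_one (coords b)]
    congr 1
    ext x
    have : ρ γ⁻¹ (ρ γ x) = (ρ γ⁻¹ * ρ γ) x := rfl
    change ρ γ⁻¹ (ρ γ x) = x
    rw [this, ← map_mul, inv_mul_cancel, map_one]
    rfl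
  have hop : Yo (((γ⁻¹ : Γ) : SL(2, ℝ)) • I : ℍ) * R =
      ex P.E (((((γ⁻¹ : Γ) : SL(2, ℝ)) 1 0 : ℝ) : ℂ) * jfac ((γ⁻¹ : Γ) : SL(2, ℝ)) Complex.I) *
        Dop P.μ (jfac ((γ⁻¹ : Γ) : SL(2, ℝ)) Complex.I)⁻¹ * Yo Complex.I := by
    obtain ⟨T, hT, hTx⟩ := heq γ⁻¹ I
    have hnil : IsNilpotent (LieAlgebra.ad ℂ 𝔤 D.e : 𝔤 →ₗ[ℂ] 𝔤) :=
      ad_e_nilpotent b hμ (by rw [D.triple.lie_h_e_nsmul, ← Nat.cast_smul_eq_nsmul ℂ]; norm_num)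
    have e1 : ex P.E (((((γ⁻¹ : Γ) : SL(2, ℝ)) 1 0 : ℝ) : ℂ) *
        jfac ((γ⁻¹ : Γ) : SL(2, ℝ)) Complex.I) = cj (coords b) (expAd D.e
        (((((γ⁻¹ : Γ) : SL(2, ℝ)) 1 0 : ℝ) : ℂ) * jfac ((γ⁻¹ : Γ) : SL(2, ℝ)) Complex.I)) :=
      (cj_expAd (coords b) hnil _).symm
    have e2 : Dop P.μ (jfac ((γ⁻¹ : Γ) : SL(2, ℝ)) Complex.I)⁻¹ = cj (coords b) T :=
      (cj_torus b hμ hT).symm
    rw [e1, e2, hYo, hR, ← cj_mul, ← cj_mul, ← cj_mul]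
    congr 1
    ext x
    exact hTx x
  obtain ⟨⟨W₁, hd1, hW1⟩, ⟨W₂, hd2, hW2⟩⟩ := hcore ((γ⁻¹ : Γ) : SL(2, ℝ)) R R' hRR hop
  set T := dist I (((γ⁻¹ : Γ) : SL(2, ℝ)) • I) with hT
  have hc := hconj (R' : Ed (finrank ℂ 𝔤) →ₗ[ℂ] Ed (finrank ℂ 𝔤)) (Real.exp (7 / 16 * T) / K)
    (K * Real.exp (1 / 8 * T)) W₁ W₂ (by positivity) (by positivity)
    (fun x hx => by
      rw [div_mul_eq_mul_div, div_le_iff₀ hK, mul_comm _ K]
      exact hW1 x hx) (fun x hx => hW2 x hx)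
  have hfin1 : finrank ℂ (W₁.map Φ.toLinearMap) = finrank ℂ W₁ := LinearEquiv.finrank_map_eq Φ W₁
  have hfin2 : finrank ℂ (W₂.map Φ.toLinearMap) = finrank ℂ W₂ := LinearEquiv.finrank_map_eq Φ W₂
  have hlg := log_gap (d := finrank ℂ 𝔤)
    (ψ.toLinearMap ∘ₗ (ρ γ).toLinearMap ∘ₗ ψ.symm.toLinearMap)
    (ψ.toLinearMap ∘ₗ (ρ γ).symm.toLinearMap ∘ₗ ψ.symm.toLinearMap) (fun x => by simp)
    hN1 hNd (a := Real.exp (7 / 16 * T) / K / L) (b := K * Real.exp (1 / 8 * T) * L)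
    (by positivity) (by positivity)
    (W₁.map Φ.toLinearMap) (W₂.map Φ.toLinearMap) (by rw [hfin1]; rw [hPμ] at hd1; omega)
    (by rw [hfin2]; rw [hPμ, hcard] at hd2; omega)
    (fun x hx => by
      have := hc.1 x hx
      refine this.trans (le_of_eq ?_)
      congr 1
      simp [hΦ, hR', cj_apply'])
    (fun x hx => by
      have := hc.2 x hx
      refine le_trans (le_of_eq ?_) this
      congr 1
      simp [hΦ, hR', cj_apply'])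
  refine le_trans ?_ hlg
  have hlog : Real.log (Real.exp (7 / 16 * T) / K / L) - Real.log (K * Real.exp (1 / 8 * T) * L) =
      5 / 16 * T - 2 * Real.log (K * L) := by
    rw [Real.log_div (by positivity) (by positivity), Real.log_div (by positivity) (by positivity),
      Real.log_mul (by positivity) (by positivity), Real.log_mul (by positivity) (by positivity),
      Real.log_mul (by positivity) (by positivity), Real.log_exp, Real.log_exp]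
    ring
  rw [hlog]
  obtain ⟨w, hwl, hwS, hwp⟩ := hword γ
  have hTγ : dist I ((γ : SL(2, ℝ)) • I) = T := by
    rw [hT]
    have : dist I ((γ : SL(2, ℝ)) • I) = dist ((γ : SL(2, ℝ))⁻¹ • I) ((γ : SL(2, ℝ))⁻¹ • ((γ : SL(2, ℝ)) • I)) :=
      (dist_smul _ _ _).symm
    rw [this, inv_smul_smul, dist_comm]
    rfl
  have h1 := hL' w hwS
  rw [hwp] at h1
  rw [hTγ] at hwl
  have h2 : (wordLength (S : Set Γ) γ : ℝ) ≤ L' * (T + 2) := by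
    calc (wordLength (S : Set Γ) γ : ℝ) ≤ ((L' * w.length : ℕ) : ℝ) := by exact_mod_cast h1
      _ = L' * (w.length : ℝ) := by push_cast; ring
      _ ≤ L' * (T + 2) := by gcongr
  have hT0 : 0 ≤ T := dist_nonneg
  have h3 : 5 / (16 * ((L' : ℝ) + 1)) * (wordLength (S : Set Γ) γ : ℝ) ≤ 5 / 16 * (T + 2) := by
    rw [div_mul_eq_mul_div, div_le_iff₀ (by positivity)]
    calc 5 * (wordLength (S : Set Γ) γ : ℝ) ≤ 5 * (L' * (T + 2)) := by gcongr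
      _ ≤ 5 / 16 * (T + 2) * (16 * ((L' : ℝ) + 1)) := by nlinarith
  linarith

end Pool.Agent.Lib.MP_93fb9a_gt
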