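import Mathlib

set_option autoImplicit false

open UpperHalfPlane Module
open scoped MatrixGroups

/-!
# Definitions for MP_93fb9a_gt

Setting: `𝔤` is a complex simple Lie algebra of rank `l`, `G` its adjoint group.  A closed Riemann
surface `X` of genus at least two is `Γ \ ℍ` for a cocompact Fuchsian group `Γ`, and (lifting to
`SL(2, ℝ)`) a point `(α_i)` of `⨁ H⁰(X, K^(m_i+1))` is a tuple of holomorphic functions on `ℍ` with
`α_i (γ z) = (c z + d)^(2 (m_i + 1)) α_i z`.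
-/

namespace Pool.Agent.Lib.MP_93fb9a_gt

/-- `Γ ≤ SL(2, ℝ)` acts properly discontinuously and cocompactly on the upper half plane. -/
structure IsCocompactFuchsian (Γ : Subgroup SL(2, ℝ)) : Prop where
  /-- only finitely many elements of `Γ` move a given compact set to a set that meets it -/
  properlyDiscontinuous : ∀ K : Set ℍ, IsCompact K →
    {γ : Γ | ∃ z ∈ K, (γ : SL(2, ℝ)) • z ∈ K}.Finite
  /-- some compact set meets every orbit -/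
  cocompact : ∃ K : Set ℍ, IsCompact K ∧ ∀ z : ℍ, ∃ γ ∈ Γ, γ • z ∈ K

/-- The factor of automorphy `j(γ, z) = c z + d`. -/
noncomputable def jfac (γ : SL(2, ℝ)) (z : ℂ) : ℂ := (γ 1 0 : ℂ) * z + (γ 1 1 : ℂ)

/-- `a(z) dz^k` is a holomorphic `k`-differential on `Γ \ ℍ`, that is a holomorphic section of
`K^k`. (Only the values of `a` on the upper half plane matter.) -/
structure IsDifferential (Γ : Subgroup SL(2, ℝ)) (k : ℕ) (a : ℂ → ℂ) : Prop where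
  holomorphic : DifferentiableOn ℂ a {z : ℂ | 0 < z.im}
  automorphic : ∀ γ ∈ Γ, ∀ z : ℍ, a ((γ • z : ℍ) : ℂ) = jfac γ z ^ (2 * k) * a z

/-- The pointwise norm of the `k`-differential `a(z) dz^k` at `z` for the complete hyperbolic metric
`|dz|² / (2 y²)` of curvature `-2`, for which `|dz| = √2 y`. -/
noncomputable def ptNorm (k : ℕ) (a : ℂ → ℂ) (z : ℍ) : ℝ := ‖a z‖ * (√2 * z.im) ^ k

section Lie

variable (𝔤 : Type*) [LieRing 𝔤] [LieAlgebra ℂ 𝔤] [FiniteDimensional ℂ 𝔤]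

/-- The data of the Kostant slice `f + ker (ad e)`: a principal `sl₂`-triple `h, e, f` of `𝔤` (the
centralizer of `e` has dimension `rank 𝔤`) and a basis `v i` of `ker (ad e)` of weight vectors,
`[h, v i] = 2 m_i v i`. The `m i` are the exponents of `𝔤`. -/
structure KostantSlice where
  h : 𝔤
  e : 𝔤
  f : 𝔤
  triple : IsSl2Triple h e f
  v : Fin (LieAlgebra.rank ℂ 𝔤) → 𝔤
  m : Fin (LieAlgebra.rank ℂ 𝔤) → ℕ
  linearIndependent : LinearIndependent ℂ v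
  span_eq : Submodule.span ℂ (Set.range v) = LinearMap.ker (LieAlgebra.ad ℂ 𝔤 e : 𝔤 →ₗ[ℂ] 𝔤)
  weight : ∀ i, ⁅h, v i⁆ = (2 * (m i : ℂ)) • v i

variable {𝔤}

/-- The element `f + ∑ α_i(z) v_i` of the Kostant slice. -/
noncomputable def KostantSlice.oper (D : KostantSlice 𝔤)
    (α : Fin (LieAlgebra.rank ℂ 𝔤) → ℂ → ℂ) (z : ℂ) : 𝔤 :=
  D.f + ∑ i, α i z • D.v i

/-- `exp (s • ad e)` (for `ad e` nilpotent). -/
noncomputable def expAd (e : 𝔤) (s : ℂ) : 𝔤 →ₗ[ℂ] 𝔤 :=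
  ∑ k ∈ Finset.range (finrank ℂ 𝔤 + 1),
    (s ^ k / (k.factorial : ℂ)) • (LieAlgebra.ad ℂ 𝔤 e : 𝔤 →ₗ[ℂ] 𝔤) ^ k

/-- `T = t ^ (ad h)`: the linear map `T` is multiplication by `t ^ k` on the `k`-eigenspace of
`ad h`, for every integer `k`. -/
def IsTorusElement (h : 𝔤) (t : ℂ) (T : 𝔤 →ₗ[ℂ] 𝔤) : Prop :=
  ∀ (k : ℤ) (x : 𝔤), ⁅h, x⁆ = (k : ℂ) • x → T x = t ^ k • x

/-- `ρ : Γ → Aut 𝔤` is the holonomy of the oper `∇ = d + (f + ∑ α_i v_i) dz` on `Γ \ ℍ`: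
there is a fundamental solution `Y : ℍ → Aut 𝔤` of `Y' = - ad (f + ∑ α_i v_i) Y`, i.e. a flat
frame, such that `Y(γ z) ρ(γ) = J(γ, z) Y(z)`, where `J(γ, z) = exp (c (c z + d) ad e) (c z + d)^(ad h)`
are the transition functions of the oper bundle. -/
def IsOperHolonomy (D : KostantSlice 𝔤) (Γ : Subgroup SL(2, ℝ))
    (α : Fin (LieAlgebra.rank ℂ 𝔤) → ℂ → ℂ) (ρ : Γ →* (𝔤 ≃ₗ[ℂ] 𝔤)) : Prop :=
  (∀ γ x y, ρ γ ⁅x, y⁆ = ⁅ρ γ x, ρ γ y⁆) ∧
  ∃ Y : ℂ → (𝔤 ≃ₗ⁅ℂ⁆ 𝔤),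
    (∀ z : ℂ, 0 < z.im → ∀ (x : 𝔤) (φ : 𝔤 →ₗ[ℂ] ℂ),
      HasDerivAt (fun w => φ (Y w x)) (-φ ⁅D.oper α z, Y z x⁆) z) ∧
    (∀ (γ : Γ) (z : ℍ), ∃ T : 𝔤 →ₗ[ℂ] 𝔤, IsTorusElement D.h (jfac γ z) T ∧
      ∀ x, Y (((γ : SL(2, ℝ)) • z : ℍ) : ℂ) (ρ γ x) =
        expAd D.e (((γ : SL(2, ℝ)) 1 0 : ℂ) * jfac γ z) (T (Y z x)))

/-- The word length of `g`: the least length of a word in the letters `S ∪ S⁻¹` with product `g`. -/
noncomputable def wordLength {G : Type*} [Group G] (S : Set G) (g : G) : ℕ :=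
  sInf {n | ∃ w : List G, w.length = n ∧ (∀ s ∈ w, s ∈ S ∨ s⁻¹ ∈ S) ∧ w.prod = g}

/-- The singular values `σ_0 ≥ σ_1 ≥ ...` of the linear map `T` for the Hermitian inner product
that the linear coordinates `ψ` define on `𝔤`. -/
noncomputable def sv (ψ : 𝔤 ≃ₗ[ℂ] EuclideanSpace ℂ (Fin (finrank ℂ 𝔤))) (T : 𝔤 →ₗ[ℂ] 𝔤)
    (k : ℕ) : ℝ :=
  (ψ.toLinearMap ∘ₗ T ∘ₗ ψ.symm.toLinearMap).singularValues k

/-- `ρ : Γ → Aut 𝔤` is `Δ`-Anosov, in the characterization of Kapovich-Leeb-Porti,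
Guéritaud-Guichard-Kassel-Wienhard and Bochi-Potrie-Sambarino. Let `N = (dim 𝔤 - rank 𝔤) / 2` be the
number of positive roots. The logarithms of the singular values of an element `g` of the adjoint
group, acting on `𝔤`, are the numbers `β(μ(g))` for the roots `β`, and `rank 𝔤` zeros, where `μ` is
the Cartan projection. So `log σ_N - log σ_(N+1)` (counted from `1`) is the minimum of `β(μ(g))` over
the simple roots `β`, and `ρ` is `Δ`-Anosov if and only if `Γ` is finitely generated and this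
minimum grows at least linearly in the word length. -/
structure IsDeltaAnosov {Γ : Subgroup SL(2, ℝ)} (ρ : Γ →* (𝔤 ≃ₗ[ℂ] 𝔤)) : Prop where
  fg : Group.FG Γ
  gap : ∀ S : Finset Γ, Subgroup.closure (S : Set Γ) = ⊤ →
    ∀ ψ : 𝔤 ≃ₗ[ℂ] EuclideanSpace ℂ (Fin (finrank ℂ 𝔤)), ∃ c : ℝ, 0 < c ∧ ∃ C : ℝ, ∀ γ : Γ,
      c * (wordLength (S : Set Γ) γ : ℝ) - C ≤
        Real.log (sv ψ (ρ γ).toLinearMap ((finrank ℂ 𝔤 - LieAlgebra.rank ℂ 𝔤) / 2 - 1)) -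
        Real.log (sv ψ (ρ γ).toLinearMap ((finrank ℂ 𝔤 - LieAlgebra.rank ℂ 𝔤) / 2))

end Lie

end Pool.Agent.Lib.MP_93fb9a_gt
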