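import Mathlib

set_option autoImplicit false
set_option linter.unusedSectionVars false

open Metric Set

namespace Pool.Agent.Lib.MP_93fb9a_gt

variable {V : Type*} [NormedAddCommGroup V] [NormedSpace ℂ V] [CompleteSpace V]

theorem exists_picard (L : ℂ → (V →L[ℂ] V)) (hL : DifferentiableOn ℂ L (ball 0 1)) (c : V) :
    ∃ y : ℕ → ℂ → V, (∀ z, y 0 z = c) ∧ (∀ n, y (n + 1) 0 = 0) ∧
      ∀ n, ∀ z ∈ ball (0 : ℂ) 1, HasDerivAt (y (n + 1)) (L z (y n z)) z := by
  have hstep : ∀ y : {y : ℂ → V // DifferentiableOn ℂ y (ball 0 1)},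
      ∃ y' : {y : ℂ → V // DifferentiableOn ℂ y (ball 0 1)}, y'.1 0 = 0 ∧
        ∀ z ∈ ball (0 : ℂ) 1, HasDerivAt y'.1 (L z (y.1 z)) z := by
    intro y
    have h1 : DifferentiableOn ℂ (fun z => L z (y.1 z)) (ball 0 1) := hL.clm_apply y.2
    obtain ⟨g, hg0, hg⟩ := h1.isExactOn_ball.with_val_at 0 0
    exact ⟨⟨g, fun z hz => (hg z hz).differentiableAt.differentiableWithinAt⟩, hg0, hg⟩
  choose step hs0 hs using hstep
  refine ⟨fun n => ((step^[n]) ⟨fun _ => c, differentiableOn_const c⟩).1, fun z => rfl, ?_, ?_⟩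
  · intro n
    simp only [Function.iterate_succ_apply']
    exact hs0 _
  · intro n z hz
    simp only [Function.iterate_succ_apply']
    exact hs _ z hz

theorem picard_bound {L : ℂ → (V →L[ℂ] V)} {c : V} {y : ℕ → ℂ → V} (h0 : ∀ z, y 0 z = c)
    (h1 : ∀ n, y (n + 1) 0 = 0)
    (h2 : ∀ n, ∀ z ∈ ball (0 : ℂ) 1, HasDerivAt (y (n + 1)) (L z (y n z)) z) {r M : ℝ}
    (hr1 : r < 1) (hM : 0 ≤ M) (hLM : ∀ z ∈ closedBall (0 : ℂ) r, ‖L z‖ ≤ M) (n : ℕ) :
    ∀ z ∈ closedBall (0 : ℂ) r, ‖y n z‖ ≤ ‖c‖ * (M * ‖z‖) ^ n / n.factorial := by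
  induction n with
  | zero => intro z _; simp [h0]
  | succ n ih =>
    intro z hz
    have hzr : ‖z‖ ≤ r := by simpa using hz
    have hmem : ∀ t ∈ Icc (0 : ℝ) 1, (t : ℂ) * z ∈ closedBall (0 : ℂ) r := by
      intro t ht
      rw [mem_closedBall_zero_iff, norm_mul, Complex.norm_real, Real.norm_eq_abs,
        abs_of_nonneg ht.1]
      exact (mul_le_of_le_one_left (norm_nonneg _) ht.2).trans hzr
    have hmem' : ∀ t ∈ Icc (0 : ℝ) 1, (t : ℂ) * z ∈ ball (0 : ℂ) 1 := fun t ht =>
      closedBall_subset_ball hr1 (hmem t ht)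
    have hd : ∀ t ∈ Icc (0 : ℝ) 1, HasDerivAt (fun t : ℝ => y (n + 1) ((t : ℂ) * z))
        (z • L ((t : ℂ) * z) (y n ((t : ℂ) * z))) t := by
      intro t ht
      have e0 : HasDerivAt (fun t : ℝ => (t : ℂ)) 1 t := Complex.ofRealCLM.hasDerivAt
      have e1 := e0.mul_const z
      rw [one_mul] at e1
      exact HasDerivAt.scomp (h := fun t : ℝ => (t : ℂ) * z) t (h2 n _ (hmem' t ht)) e1
    have hB : ∀ t : ℝ, HasDerivAt
        (fun t : ℝ => ‖c‖ * (M * ‖z‖ * t) ^ (n + 1) / (n + 1).factorial)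
        (‖z‖ * (M * (‖c‖ * (M * (t * ‖z‖)) ^ n / n.factorial))) t := by
      intro t
      have e1 : HasDerivAt (fun t : ℝ => M * ‖z‖ * t) (M * ‖z‖) t := by
        simpa using (hasDerivAt_id t).const_mul (M * ‖z‖)
      have e2 := ((e1.pow (n + 1)).const_mul ‖c‖).div_const ((n + 1).factorial : ℝ)
      refine e2.congr_deriv ?_
      rw [Nat.factorial_succ]
      push_cast
      have : (n.factorial : ℝ) ≠ 0 := by positivity
      have h3 : ((n : ℝ) + 1) ≠ 0 := by positivity
      field_simp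
    have key := image_norm_le_of_norm_deriv_right_le_deriv_boundary' (a := 0) (b := 1)
      (f := fun t : ℝ => y (n + 1) ((t : ℂ) * z))
      (f' := fun t : ℝ => z • L ((t : ℂ) * z) (y n ((t : ℂ) * z)))
      (B := fun t : ℝ => ‖c‖ * (M * ‖z‖ * t) ^ (n + 1) / (n + 1).factorial)
      (B' := fun t : ℝ => ‖z‖ * (M * (‖c‖ * (M * (t * ‖z‖)) ^ n / n.factorial)))
      (fun t ht => (hd t ht).continuousAt.continuousWithinAt)
      (fun t ht => (hd t (Ico_subset_Icc_self ht)).hasDerivWithinAt)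
      (by simp [h1]) (fun t _ => (hB t).continuousAt.continuousWithinAt)
      (fun t _ => (hB t).hasDerivWithinAt)
      (fun t ht => by
        have ht' := Ico_subset_Icc_self ht
        rw [norm_smul]
        gcongr
        refine (ContinuousLinearMap.le_opNorm _ _).trans ?_
        gcongr
        · exact hLM _ (hmem t ht')
        · have := ih _ (hmem t ht')
          rwa [norm_mul, Complex.norm_real, Real.norm_eq_abs, abs_of_nonneg ht'.1] at this)
      (right_mem_Icc.2 zero_le_one)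
    simpa using key

/-- Linear differential equations on the unit disc. -/
theorem exists_solution_disc (L : ℂ → (V →L[ℂ] V)) (hL : DifferentiableOn ℂ L (ball 0 1)) (c : V) :
    ∃ y : ℂ → V, y 0 = c ∧ ∀ z ∈ ball (0 : ℂ) 1, HasDerivAt y (L z (y z)) z := by
  obtain ⟨y, h0, h1, h2⟩ := exists_picard L hL c
  refine ⟨fun z => c + ∑' n, y (n + 1) z, by simp [h1], ?_⟩
  intro z hz
  have hz1 : ‖z‖ < 1 := by simpa using hz
  obtain ⟨r, hzr, hr1⟩ := exists_between hz1
  have hr0 : 0 ≤ r := (norm_nonneg z).trans hzr.le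
  have hcl : closedBall (0 : ℂ) r ⊆ ball 0 1 := closedBall_subset_ball hr1
  obtain ⟨M', hM'⟩ := (isCompact_closedBall (0 : ℂ) r).exists_bound_of_continuousOn
    (hL.continuousOn.mono hcl)
  set M := max M' 0 with hM
  have hM0 : 0 ≤ M := le_max_right _ _
  have hLM : ∀ z ∈ closedBall (0 : ℂ) r, ‖L z‖ ≤ M := fun z hz => (hM' z hz).trans (le_max_left _ _)
  have hb := picard_bound h0 h1 h2 hr1 hM0 hLM
  have hsum : Summable (fun n : ℕ => ‖c‖ * (M * r) ^ n / n.factorial) := by
    have := (Real.summable_pow_div_factorial (M * r)).mul_left ‖c‖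
    simpa [mul_div_assoc] using this
  have hyb : ∀ n, ∀ w ∈ closedBall (0 : ℂ) r, ‖y n w‖ ≤ ‖c‖ * (M * r) ^ n / n.factorial := by
    intro n w hw
    refine (hb n w hw).trans ?_
    have : ‖w‖ ≤ r := by simpa using hw
    gcongr
  have hsy : ∀ w ∈ closedBall (0 : ℂ) r, Summable (fun n => y n w) := fun w hw =>
    Summable.of_norm_bounded hsum (fun n => hyb n w hw)
  have hder := hasDerivAt_tsum_of_isPreconnected (𝕜 := ℂ)
    (u := fun n : ℕ => M * (‖c‖ * (M * r) ^ n / n.factorial)) (t := ball (0 : ℂ) r)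
    (g := fun n => y (n + 1)) (g' := fun n z => L z (y n z)) (y₀ := 0) (y := z)
    (hsum.mul_left M) isOpen_ball (convex_ball _ _).isPreconnected
    (fun n w hw => h2 n w (ball_subset_ball hr1.le hw))
    (fun n w hw => (ContinuousLinearMap.le_opNorm _ _).trans (by
      gcongr
      · exact hLM w (ball_subset_closedBall hw)
      · exact hyb n w (ball_subset_closedBall hw)))
    (mem_ball_self ((norm_nonneg z).trans_lt hzr)) (by simp only [h1]; exact summable_zero)
    (by simpa using hzr)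
  have hzc : z ∈ closedBall (0 : ℂ) r := by simpa using hzr.le
  have e1 : ∑' n, L z (y n z) = L z (∑' n, y n z) := ((L z).map_tsum (hsy z hzc)).symm
  have e2 : ∑' n, y n z = c + ∑' n, y (n + 1) z := by
    rw [(hsy z hzc).tsum_eq_zero_add, h0]
  have h3 := hder.const_add c
  rw [e1, e2] at h3
  exact h3

/-- Linear differential equations on the upper half plane. -/
theorem exists_solution_upper (L : ℂ → (V →L[ℂ] V))
    (hL : DifferentiableOn ℂ L {z | 0 < z.im}) (c : V) :
    ∃ y : ℂ → V, y Complex.I = c ∧ ∀ z : ℂ, 0 < z.im → HasDerivAt y (L z (y z)) z := by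
  set φ : ℂ → ℂ := fun w => Complex.I * (1 + w) / (1 - w) with hφ
  set ψ : ℂ → ℂ := fun z => (z - Complex.I) / (z + Complex.I) with hψ
  have hne : ∀ w ∈ ball (0 : ℂ) 1, 1 - w ≠ 0 := by
    intro w hw h
    have : w = 1 := by linear_combination -h
    rw [this] at hw
    simp at hw
  have hφd : ∀ w ∈ ball (0 : ℂ) 1, HasDerivAt φ (2 * Complex.I / (1 - w) ^ 2) w := by
    intro w hw
    have h1 : HasDerivAt (fun w : ℂ => Complex.I * (1 + w)) (Complex.I * 1) w :=
      ((hasDerivAt_id w).const_add 1).const_mul Complex.I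
    have h2 : HasDerivAt (fun w : ℂ => 1 - w) (-1) w := by
      simpa using (hasDerivAt_id w).const_sub 1
    refine (h1.div h2 (hne w hw)).congr_deriv ?_
    congr 1
    ring
  have hφim : ∀ w ∈ ball (0 : ℂ) 1, 0 < (φ w).im := by
    intro w hw
    have hw1 : Complex.normSq w < 1 := by
      have : ‖w‖ < 1 := by simpa using hw
      rw [Complex.normSq_eq_norm_sq]
      nlinarith [norm_nonneg w]
    have hp : 0 < Complex.normSq (1 - w) := Complex.normSq_pos.2 (hne w hw)
    rw [hφ]
    simp only [Complex.div_im, Complex.mul_re, Complex.mul_im, Complex.I_re, Complex.I_im,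
      Complex.add_re, Complex.add_im, Complex.sub_re, Complex.sub_im, Complex.one_re,
      Complex.one_im]
    rw [← sub_div]
    apply div_pos _ hp
    rw [Complex.normSq_apply] at hw1
    nlinarith
  have hzi : ∀ z : ℂ, 0 < z.im → z + Complex.I ≠ 0 := by
    intro z hz h
    have := congrArg Complex.im h
    simp at this
    linarith
  have hψb : ∀ z : ℂ, 0 < z.im → ψ z ∈ ball (0 : ℂ) 1 := by
    intro z hz
    have hp : 0 < Complex.normSq (z + Complex.I) := Complex.normSq_pos.2 (hzi z hz)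
    rw [mem_ball_zero_iff, ← sq_lt_one_iff₀ (norm_nonneg _), ← Complex.normSq_eq_norm_sq, hψ]
    simp only
    rw [Complex.normSq_div, div_lt_one hp, Complex.normSq_apply, Complex.normSq_apply]
    simp only [Complex.sub_re, Complex.sub_im, Complex.add_re, Complex.add_im, Complex.I_re,
      Complex.I_im]
    nlinarith
  have hψd : ∀ z : ℂ, 0 < z.im → HasDerivAt ψ (2 * Complex.I / (z + Complex.I) ^ 2) z := by
    intro z hz
    have h1 : HasDerivAt (fun z : ℂ => z - Complex.I) 1 z := by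
      simpa using (hasDerivAt_id z).sub_const Complex.I
    have h2 : HasDerivAt (fun z : ℂ => z + Complex.I) 1 z := by
      simpa using (hasDerivAt_id z).add_const Complex.I
    refine (h1.div h2 (hzi z hz)).congr_deriv ?_
    congr 1
    ring
  have hφψ : ∀ z : ℂ, 0 < z.im → φ (ψ z) = z := by
    intro z hz
    have h1 := hzi z hz
    have h2 : 1 - ψ z = 2 * Complex.I / (z + Complex.I) := by
      rw [hψ]; field_simp; ring
    have h3 : 1 + ψ z = 2 * z / (z + Complex.I) := by
      rw [hψ]; field_simp; ring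
    have hI := Complex.I_ne_zero
    rw [hφ]
    simp only
    rw [h2, h3]
    field_simp
  have hprod : ∀ z : ℂ, 0 < z.im →
      2 * Complex.I / (z + Complex.I) ^ 2 * (2 * Complex.I / (1 - ψ z) ^ 2) = 1 := by
    intro z hz
    have h1 := hzi z hz
    have h2 : 1 - ψ z = 2 * Complex.I / (z + Complex.I) := by
      rw [hψ]; field_simp; ring
    have hI := Complex.I_ne_zero
    rw [h2]
    field_simp
  set L' : ℂ → (V →L[ℂ] V) := fun w => (2 * Complex.I / (1 - w) ^ 2) • L (φ w) with hL'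
  have hL'd : DifferentiableOn ℂ L' (ball 0 1) := by
    refine DifferentiableOn.fun_smul (c := fun w : ℂ => 2 * Complex.I / (1 - w) ^ 2)
      (f := fun w => L (φ w)) ?_ ?_
    · intro w hw
      have h2 : HasDerivAt (fun w : ℂ => (1 - w) ^ 2) (2 * (1 - w) ^ 1 * (-1)) w := by
        have h3 : HasDerivAt (fun w : ℂ => 1 - w) (-1) w := by
          simpa using (hasDerivAt_id w).const_sub 1
        exact (h3.pow 2).congr_deriv (by norm_num)
      exact (((hasDerivAt_const w (2 * Complex.I)).div h2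
        (pow_ne_zero 2 (hne w hw))).differentiableAt).differentiableWithinAt
    · exact hL.comp (fun w hw => (hφd w hw).differentiableAt.differentiableWithinAt)
        (fun w hw => hφim w hw)
  obtain ⟨y, hy0, hy⟩ := exists_solution_disc L' hL'd c
  refine ⟨fun z => y (ψ z), ?_, ?_⟩
  · have : ψ Complex.I = 0 := by rw [hψ]; simp
    simp only [this, hy0]
  · intro z hz
    have h1 := HasDerivAt.scomp (h := ψ) z (hy (ψ z) (hψb z hz)) (hψd z hz)
    refine h1.congr_deriv ?_
    rw [hL']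
    simp only [hφψ z hz]
    have h2 : ((2 * Complex.I / (1 - ψ z) ^ 2) • L z) (y (ψ z)) =
      (2 * Complex.I / (1 - ψ z) ^ 2) • L z (y (ψ z)) := rfl
    rw [h2, smul_smul, hprod z hz, one_smul]

theorem const_on_upper {f : ℂ → V} (h : ∀ z : ℂ, 0 < z.im → HasDerivAt f 0 z) {z w : ℂ}
    (hz : 0 < z.im) (hw : 0 < w.im) : f z = f w := by
  have ho : IsOpen {z : ℂ | 0 < z.im} := isOpen_lt continuous_const Complex.continuous_im
  have hc : Convex ℝ {z : ℂ | 0 < z.im} := convex_halfSpace_im_gt 0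
  exact ho.is_const_of_deriv_eq_zero hc.isPreconnected
    (fun z hz => (h z hz).differentiableAt.differentiableWithinAt)
    (fun z hz => (h z hz).deriv) hz hw

end Pool.Agent.Lib.MP_93fb9a_gt
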