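import Pool.Agent.Lib.MP_93fb9a_gt.Anosov
import Pool.Agent.Lib.MP_93fb9a_gt.LinODE

set_option autoImplicit false
set_option linter.unusedSectionVars false

open UpperHalfPlane Module
open scoped MatrixGroups

namespace Pool.Agent.Lib.MP_93fb9a_gt

variable {d : ℕ}

theorem ring_id1 {R : Type*} [Ring R] (x a y : R) : x * a * y + x * -(a * y) = 0 := by noncomm_ring

theorem ring_id2 {R : Type*} [Ring R] (E P : R) : E * P - P * E = -((-E) * P - P * (-E)) := by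
  noncomm_ring

theorem op_mul_eq_one_comm {X Y : Op d} (h : X * Y = 1) : Y * X = 1 := by
  have h1 : (X : Ed d →ₗ[ℂ] Ed d) * (Y : Ed d →ₗ[ℂ] Ed d) = 1 := by
    ext1 v
    have := congrArg (fun Z : Op d => Z v) h
    exact this
  have h2 := mul_eq_one_comm.1 h1
  ext1 v
  have := congrArg (fun Z : Ed d →ₗ[ℂ] Ed d => Z v) h2
  exact this

theorem exists_frames {A : ℂ → Op d} (hA : DifferentiableOn ℂ A {z | 0 < z.im}) :
    ∃ Y X : ℂ → Op d, Y Complex.I = 1 ∧ X Complex.I = 1 ∧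
      (∀ z : ℂ, 0 < z.im → HasDerivAt Y (-(A z * Y z)) z) ∧
      (∀ z : ℂ, 0 < z.im → HasDerivAt X (X z * A z) z) ∧
      (∀ z : ℂ, 0 < z.im → X z * Y z = 1) ∧ (∀ z : ℂ, 0 < z.im → Y z * X z = 1) := by
  set m := ContinuousLinearMap.mul ℂ (Op d) with hm
  obtain ⟨Y, hY0, hY⟩ := exists_solution_upper (fun z => -(m (A z)))
    ((m.differentiable.comp_differentiableOn hA).neg) (1 : Op d)
  obtain ⟨X, hX0, hX⟩ := exists_solution_upper (fun z => m.flip (A z))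
    (m.flip.differentiable.comp_differentiableOn hA) (1 : Op d)
  have hY' : ∀ z : ℂ, 0 < z.im → HasDerivAt Y (-(A z * Y z)) z := fun z hz => hY z hz
  have hX' : ∀ z : ℂ, 0 < z.im → HasDerivAt X (X z * A z) z := fun z hz => hX z hz
  have hXY : ∀ z : ℂ, 0 < z.im → X z * Y z = 1 := by
    intro z hz
    have hd : ∀ z : ℂ, 0 < z.im → HasDerivAt (fun z => X z * Y z) 0 z := by
      intro z hz
      refine ((hX' z hz).mul (hY' z hz)).congr_deriv ?_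
      exact ring_id1 _ _ _
    have := const_on_upper hd hz (w := Complex.I) (by simp)
    rw [this, hX0, hY0, one_mul]
  exact ⟨Y, X, hY0, hX0, hY', hX', hXY, fun z hz => op_mul_eq_one_comm (hXY z hz)⟩

variable {𝔤 : Type*} [LieRing 𝔤] [LieAlgebra ℂ 𝔤] [FiniteDimensional ℂ 𝔤]

/-- the adjoint action of the model space on itself -/
noncomputable def adE (ψ : 𝔤 ≃ₗ[ℂ] Ed d) : Ed d →L[ℂ] Op d :=
  LinearMap.toContinuousLinearMap (adOp ψ ∘ₗ ψ.symm.toLinearMap)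

theorem adE_apply (ψ : 𝔤 ≃ₗ[ℂ] Ed d) (x : 𝔤) : adE ψ (ψ x) = adOp ψ x := by
  change adOp ψ (ψ.symm (ψ x)) = adOp ψ x
  rw [ψ.symm_apply_apply]

theorem adE_adE (ψ : 𝔤 ≃ₗ[ℂ] Ed d) (p q : Ed d) :
    adE ψ (adE ψ p q) = adE ψ p * adE ψ q - adE ψ q * adE ψ p := by
  obtain ⟨x, rfl⟩ := ψ.surjective p
  obtain ⟨y, rfl⟩ := ψ.surjective q
  rw [adE_apply, adE_apply, adOp_apply, adE_apply, adOp_lie]

/-- `T` is compatible with the bracket -/
def IsAut (ψ : 𝔤 ≃ₗ[ℂ] Ed d) (T : Op d) : Prop := ∀ p, T * adE ψ p = adE ψ (T p) * T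

theorem IsAut.mul {ψ : 𝔤 ≃ₗ[ℂ] Ed d} {S T : Op d} (hS : IsAut ψ S) (hT : IsAut ψ T) :
    IsAut ψ (S * T) := by
  intro p
  have h : (S * T) p = S (T p) := rfl
  rw [h, mul_assoc, hT, ← mul_assoc, hS, mul_assoc]

theorem IsAut.one (ψ : 𝔤 ≃ₗ[ℂ] Ed d) : IsAut ψ 1 := by
  intro p
  have h : (1 : Op d) p = p := rfl
  rw [h, one_mul, mul_one]

theorem IsAut.inv {ψ : 𝔤 ≃ₗ[ℂ] Ed d} {S T : Op d} (hT : IsAut ψ T) (h1 : S * T = 1)
    (h2 : T * S = 1) : IsAut ψ S := by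
  intro p
  have h : T (S p) = p := congrArg (fun Z : Op d => Z p) h2
  have h3 := hT (S p)
  rw [h] at h3
  calc S * adE ψ p = S * (adE ψ p * T) * S := by rw [mul_assoc, mul_assoc, h2, mul_one]
    _ = S * (T * adE ψ (S p)) * S := by rw [h3]
    _ = adE ψ (S p) * S := by rw [← mul_assoc, h1, one_mul]

theorem IsAut.ex (ψ : 𝔤 ≃ₗ[ℂ] Ed d) (a : Ed d) (s : ℂ) : IsAut ψ (ex (adE ψ a) s) := by
  intro p
  set E := adE ψ a with hE
  have hX : ∀ s : ℂ, HasDerivAt (fun s => adE ψ (Pool.Agent.Lib.MP_93fb9a_gt.ex E s p))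
      (-((-E) * adE ψ (Pool.Agent.Lib.MP_93fb9a_gt.ex E s p) -
        adE ψ (Pool.Agent.Lib.MP_93fb9a_gt.ex E s p) * (-E))) s := by
    intro s
    have h1 : HasDerivAt (fun s => Pool.Agent.Lib.MP_93fb9a_gt.ex E s p)
        ((E * Pool.Agent.Lib.MP_93fb9a_gt.ex E s) p) s := by
      have := (hasDerivAt_ex E s).clm_apply (hasDerivAt_const s p)
      simpa using this
    have h2 := (adE ψ).hasFDerivAt.comp_hasDerivAt s h1
    refine h2.congr_deriv ?_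
    have h3 : (E * Pool.Agent.Lib.MP_93fb9a_gt.ex E s) p =
      adE ψ a (Pool.Agent.Lib.MP_93fb9a_gt.ex E s p) := rfl
    rw [h3, adE_adE, ← hE]
    exact ring_id2 _ _
  have := conj_const hX s
  have e1 : Pool.Agent.Lib.MP_93fb9a_gt.ex (-E) (-s) = Pool.Agent.Lib.MP_93fb9a_gt.ex E s := by
    unfold Pool.Agent.Lib.MP_93fb9a_gt.ex
    congr 1
    module
  rw [e1, ex_zero] at this
  exact this

theorem IsAut.dop (b : Basis (Fin (finrank ℂ 𝔤)) ℂ 𝔤) {μ : Fin (finrank ℂ 𝔤) → ℤ} {h : 𝔤}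
    (hμ : ∀ i, ⁅h, b i⁆ = (μ i : ℂ) • b i) {s : ℂ} (hs : s ≠ 0) :
    IsAut (coords b) (Dop μ s) := by
  intro p
  set f₁ : Ed (finrank ℂ 𝔤) →ₗ[ℂ] Op (finrank ℂ 𝔤) :=
    LinearMap.mulLeft ℂ (Dop μ s) ∘ₗ (adE (coords b) : Ed (finrank ℂ 𝔤) →ₗ[ℂ] Op (finrank ℂ 𝔤))
    with hf1
  set f₂ : Ed (finrank ℂ 𝔤) →ₗ[ℂ] Op (finrank ℂ 𝔤) :=
    LinearMap.mulRight ℂ (Dop μ s) ∘ₗ (adE (coords b) : Ed (finrank ℂ 𝔤) →ₗ[ℂ] Op (finrank ℂ 𝔤)) ∘ₗ
      (Dop μ s : Ed (finrank ℂ 𝔤) →ₗ[ℂ] Ed (finrank ℂ 𝔤)) with hf2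
  have hff : f₁ = f₂ := by
    refine (EuclideanSpace.basisFun (Fin (finrank ℂ 𝔤)) ℂ).toBasis.ext fun j => ?_
    have e0 : (EuclideanSpace.basisFun (Fin (finrank ℂ 𝔤)) ℂ).toBasis j =
      EuclideanSpace.single j (1 : ℂ) := by simp
    rw [e0]
    change Dop μ s * adE (coords b) (EuclideanSpace.single j 1) =
      adE (coords b) (Dop μ s (EuclideanSpace.single j 1)) * Dop μ s
    have e1 : Dop μ s (EuclideanSpace.single j 1) = s ^ (-μ j) • EuclideanSpace.single j 1 :=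
      diagL_single _ j
    rw [e1, map_smul, ← coords_basis b, adE_apply, (adOp_wt b hμ (hμ j)).Dop_comm hs,
      smul_mul_assoc]
  exact congrArg (fun f : Ed (finrank ℂ 𝔤) →ₗ[ℂ] Op (finrank ℂ 𝔤) => f p) hff

end Pool.Agent.Lib.MP_93fb9a_gt
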