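import Pool.Agent.Lib.MP_93fb9a_gt.Exist

set_option autoImplicit false
set_option linter.unusedSectionVars false

open UpperHalfPlane Module
open scoped MatrixGroups

namespace Pool.Agent.Lib.MP_93fb9a_gt

variable {d : ℕ} {ι : Type} [Fintype ι]
variable {𝔤 : Type*} [LieRing 𝔤] [LieAlgebra ℂ 𝔤] [FiniteDimensional ℂ 𝔤]

theorem ring_id3 {R : Type*} [Ring R] (x a p y : R) :
    (x * a * p + x * (-(a * p - p * a))) * y + x * p * (-(a * y)) = 0 := by noncomm_ring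

theorem isAut_frame (ψ : 𝔤 ≃ₗ[ℂ] Ed d) {a : ℂ → Ed d} {Y X : ℂ → Op d}
    (hY0 : Y Complex.I = 1) (hX0 : X Complex.I = 1)
    (hY : ∀ z : ℂ, 0 < z.im → HasDerivAt Y (-(adE ψ (a z) * Y z)) z)
    (hX : ∀ z : ℂ, 0 < z.im → HasDerivAt X (X z * adE ψ (a z)) z)
    (hYX : ∀ z : ℂ, 0 < z.im → Y z * X z = 1) {z : ℂ} (hz : 0 < z.im) : IsAut ψ (Y z) := by
  intro p
  have hd : ∀ z : ℂ, 0 < z.im → HasDerivAt (fun z => X z * adE ψ (Y z p) * Y z) 0 z := by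
    intro z hz
    have h1 : HasDerivAt (fun z => Y z p) ((-(adE ψ (a z) * Y z)) p) z := by
      have := (hY z hz).clm_apply (hasDerivAt_const z p)
      simpa using this
    have h2 : HasDerivAt (fun z => adE ψ (Y z p)) (adE ψ ((-(adE ψ (a z) * Y z)) p)) z :=
      (adE ψ).hasFDerivAt.comp_hasDerivAt z h1
    have h3 := ((hX z hz).mul h2).mul (hY z hz)
    refine h3.congr_deriv ?_
    have h4 : adE ψ ((-(adE ψ (a z) * Y z)) p) =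
        -(adE ψ (a z) * adE ψ (Y z p) - adE ψ (Y z p) * adE ψ (a z)) := by
      rw [← adE_adE, ← map_neg]
      rfl
    rw [h4]
    exact ring_id3 _ _ _ _
  have h5 := const_on_upper hd hz (w := Complex.I) (by simp)
  rw [hY0, hX0, one_mul, mul_one] at h5
  have h6 : (1 : Op d) p = p := rfl
  rw [h6] at h5
  rw [← h5, ← mul_assoc, ← mul_assoc, hYX z hz, one_mul]

/-- the transition function -/
noncomputable def PData.J (P : PData d ι) (γ : SL(2, ℝ)) (z : ℂ) : Op d :=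
  ex P.E ((γ 1 0 : ℂ) * jfac γ z) * Dop P.μ (jfac γ z)⁻¹

noncomputable def PData.J' (P : PData d ι) (γ : SL(2, ℝ)) (z : ℂ) : Op d :=
  Dop P.μ (jfac γ z) * ex P.E (-((γ 1 0 : ℂ) * jfac γ z))

theorem jfac_ne_zero (γ : SL(2, ℝ)) {z : ℂ} (hz : 0 < z.im) : jfac γ z ≠ 0 := by
  intro h
  have h2 : γ 0 0 * γ 1 1 - γ 0 1 * γ 1 0 = 1 := by
    rw [← Matrix.det_fin_two]; exact γ.2
  have h3 := congrArg Complex.im h
  have h4 := congrArg Complex.re h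
  rw [jfac, Complex.add_im, Complex.im_ofReal_mul, Complex.ofReal_im, add_zero,
    Complex.zero_im] at h3
  rw [jfac, Complex.add_re, Complex.re_ofReal_mul, Complex.ofReal_re, Complex.zero_re] at h4
  have h5 : γ 1 0 = 0 := (mul_eq_zero.1 h3).resolve_right hz.ne'
  rw [h5, zero_mul, zero_add] at h4
  rw [h5, h4] at h2
  norm_num at h2

theorem PData.J_J' (P : PData d ι) (γ : SL(2, ℝ)) {z : ℂ} (hz : 0 < z.im) :
    P.J γ z * P.J' γ z = 1 := by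
  rw [PData.J, PData.J', mul_assoc, ← mul_assoc (Dop P.μ (jfac γ z)⁻¹),
    Dop_inv' P.μ (jfac_ne_zero γ hz), one_mul, ex_mul_neg]

theorem PData.J'_J (P : PData d ι) (γ : SL(2, ℝ)) {z : ℂ} (hz : 0 < z.im) :
    P.J' γ z * P.J γ z = 1 := by
  rw [PData.J, PData.J', mul_assoc, ← mul_assoc (ex P.E (-((γ 1 0 : ℂ) * jfac γ z))),
    ex_neg_mul, one_mul, Dop_inv P.μ (jfac_ne_zero γ hz)]

/-- the Moebius action on complex numbers -/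
noncomputable def mob (γ : SL(2, ℝ)) (z : ℂ) : ℂ := ((γ 0 0 : ℂ) * z + (γ 0 1 : ℂ)) / jfac γ z

theorem mob_eq (γ : SL(2, ℝ)) (z : ℍ) : mob γ z = ((γ • z : ℍ) : ℂ) := by
  rw [coe_specialLinearGroup_apply]; rfl

theorem mob_im_pos (γ : SL(2, ℝ)) {z : ℂ} (hz : 0 < z.im) : 0 < (mob γ z).im := by
  have := mob_eq γ ⟨z, hz⟩
  have h2 : mob γ z = ((γ • (⟨z, hz⟩ : ℍ) : ℍ) : ℂ) := this
  rw [h2]
  exact (γ • (⟨z, hz⟩ : ℍ)).im_pos

theorem hasDerivAt_jfac (γ : SL(2, ℝ)) (z : ℂ) : HasDerivAt (jfac γ) (γ 1 0 : ℂ) z := by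
  have := ((hasDerivAt_id z).const_mul (γ 1 0 : ℂ)).add_const (γ 1 1 : ℂ)
  rw [mul_one] at this
  exact this

theorem hasDerivAt_mob (γ : SL(2, ℝ)) {z : ℂ} (hz : 0 < z.im) :
    HasDerivAt (mob γ) (1 / jfac γ z ^ 2) z := by
  have h1 : HasDerivAt (fun z : ℂ => (γ 0 0 : ℂ) * z + (γ 0 1 : ℂ)) (γ 0 0 : ℂ) z := by
    have := ((hasDerivAt_id z).const_mul (γ 0 0 : ℂ)).add_const (γ 0 1 : ℂ)
    rw [mul_one] at this
    exact this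
  refine (h1.div (hasDerivAt_jfac γ z) (jfac_ne_zero γ hz)).congr_deriv ?_
  congr 1
  have h2 : (γ 0 0 : ℂ) * (γ 1 1 : ℂ) - (γ 0 1 : ℂ) * (γ 1 0 : ℂ) = 1 := by
    have : γ 0 0 * γ 1 1 - γ 0 1 * γ 1 0 = 1 := by
      rw [← Matrix.det_fin_two]; exact γ.2
    exact_mod_cast this
  unfold jfac
  linear_combination h2

theorem mob_mul (γ δ : SL(2, ℝ)) {z : ℂ} (hz : 0 < z.im) : mob (γ * δ) z = mob γ (mob δ z) := by
  have h1 := mob_eq (γ * δ) ⟨z, hz⟩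
  have h2 := mob_eq δ ⟨z, hz⟩
  have h3 := mob_eq γ (δ • ⟨z, hz⟩)
  rw [← h2, ← mul_smul, ← h1] at h3
  exact h3.symm

theorem jfac_mul (γ δ : SL(2, ℝ)) {z : ℂ} (hz : 0 < z.im) :
    jfac (γ * δ) z = jfac γ (mob δ z) * jfac δ z := by
  have h0 := jfac_ne_zero δ hz
  have e10 : (γ * δ) 1 0 = γ 1 0 * δ 0 0 + γ 1 1 * δ 1 0 := by
    rw [Matrix.SpecialLinearGroup.coe_mul, Matrix.mul_apply, Fin.sum_univ_two]
  have e11 : (γ * δ) 1 1 = γ 1 0 * δ 0 1 + γ 1 1 * δ 1 1 := by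
    rw [Matrix.SpecialLinearGroup.coe_mul, Matrix.mul_apply, Fin.sum_univ_two]
  have h1 : mob δ z * jfac δ z = (δ 0 0 : ℂ) * z + (δ 0 1 : ℂ) := by
    rw [mob, div_mul_cancel₀ _ h0]
  have h2 : jfac γ (mob δ z) * jfac δ z = (γ 1 0 : ℂ) * (mob δ z * jfac δ z) +
      (γ 1 1 : ℂ) * jfac δ z := by
    rw [jfac]; ring
  rw [h2, h1, jfac, e10, e11, jfac]
  push_cast
  ring

theorem c_mul (γ δ : SL(2, ℝ)) {z : ℂ} (hz : 0 < z.im) :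
    (((γ * δ) 1 0 : ℝ) : ℂ) * jfac (γ * δ) z =
      (γ 1 0 : ℂ) * jfac γ (mob δ z) + jfac γ (mob δ z) ^ 2 * ((δ 1 0 : ℂ) * jfac δ z) := by
  have h0 := jfac_ne_zero δ hz
  have hj := jfac_mul γ δ hz
  have e10 : (γ * δ) 1 0 = γ 1 0 * δ 0 0 + γ 1 1 * δ 1 0 := by
    rw [Matrix.SpecialLinearGroup.coe_mul, Matrix.mul_apply, Fin.sum_univ_two]
  have e11 : (γ * δ) 1 1 = γ 1 0 * δ 0 1 + γ 1 1 * δ 1 1 := by
    rw [Matrix.SpecialLinearGroup.coe_mul, Matrix.mul_apply, Fin.sum_univ_two]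
  have hdet : (δ 0 0 : ℂ) * (δ 1 1 : ℂ) - (δ 0 1 : ℂ) * (δ 1 0 : ℂ) = 1 := by
    have : δ 0 0 * δ 1 1 - δ 0 1 * δ 1 0 = 1 := by
      rw [← Matrix.det_fin_two]; exact δ.2
    exact_mod_cast this
  -- `c_{γδ} j_δ = c_γ + j_{γδ} c_δ`
  have h3 : (((γ * δ) 1 0 : ℝ) : ℂ) * jfac δ z = (γ 1 0 : ℂ) + jfac (γ * δ) z * (δ 1 0 : ℂ) := by
    rw [jfac, jfac, e10, e11]
    push_cast
    linear_combination (γ 1 0 : ℂ) * hdet
  rw [hj] at h3 ⊢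
  linear_combination (jfac γ (mob δ z)) * h3

theorem PData.J_mul (P : PData d ι) (γ δ : SL(2, ℝ)) {z : ℂ} (hz : 0 < z.im) :
    P.J (γ * δ) z = P.J γ (mob δ z) * P.J δ z := by
  have h1 := jfac_ne_zero δ hz
  have h2 := jfac_ne_zero γ (mob_im_pos δ hz)
  have h3 := P.hE.Dop_ex (inv_ne_zero h2) ((δ 1 0 : ℂ) * jfac δ z)
  have e1 : (jfac γ (mob δ z))⁻¹ ^ (-2 : ℤ) = jfac γ (mob δ z) ^ 2 := by
    rw [inv_zpow', neg_neg]; norm_cast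
  rw [e1] at h3
  rw [PData.J, PData.J, PData.J, c_mul γ δ hz, jfac_mul γ δ hz, ex_add, mul_inv, ← Dop_mul]
  calc ex P.E ((γ 1 0 : ℂ) * jfac γ (mob δ z)) *
        ex P.E (jfac γ (mob δ z) ^ 2 * ((δ 1 0 : ℂ) * jfac δ z)) *
        (Dop P.μ (jfac γ (mob δ z))⁻¹ * Dop P.μ (jfac δ z)⁻¹)
      = ex P.E ((γ 1 0 : ℂ) * jfac γ (mob δ z)) *
        (ex P.E (jfac γ (mob δ z) ^ 2 * ((δ 1 0 : ℂ) * jfac δ z)) *
        Dop P.μ (jfac γ (mob δ z))⁻¹) * Dop P.μ (jfac δ z)⁻¹ := by simp only [mul_assoc]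
    _ = _ := by rw [← h3]; simp only [mul_assoc]

end Pool.Agent.Lib.MP_93fb9a_gt
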