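import Pool.Agent.Lib.MP_93fb9a_gt.Exist2

set_option autoImplicit false
set_option linter.unusedSectionVars false

open UpperHalfPlane Module
open scoped MatrixGroups

namespace Pool.Agent.Lib.MP_93fb9a_gt

variable {d : ℕ} {ι : Type} [Fintype ι]
variable {𝔤 : Type*} [LieRing 𝔤] [LieAlgebra ℂ 𝔤] [FiniteDimensional ℂ 𝔤]

/-- the transformed frame is flat -/
theorem PData.transformed_flat (P : PData d ι) {α : ι → ℂ → ℂ} {y : ℂ → Ed d}
    (hy : P.IsFlat α y) (γ : SL(2, ℝ))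
    (hα : ∀ i, ∀ z : ℂ, 0 < z.im → α i (mob γ z) = jfac γ z ^ (2 * (P.m i + 1)) * α i z) :
    P.IsFlat α (fun z => P.J' γ z (y (mob γ z))) := by
  intro z hz
  have hj0 := jfac_ne_zero γ hz
  have hj := hasDerivAt_jfac γ z
  have hp : HasDerivAt (fun z => (γ 1 0 : ℂ) * jfac γ z) ((γ 1 0 : ℂ) * (γ 1 0 : ℂ)) z :=
    hj.const_mul _
  have h1 : HasDerivAt (fun z => y (mob γ z))
      (-((1 / jfac γ z ^ 2) • P.conn (fun i => α i (mob γ z)) (y (mob γ z)))) z := by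
    have := HasDerivAt.scomp (h := mob γ) z (hy (mob γ z) (mob_im_pos γ hz)) (hasDerivAt_mob γ hz)
    rw [smul_neg] at this
    exact this
  have h2 := P.gauge_deriv hj hj0 hp h1
  refine h2.congr_deriv ?_
  have h3 : P.Z (jfac γ z) (γ 1 0 : ℂ) ((γ 1 0 : ℂ) * jfac γ z) ((γ 1 0 : ℂ) * (γ 1 0 : ℂ))
      (1 / jfac γ z ^ 2) (fun i => α i (mob γ z)) = -P.conn (fun i => α i z) := by
    rw [PData.Z, PData.conn]
    have e1 : -((γ 1 0 : ℂ) / jfac γ z) + 1 / jfac γ z ^ 2 * ((γ 1 0 : ℂ) * jfac γ z) = 0 := by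
      field_simp
      ring
    have e2 : (-((γ 1 0 : ℂ) * (γ 1 0 : ℂ)) +
        1 / jfac γ z ^ 2 * ((γ 1 0 : ℂ) * jfac γ z) ^ 2) * jfac γ z ^ (-2 : ℤ) = 0 := by
      field_simp
      ring
    have e3 : 1 / jfac γ z ^ 2 * jfac γ z ^ 2 = 1 := by field_simp
    rw [e1, e2, e3]
    have e4 : (1 / jfac γ z ^ 2) •
        ∑ i, (α i (mob γ z) * jfac γ z ^ (-(2 * P.m i : ℤ))) • P.V i = ∑ i, α i z • P.V i := by
      rw [Finset.smul_sum]
      apply Finset.sum_congr rfl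
      intro i _
      rw [smul_smul, hα i z hz]
      congr 1
      have e5 : jfac γ z ^ (2 * (P.m i + 1)) = jfac γ z ^ (2 * P.m i : ℤ) * jfac γ z ^ 2 := by
        rw [← zpow_natCast, ← zpow_natCast, ← zpow_add₀ hj0]
        congr 1
      have e6 : jfac γ z ^ (-(2 * P.m i : ℤ)) * jfac γ z ^ (2 * P.m i : ℤ) = 1 := by
        rw [← zpow_add₀ hj0, neg_add_cancel, zpow_zero]
      rw [e5]
      have e7 : jfac γ z ^ 2 ≠ 0 := pow_ne_zero 2 hj0
      calc 1 / jfac γ z ^ 2 * (jfac γ z ^ (2 * P.m i : ℤ) * jfac γ z ^ 2 * α i z *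
            jfac γ z ^ (-(2 * P.m i : ℤ)))
          = (1 / jfac γ z ^ 2 * jfac γ z ^ 2) *
            (jfac γ z ^ (-(2 * P.m i : ℤ)) * jfac γ z ^ (2 * P.m i : ℤ)) * α i z := by ring
        _ = α i z := by rw [e3, e6]; ring
    rw [e4]
    have e8 : (0 : ℂ) • Hop P.μ = 0 := ContinuousLinearMap.ext fun v =>
      (zero_smul ℂ (Hop P.μ v) : (0 : ℂ) • Hop P.μ v = 0)
    have e9 : (0 : ℂ) • P.E = 0 := ContinuousLinearMap.ext fun v =>
      (zero_smul ℂ (P.E v) : (0 : ℂ) • P.E v = 0)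
    have e10 : (1 : ℂ) • P.F = P.F := ContinuousLinearMap.ext fun v =>
      (one_smul ℂ (P.F v) : (1 : ℂ) • P.F v = P.F v)
    rw [e8, e9, e10]
    abel
  rw [h3]
  rfl

/-- the holonomy on the model space -/
theorem PData.exists_holonomy (P : PData d ι) {α : ι → ℂ → ℂ} {Y X : ℂ → Op d}
    (hX0 : X Complex.I = 1)
    (hY : ∀ z : ℂ, 0 < z.im → HasDerivAt Y (-(P.conn (fun i => α i z) * Y z)) z)
    (hX : ∀ z : ℂ, 0 < z.im → HasDerivAt X (X z * P.conn (fun i => α i z)) z)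
    (hYX : ∀ z : ℂ, 0 < z.im → Y z * X z = 1) (γ : SL(2, ℝ))
    (hα : ∀ i, ∀ z : ℂ, 0 < z.im → α i (mob γ z) = jfac γ z ^ (2 * (P.m i + 1)) * α i z)
    {z : ℂ} (hz : 0 < z.im) :
    Y (mob γ z) * (X (mob γ Complex.I) * P.J γ Complex.I) = P.J γ z * Y z := by
  have hI : 0 < Complex.I.im := by simp
  have hconst : X z * (P.J' γ z * Y (mob γ z)) =
      X Complex.I * (P.J' γ Complex.I * Y (mob γ Complex.I)) := by
    ext1 v
    have hflat : P.IsFlat α (fun z => Y z v) := by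
      intro z hz
      have := (hY z hz).clm_apply (hasDerivAt_const z v)
      simpa using this
    have htf := P.transformed_flat hflat γ hα
    have hd : ∀ z : ℂ, 0 < z.im →
        HasDerivAt (fun z => X z (P.J' γ z (Y (mob γ z) v))) 0 z := by
      intro z hz
      refine ((hX z hz).clm_apply (htf z hz)).congr_deriv ?_
      have e : (X z * P.conn (fun i => α i z)) (P.J' γ z (Y (mob γ z) v)) =
        X z (P.conn (fun i => α i z) (P.J' γ z (Y (mob γ z) v))) := rfl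
      rw [e, map_neg, add_neg_cancel]
    exact const_on_upper hd hz hI
  set C := X Complex.I * (P.J' γ Complex.I * Y (mob γ Complex.I)) with hC
  have hCR : C * (X (mob γ Complex.I) * P.J γ Complex.I) = 1 := by
    rw [hC, hX0, one_mul]
    calc P.J' γ Complex.I * Y (mob γ Complex.I) * (X (mob γ Complex.I) * P.J γ Complex.I)
        = P.J' γ Complex.I * (Y (mob γ Complex.I) * X (mob γ Complex.I)) * P.J γ Complex.I := by
          simp only [mul_assoc]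
      _ = 1 := by rw [hYX _ (mob_im_pos γ hI), mul_one, P.J'_J γ hI]
  have h1 : Y (mob γ z) = P.J γ z * Y z * C := by
    rw [← hconst]
    calc Y (mob γ z) = (P.J γ z * P.J' γ z) * Y (mob γ z) := by rw [P.J_J' γ hz, one_mul]
      _ = P.J γ z * (Y z * X z) * P.J' γ z * Y (mob γ z) := by rw [hYX z hz, mul_one]
      _ = P.J γ z * Y z * (X z * (P.J' γ z * Y (mob γ z))) := by simp only [mul_assoc]
  rw [h1, mul_assoc, hCR, mul_one]

/-- transport of an operator of the model space to `𝔤` -/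
noncomputable def unop (ψ : 𝔤 ≃ₗ[ℂ] Ed d) (T : Op d) : 𝔤 →ₗ[ℂ] 𝔤 :=
  ψ.symm.toLinearMap ∘ₗ (T : Ed d →ₗ[ℂ] Ed d) ∘ₗ ψ.toLinearMap

theorem unop_apply (ψ : 𝔤 ≃ₗ[ℂ] Ed d) (T : Op d) (x : 𝔤) : unop ψ T x = ψ.symm (T (ψ x)) := rfl

theorem unop_mul (ψ : 𝔤 ≃ₗ[ℂ] Ed d) (S T : Op d) : unop ψ (S * T) = unop ψ S * unop ψ T := by
  ext x
  change ψ.symm (S (T (ψ x))) = ψ.symm (S (ψ (ψ.symm (T (ψ x)))))
  rw [ψ.apply_symm_apply]

theorem unop_one (ψ : 𝔤 ≃ₗ[ℂ] Ed d) : unop ψ 1 = 1 := by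
  ext x
  change ψ.symm (ψ x) = x
  rw [ψ.symm_apply_apply]

theorem unop_lie {ψ : 𝔤 ≃ₗ[ℂ] Ed d} {T : Op d} (hT : IsAut ψ T) (x y : 𝔤) :
    unop ψ T ⁅x, y⁆ = ⁅unop ψ T x, unop ψ T y⁆ := by
  have h1 := congrArg (fun Z : Op d => Z (ψ y)) (hT (ψ x))
  have h2 : T (adE ψ (ψ x) (ψ y)) = adE ψ (T (ψ x)) (T (ψ y)) := h1
  rw [adE_apply, adOp_apply] at h2
  have h3 : T (ψ x) = ψ (unop ψ T x) := by rw [unop_apply, ψ.apply_symm_apply]
  have h4 : T (ψ y) = ψ (unop ψ T y) := by rw [unop_apply, ψ.apply_symm_apply]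
  rw [h3, h4, adE_apply, adOp_apply] at h2
  rw [unop_apply, h2, ψ.symm_apply_apply]

/-- an automorphism of `𝔤` -/
noncomputable def toAut {ψ : 𝔤 ≃ₗ[ℂ] Ed d} {S T : Op d} (hS : IsAut ψ S) (h1 : S * T = 1)
    (h2 : T * S = 1) : 𝔤 ≃ₗ⁅ℂ⁆ 𝔤 where
  toFun := unop ψ S
  map_add' := map_add _
  map_smul' := map_smul _
  map_lie' := unop_lie hS _ _
  invFun := unop ψ T
  left_inv x := by
    have := congrArg (fun Z : 𝔤 →ₗ[ℂ] 𝔤 => Z x) (unop_mul ψ T S)
    rw [h2, unop_one] at this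
    exact this.symm
  right_inv x := by
    have := congrArg (fun Z : 𝔤 →ₗ[ℂ] 𝔤 => Z x) (unop_mul ψ S T)
    rw [h1, unop_one] at this
    exact this.symm

end Pool.Agent.Lib.MP_93fb9a_gt
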