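import Pool.Agent.Lib.MP_93fb9a_gt.Exist3

set_option autoImplicit false
set_option linter.unusedSectionVars false

open UpperHalfPlane Module
open scoped MatrixGroups

namespace Pool.Agent.Lib.MP_93fb9a_gt

variable {d : ℕ} {ι : Type} [Fintype ι]
variable {𝔤 : Type*} [LieRing 𝔤] [LieAlgebra ℂ 𝔤] [FiniteDimensional ℂ 𝔤]

theorem unop_cj (ψ : 𝔤 ≃ₗ[ℂ] Ed d) (T : 𝔤 →ₗ[ℂ] 𝔤) : unop ψ (cj ψ T) = T := by
  ext x
  rw [unop_apply, cj_apply, ψ.symm_apply_apply]

theorem torus_of_Dop (b : Basis (Fin (finrank ℂ 𝔤)) ℂ 𝔤) {μ : Fin (finrank ℂ 𝔤) → ℤ} {h : 𝔤}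
    (hμ : ∀ i, ⁅h, b i⁆ = (μ i : ℂ) • b i) (t : ℂ) :
    IsTorusElement h t (unop (coords b) (Dop μ t⁻¹)) := by
  intro k x hx
  rw [unop_apply]
  have h1 : Hop μ (coords b x) = (k : ℂ) • coords b x := by
    rw [← adOp_h b hμ, adOp_apply, hx, map_smul]
  have h2 : Dop μ t⁻¹ (coords b x) = t ^ k • coords b x := by
    ext i
    have e1 : (Hop μ (coords b x)) i = (μ i : ℂ) * coords b x i := rfl
    have e2 : ((k : ℂ) • coords b x) i = (k : ℂ) * coords b x i := rfl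
    have e3 : (t ^ k • coords b x) i = t ^ k * coords b x i := rfl
    rw [h1, e2] at e1
    rw [Dop_apply, e3]
    by_cases h0 : coords b x i = 0
    · rw [h0, mul_zero, mul_zero]
    · have h5 : (k : ℂ) = (μ i : ℂ) := mul_right_cancel₀ h0 e1
      have h6 : k = μ i := by exact_mod_cast h5
      rw [← h6, inv_zpow', neg_neg]
  rw [h2, map_smul, (coords b).symm_apply_apply]

open LieAlgebra in
theorem exists_operHolonomy [IsSimple ℂ 𝔤] (D : KostantSlice 𝔤) (Γ : Subgroup SL(2, ℝ))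
    (α : Fin (LieAlgebra.rank ℂ 𝔤) → ℂ → ℂ) (hα : ∀ i, IsDifferential Γ (D.m i + 1) (α i)) :
    ∃ ρ : Γ →* (𝔤 ≃ₗ[ℂ] 𝔤), IsOperHolonomy D Γ α ρ := by
  obtain ⟨b, μ, hμ⟩ := exists_eigenbasis D.triple D.finrank_ker
  set P := D.pdata b μ hμ with hP
  set ψ := coords b with hψ
  have hI : 0 < Complex.I.im := by simp
  have hnil : IsNilpotent (LieAlgebra.ad ℂ 𝔤 D.e : 𝔤 →ₗ[ℂ] 𝔤) :=
    ad_e_nilpotent b hμ (by rw [D.triple.lie_h_e_nsmul, ← Nat.cast_smul_eq_nsmul ℂ]; norm_num)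
  have hPE : P.E = adE ψ (ψ D.e) := (adE_apply ψ D.e).symm
  have hA : DifferentiableOn ℂ (fun z => P.conn (fun i => α i z)) {z | 0 < z.im} := by
    unfold PData.conn
    apply DifferentiableOn.const_add
    apply DifferentiableOn.fun_sum
    intro i _
    exact (hα i).holomorphic.smul_const _
  obtain ⟨Y, X, hY0, hX0, hY, hX, hXY, hYX⟩ := exists_frames hA
  have hconn : ∀ z, P.conn (fun i => α i z) = adE ψ (ψ (D.oper α z)) := by
    intro z
    rw [adE_apply]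
    exact conn_eq D b μ hμ α z
  have hYaut : ∀ z : ℂ, 0 < z.im → IsAut ψ (Y z) := fun z hz =>
    isAut_frame ψ (a := fun z => ψ (D.oper α z)) hY0 hX0
      (fun z hz => by rw [← hconn]; exact hY z hz) (fun z hz => by rw [← hconn]; exact hX z hz)
      hYX hz
  have hXaut : ∀ z : ℂ, 0 < z.im → IsAut ψ (X z) := fun z hz =>
    (hYaut z hz).inv (hXY z hz) (hYX z hz)
  have hJaut : ∀ (γ : SL(2, ℝ)) (z : ℂ), 0 < z.im → IsAut ψ (P.J γ z) := by
    intro γ z hz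
    rw [PData.J, hPE]
    exact (IsAut.ex ψ _ _).mul (IsAut.dop b hμ (inv_ne_zero (jfac_ne_zero γ hz)))
  have haut : ∀ γ ∈ Γ, ∀ i, ∀ z : ℂ, 0 < z.im →
      α i (mob γ z) = jfac γ z ^ (2 * (P.m i + 1)) * α i z := by
    intro γ hγ i z hz
    have := (hα i).automorphic γ hγ ⟨z, hz⟩
    rw [← mob_eq] at this
    exact this
  have hhol : ∀ γ ∈ Γ, ∀ z : ℂ, 0 < z.im →
      Y (mob γ z) * (X (mob γ Complex.I) * P.J γ Complex.I) = P.J γ z * Y z :=
    fun γ hγ z hz => P.exists_holonomy hX0 hY hX hYX γ (haut γ hγ) hz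
  set R : SL(2, ℝ) → Op (finrank ℂ 𝔤) := fun γ => X (mob γ Complex.I) * P.J γ Complex.I with hR
  have hRmul : ∀ γ ∈ Γ, ∀ δ ∈ Γ, R (γ * δ) = R γ * R δ := by
    intro γ hγ δ hδ
    have hδI := mob_im_pos δ hI
    have h1 := hhol γ hγ (mob δ Complex.I) hδI
    have h2 : R γ = X (mob γ (mob δ Complex.I)) * P.J γ (mob δ Complex.I) * Y (mob δ Complex.I) := by
      rw [mul_assoc, ← h1, ← mul_assoc, hXY _ (mob_im_pos γ hδI), one_mul]
    rw [h2]
    simp only [hR]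
    rw [mob_mul γ δ hI, P.J_mul γ δ hI]
    calc X (mob γ (mob δ Complex.I)) * (P.J γ (mob δ Complex.I) * P.J δ Complex.I)
        = X (mob γ (mob δ Complex.I)) * P.J γ (mob δ Complex.I) * 1 * P.J δ Complex.I := by
          rw [mul_one, mul_assoc]
      _ = X (mob γ (mob δ Complex.I)) * P.J γ (mob δ Complex.I) *
          (Y (mob δ Complex.I) * X (mob δ Complex.I)) * P.J δ Complex.I := by rw [hYX _ hδI]
      _ = _ := by simp only [mul_assoc]
  have hjone : ∀ z, jfac (1 : SL(2, ℝ)) z = 1 := by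
    intro z
    simp [jfac]
  have hmone : ∀ z, mob (1 : SL(2, ℝ)) z = z := by
    intro z
    simp [mob, hjone]
  have hRone : R 1 = 1 := by
    simp only [hR]
    rw [hmone, hX0, one_mul, PData.J, hjone, inv_one, Dop_one, mul_one]
    have : (((1 : SL(2, ℝ)) 1 0 : ℝ) : ℂ) * 1 = 0 := by simp
    rw [this, ex_zero]
  have hRaut : ∀ γ : SL(2, ℝ), IsAut ψ (R γ) := fun γ =>
    (hXaut _ (mob_im_pos γ hI)).mul (hJaut γ _ hI)
  set ρ0 : Γ →* Module.End ℂ 𝔤 :=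
    { toFun := fun γ => unop ψ (R γ)
      map_one' := by
        change unop ψ (R 1) = 1
        rw [hRone, unop_one]
      map_mul' := by
        intro γ δ
        change unop ψ (R ((γ : SL(2, ℝ)) * (δ : SL(2, ℝ)))) = unop ψ (R γ) * unop ψ (R δ)
        rw [hRmul γ γ.2 δ δ.2, unop_mul] } with hρ0
  set ρ : Γ →* (𝔤 ≃ₗ[ℂ] 𝔤) :=
    (LinearMap.GeneralLinearGroup.generalLinearEquiv ℂ 𝔤).toMonoidHom.comp ρ0.toHomUnits with hρ
  have hρapp : ∀ (γ : Γ) (x : 𝔤), ρ γ x = unop ψ (R γ) x := fun γ x => rfl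
  refine ⟨ρ, ?_, ?_⟩
  · intro γ x y
    rw [hρapp, hρapp, hρapp]
    exact unop_lie (hRaut γ) x y
  · classical
    set Yf : ℂ → (𝔤 ≃ₗ⁅ℂ⁆ 𝔤) := fun z =>
      if h : 0 < z.im then toAut (hYaut z h) (hYX z h) (hXY z h) else LieEquiv.refl with hYf
    have hYfapp : ∀ (z : ℂ), 0 < z.im → ∀ x : 𝔤, Yf z x = unop ψ (Y z) x := by
      intro z hz x
      simp only [hYf, dif_pos hz]
      rfl
    refine ⟨Yf, ?_, ?_⟩
    · intro z hz x φ
      set L : Ed (finrank ℂ 𝔤) →L[ℂ] ℂ :=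
        LinearMap.toContinuousLinearMap (φ ∘ₗ ψ.symm.toLinearMap) with hL
      have h1 : HasDerivAt (fun w => Y w (ψ x)) ((-(P.conn (fun i => α i z) * Y z)) (ψ x)) z := by
        have := (hY z hz).clm_apply (hasDerivAt_const z (ψ x))
        simpa using this
      have h2 := L.hasFDerivAt.comp_hasDerivAt z h1
      have h3 : (fun w => φ (Yf w x)) =ᶠ[nhds z] (L ∘ fun w => Y w (ψ x)) := by
        have ho : IsOpen {z : ℂ | 0 < z.im} := isOpen_lt continuous_const Complex.continuous_im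
        filter_upwards [ho.mem_nhds hz] with w hw
        rw [hYfapp w hw]
        rfl
      refine (h2.congr_of_eventuallyEq h3).congr_deriv ?_
      have h4 : (-(P.conn (fun i => α i z) * Y z)) (ψ x) =
        -(P.conn (fun i => α i z) (Y z (ψ x))) := rfl
      have h5 : Y z (ψ x) = ψ (Yf z x) := by
        rw [hYfapp z hz, unop_apply, ψ.apply_symm_apply]
      rw [h4, h5, conn_eq D b μ hμ α z, ← hψ, adOp_apply, map_neg]
      congr 1
      change φ (ψ.symm (ψ ⁅D.oper α z, Yf z x⁆)) = _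
      rw [ψ.symm_apply_apply]
    · intro γ z
      refine ⟨unop ψ (Dop μ (jfac γ z)⁻¹), torus_of_Dop b hμ _, ?_⟩
      intro x
      have hz := z.im_pos
      have hz' : 0 < (z : ℂ).im := hz
      rw [← mob_eq, hYfapp _ (mob_im_pos _ hz'), hρapp, hYfapp _ hz']
      have e1 : expAd D.e (((γ : SL(2, ℝ)) 1 0 : ℂ) * jfac γ z) =
          unop ψ (ex P.E (((γ : SL(2, ℝ)) 1 0 : ℂ) * jfac γ z)) := by
        have := cj_expAd ψ hnil (((γ : SL(2, ℝ)) 1 0 : ℂ) * jfac γ z)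
        have h2 : P.E = adOp ψ D.e := rfl
        rw [h2, ← this, unop_cj]
      rw [e1]
      have e2 := congrArg (unop ψ) (hhol γ γ.2 z hz')
      have e3 : unop ψ (P.J γ z * Y z) = unop ψ (ex P.E (((γ : SL(2, ℝ)) 1 0 : ℂ) * jfac γ z)) *
          (unop ψ (Dop μ (jfac γ z)⁻¹) * unop ψ (Y z)) := by
        rw [← unop_mul, ← unop_mul, PData.J, mul_assoc]
        rfl
      rw [unop_mul, e3] at e2
      exact congrArg (fun Z : 𝔤 →ₗ[ℂ] 𝔤 => Z x) e2

end Pool.Agent.Lib.MP_93fb9a_gt
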