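import Mathlib

set_option autoImplicit false

open Module InnerProductSpace

namespace Pool.Agent.Lib.MP_93fb9a_gt

variable {E : Type*} [NormedAddCommGroup E] [InnerProductSpace ℂ E] [FiniteDimensional ℂ E]

theorem norm_sq_apply (T : E →ₗ[ℂ] E) (x : E) :
    ‖T x‖ ^ 2 = ∑ i : Fin (finrank ℂ E), (T.singularValues i) ^ 2 *
      ‖(T.isSymmetric_adjoint_comp_self.eigenvectorBasis rfl).repr x i‖ ^ 2 := by
  set hs := T.isSymmetric_adjoint_comp_self with hhs
  set v := hs.eigenvectorBasis rfl with hv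
  have h1 : (‖T x‖ ^ 2 : ℂ) = inner ℂ x ((T.adjoint ∘ₗ T) x) := by
    rw [LinearMap.comp_apply, LinearMap.adjoint_inner_right]
    exact (inner_self_eq_norm_sq_to_K (𝕜 := ℂ) (T x)).symm
  have h2 : inner ℂ x ((T.adjoint ∘ₗ T) x) =
      ∑ i, inner ℂ (v.repr x i) (v.repr ((T.adjoint ∘ₗ T) x) i) := by
    rw [← v.repr.inner_map_map, PiLp.inner_apply]
  have h3 : ∀ i, v.repr ((T.adjoint ∘ₗ T) x) i = ((hs.eigenvalues rfl i : ℝ) : ℂ) * v.repr x i :=
    fun i => hs.eigenvectorBasis_apply_self_apply rfl x i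
  rw [h2] at h1
  simp_rw [h3] at h1
  have h4 : ∀ i, inner ℂ (v.repr x i) (((hs.eigenvalues rfl i : ℝ) : ℂ) * v.repr x i) =
      (((T.singularValues i) ^ 2 * ‖v.repr x i‖ ^ 2 : ℝ) : ℂ) := by
    intro i
    rw [T.sq_singularValues_fin rfl i]
    have : ((hs.eigenvalues rfl i : ℝ) : ℂ) * v.repr x i =
      ((hs.eigenvalues rfl i : ℝ) : ℂ) • v.repr x i := rfl
    rw [this, inner_smul_right, inner_self_eq_norm_sq_to_K]
    push_cast
    rfl
  simp_rw [h4] at h1
  exact_mod_cast h1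

theorem norm_sq_repr (T : E →ₗ[ℂ] E) (x : E) :
    ‖x‖ ^ 2 = ∑ i : Fin (finrank ℂ E),
      ‖(T.isSymmetric_adjoint_comp_self.eigenvectorBasis rfl).repr x i‖ ^ 2 := by
  rw [← EuclideanSpace.norm_sq_eq, LinearIsometryEquiv.norm_map]

theorem exists_mem_inf {n : ℕ} (hn : finrank ℂ E = n) (v : OrthonormalBasis (Fin n) ℂ E)
    (s : Finset (Fin n)) (W : Submodule ℂ E) (h : n < s.card + finrank ℂ W) :
    ∃ x ∈ W, x ≠ 0 ∧ ∀ i ∉ s, v.repr x i = 0 := by
  set S : Submodule ℂ E := Submodule.span ℂ (v.toBasis '' (s : Set (Fin n))) with hS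
  have hSd : finrank ℂ S = s.card := by
    have hli : LinearIndependent ℂ (fun i : (s : Set (Fin n)) => v.toBasis i) :=
      v.toBasis.linearIndependent.comp _ Subtype.val_injective
    rw [hS, Set.image_eq_range, finrank_span_eq_card hli]
    simp
  have hne : S ⊓ W ≠ ⊥ := by
    intro hbot
    have h1 := Submodule.finrank_sup_add_finrank_inf_eq S W
    rw [hbot, finrank_bot, add_zero] at h1
    have h2 : finrank ℂ (S ⊔ W : Submodule ℂ E) ≤ n := by
      rw [← hn]; exact Submodule.finrank_le _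
    omega
  obtain ⟨x, hx, hx0⟩ := Submodule.exists_mem_ne_zero_of_ne_bot hne
  refine ⟨x, (Submodule.mem_inf.1 hx).2, hx0, ?_⟩
  intro i hi
  have h1 := (Submodule.mem_inf.1 hx).1
  rw [hS, Basis.mem_span_image] at h1
  have h2 : i ∉ (v.toBasis.repr x).support := fun h3 => hi (h1 h3)
  rw [Finsupp.notMem_support_iff] at h2
  rw [← h2]
  rfl

/-- Lower bound of a singular value by expansion on a subspace. -/
theorem le_singularValue (T : E →ₗ[ℂ] E) {N : ℕ} (hN : 1 ≤ N) {c : ℝ} (hc : 0 ≤ c)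
    (W : Submodule ℂ E) (hW : N ≤ finrank ℂ W) (h : ∀ x ∈ W, c * ‖x‖ ≤ ‖T x‖) :
    c ≤ T.singularValues (N - 1) := by
  set n := finrank ℂ E with hn
  have hWn : finrank ℂ W ≤ n := Submodule.finrank_le _
  set v := T.isSymmetric_adjoint_comp_self.eigenvectorBasis rfl with hv
  set s : Finset (Fin n) := Finset.univ.filter (fun i => N - 1 ≤ (i : ℕ)) with hs
  have hsc : s.card = n - (N - 1) := by
    have : s = (Finset.univ : Finset (Fin n)).filter (fun i : Fin n => ¬ ((i : ℕ) < N - 1)) := by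
      rw [hs]; congr; ext i; simp
    rw [this, Finset.filter_not, Finset.card_sdiff_of_subset (Finset.filter_subset _ _)]
    have h2 : (Finset.univ.filter (fun i : Fin n => (i : ℕ) < N - 1)).card = N - 1 := by
      rw [Fin.card_filter_val_lt]
      omega
    rw [h2]
    simp
  obtain ⟨x, hxW, hx0, hxz⟩ := exists_mem_inf (n := n) rfl v s W (by omega)
  have h1 : ‖T x‖ ^ 2 ≤ (T.singularValues (N - 1)) ^ 2 * ‖x‖ ^ 2 := by
    rw [norm_sq_apply T x, norm_sq_repr T x, Finset.mul_sum]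
    apply Finset.sum_le_sum
    intro i _
    by_cases hi : i ∈ s
    · have h2 : T.singularValues i ≤ T.singularValues (N - 1) :=
        T.singularValues_antitone (Finset.mem_filter.1 hi).2
      have h3 := T.singularValues_nonneg i
      apply mul_le_mul_of_nonneg_right _ (sq_nonneg _)
      exact pow_le_pow_left₀ h3 h2 2
    · have h4 := hxz i hi
      rw [hv] at h4
      rw [h4]
      simp
  have h5 := h x hxW
  have hxpos : 0 < ‖x‖ := norm_pos_iff.2 hx0
  have h6 : (c * ‖x‖) ^ 2 ≤ (T.singularValues (N - 1) * ‖x‖) ^ 2 := by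
    calc (c * ‖x‖) ^ 2 ≤ ‖T x‖ ^ 2 := pow_le_pow_left₀ (by positivity) h5 2
      _ ≤ (T.singularValues (N - 1)) ^ 2 * ‖x‖ ^ 2 := h1
      _ = _ := by ring
  have h7 : c * ‖x‖ ≤ T.singularValues (N - 1) * ‖x‖ :=
    (pow_le_pow_iff_left₀ (by positivity)
      (mul_nonneg (T.singularValues_nonneg _) (norm_nonneg _)) two_ne_zero).1 h6
  exact le_of_mul_le_mul_right h7 hxpos

/-- Upper bound of a singular value by contraction on a subspace. -/
theorem singularValue_le (T : E →ₗ[ℂ] E) {N : ℕ} {c : ℝ} (hc : 0 ≤ c)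
    (W : Submodule ℂ E) (hW : finrank ℂ E ≤ N + finrank ℂ W) (h : ∀ x ∈ W, ‖T x‖ ≤ c * ‖x‖) :
    T.singularValues N ≤ c := by
  set n := finrank ℂ E with hn
  by_cases hNn : n ≤ N
  · rw [T.singularValues_of_finrank_le hNn]; exact hc
  push Not at hNn
  set v := T.isSymmetric_adjoint_comp_self.eigenvectorBasis rfl with hv
  set s : Finset (Fin n) := Finset.univ.filter (fun i => (i : ℕ) < N + 1) with hs
  have hsc : s.card = N + 1 := by
    rw [hs, Fin.card_filter_val_lt]
    omega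
  obtain ⟨x, hxW, hx0, hxz⟩ := exists_mem_inf (n := n) rfl v s W (by omega)
  have h1 : (T.singularValues N) ^ 2 * ‖x‖ ^ 2 ≤ ‖T x‖ ^ 2 := by
    rw [norm_sq_apply T x, norm_sq_repr T x, Finset.mul_sum]
    apply Finset.sum_le_sum
    intro i _
    by_cases hi : i ∈ s
    · have h2 : T.singularValues N ≤ T.singularValues i :=
        T.singularValues_antitone (Nat.lt_succ_iff.1 (Finset.mem_filter.1 hi).2)
      have h3 := T.singularValues_nonneg N
      apply mul_le_mul_of_nonneg_right _ (sq_nonneg _)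
      exact pow_le_pow_left₀ h3 h2 2
    · have h4 := hxz i hi
      rw [hv] at h4
      rw [h4]
      simp
  have h5 := h x hxW
  have hxpos : 0 < ‖x‖ := norm_pos_iff.2 hx0
  have h6 : (T.singularValues N * ‖x‖) ^ 2 ≤ (c * ‖x‖) ^ 2 := by
    calc (T.singularValues N * ‖x‖) ^ 2 = (T.singularValues N) ^ 2 * ‖x‖ ^ 2 := by ring
      _ ≤ ‖T x‖ ^ 2 := h1
      _ ≤ (c * ‖x‖) ^ 2 := pow_le_pow_left₀ (norm_nonneg _) h5 2
  have h7 : T.singularValues N * ‖x‖ ≤ c * ‖x‖ :=
    (pow_le_pow_iff_left₀ (mul_nonneg (T.singularValues_nonneg _) (norm_nonneg _))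
      (by positivity) two_ne_zero).1 h6
  exact le_of_mul_le_mul_right h7 hxpos

end Pool.Agent.Lib.MP_93fb9a_gt
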