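import Pool.Agent.Lib.MP_93fb9a_gt.Geom
import Pool.Agent.Lib.MP_93fb9a_gt.Sing

set_option autoImplicit false
set_option linter.unusedSectionVars false

open UpperHalfPlane Module
open scoped MatrixGroups

namespace Pool.Agent.Lib.MP_93fb9a_gt

variable {d : ℕ} {ι : Type} [Fintype ι]

theorem exists_subspace (L : Op d) (s : Finset (Fin d)) :
    ∃ W : Submodule ℂ (Ed d), d ≤ finrank ℂ W + s.card ∧ ∀ v ∈ W, ∀ i ∈ s, L v i = 0 := by
  set f : Ed d →ₗ[ℂ] (s → ℂ) :=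
    { toFun := fun v i => L v i
      map_add' := by intro x y; funext i; simp
      map_smul' := by intro c x; funext i; simp } with hf
  refine ⟨LinearMap.ker f, ?_, ?_⟩
  · have h1 := LinearMap.finrank_range_add_finrank_ker f
    have h2 : finrank ℂ (LinearMap.range f) ≤ s.card := by
      refine (Submodule.finrank_le _).trans ?_
      simp
    rw [finrank_euclideanSpace_fin] at h1
    omega
  · intro v hv i hi
    have h1 : f v = 0 := hv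
    exact congrFun h1 ⟨i, hi⟩

theorem ex_bound (X : Op d) (r : ℝ) : ∃ M : ℝ, 0 < M ∧ ∀ q : ℂ, ‖q‖ ≤ r → ‖ex X q‖ ≤ M := by
  have hc : Continuous (ex X) :=
    continuous_iff_continuousAt.2 fun s => (hasDerivAt_ex X s).continuousAt
  obtain ⟨M, hM⟩ := (isCompact_closedBall (0 : ℂ) r).exists_bound_of_continuousOn hc.continuousOn
  refine ⟨max M 1, by positivity, fun q hq => ?_⟩
  exact (hM q (by simpa using hq)).trans (le_max_left _ _)

theorem norm_pc_le (θ t : ℝ) : ‖pc θ t‖ ≤ ‖pj θ t‖ := by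
  have h1 : ‖pc θ t‖ ^ 2 = (Real.sin θ * Real.exp (t / 2)) ^ 2 := by
    have : pc θ t = ((-Real.sin θ * Real.exp (t / 2) : ℝ) : ℂ) := by simp [pc]
    rw [this, Complex.norm_real, Real.norm_eq_abs, sq_abs]
    ring
  have h2 : ‖pc θ t‖ ^ 2 ≤ ‖pj θ t‖ ^ 2 := by
    rw [h1, norm_pj_sq, normSq_pj]
    nlinarith [sq_nonneg (Real.cos θ * Real.exp (-(t / 2)))]
  exact (pow_le_pow_iff_left₀ (norm_nonneg _) (norm_nonneg _) two_ne_zero).1 h2

theorem normSq_jfac_I (δ : SL(2, ℝ)) : ‖jfac δ Complex.I‖ ^ 2 = (δ 1 0) ^ 2 + (δ 1 1) ^ 2 := by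
  rw [← Complex.normSq_eq_norm_sq, Complex.normSq_apply, jfac]
  simp only [Complex.add_re, Complex.add_im, Complex.re_ofReal_mul, Complex.im_ofReal_mul,
    Complex.I_re, Complex.I_im, Complex.ofReal_re, Complex.ofReal_im]
  ring

theorem norm_c_le (δ : SL(2, ℝ)) : ‖((δ 1 0 : ℝ) : ℂ)‖ ≤ ‖jfac δ Complex.I‖ := by
  have h2 : ‖((δ 1 0 : ℝ) : ℂ)‖ ^ 2 ≤ ‖jfac δ Complex.I‖ ^ 2 := by
    rw [normSq_jfac_I, Complex.norm_real, Real.norm_eq_abs, sq_abs]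
    nlinarith [sq_nonneg (δ 1 1)]
  exact (pow_le_pow_iff_left₀ (norm_nonneg _) (norm_nonneg _) two_ne_zero).1 h2

theorem jfac_I_ne_zero (δ : SL(2, ℝ)) : jfac δ Complex.I ≠ 0 := by
  intro h
  have h1 := normSq_jfac_I δ
  rw [h, norm_zero] at h1
  have h2 : δ 0 0 * δ 1 1 - δ 0 1 * δ 1 0 = 1 := by
    rw [← Matrix.det_fin_two]; exact δ.2
  have h3 : δ 1 0 = 0 := by nlinarith [sq_nonneg (δ 1 0), sq_nonneg (δ 1 1)]
  have h4 : δ 1 1 = 0 := by nlinarith [sq_nonneg (δ 1 0), sq_nonneg (δ 1 1)]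
  rw [h3, h4] at h2
  norm_num at h2

theorem im_smul_I (δ : SL(2, ℝ)) : ((δ • I : ℍ) : ℂ).im = 1 / ‖jfac δ Complex.I‖ ^ 2 := by
  have h0 : Complex.normSq (jfac δ Complex.I) ≠ 0 := by
    rw [Ne, Complex.normSq_eq_zero]; exact jfac_I_ne_zero δ
  have h2 : δ 0 0 * δ 1 1 - δ 0 1 * δ 1 0 = 1 := by
    rw [← Matrix.det_fin_two]; exact δ.2
  have h1 : ((δ • I : ℍ) : ℂ) = (((δ 0 0 : ℝ) : ℂ) * Complex.I + ((δ 0 1 : ℝ) : ℂ)) /
      jfac δ Complex.I := by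
    rw [coe_specialLinearGroup_apply]; rfl
  have h3 : (jfac δ Complex.I).re = δ 1 1 := by
    rw [jfac, Complex.add_re, Complex.re_ofReal_mul, Complex.I_re, Complex.ofReal_re]; ring
  have h4 : (jfac δ Complex.I).im = δ 1 0 := by
    rw [jfac, Complex.add_im, Complex.im_ofReal_mul, Complex.I_im, Complex.ofReal_im]; ring
  rw [← Complex.normSq_eq_norm_sq, h1, Complex.div_im, h3, h4, Complex.add_re, Complex.add_im,
    Complex.re_ofReal_mul, Complex.im_ofReal_mul, Complex.ofReal_re, Complex.ofReal_im,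
    Complex.I_re, Complex.I_im, ← sub_div]
  congr 1
  linear_combination h2

theorem PData.frame1_eq (P : PData d ι) (θ t : ℝ) :
    P.frame1 θ t = ex P.E (-(pc θ t / pj θ t)) * Dop P.μ (pj θ t) := by
  have h0 := pj_ne_zero θ t
  rw [PData.frame1, P.hE.Dop_ex h0]
  congr 2
  rw [zpow_neg]
  field_simp

/-- the basic uniformly bounded operators -/
theorem B_bounds (P : PData d ι) {Y W : Op d} (hW : W * Y = 1) :
    ∃ K1 K2 : ℝ, 0 < K1 ∧ 0 < K2 ∧ ∀ q s : ℂ, ‖q‖ ≤ 2 → ‖s‖ = 1 → ∀ v : Ed d,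
      ‖P.C (ex P.E q (Dop P.μ s (Y v)))‖ ≤ K1 * ‖v‖ ∧
      ‖v‖ ≤ K2 * ‖P.C (ex P.E q (Dop P.μ s (Y v)))‖ := by
  obtain ⟨M, hM, hMb⟩ := ex_bound P.E 2
  refine ⟨‖P.C‖ * M * ‖Y‖ + 1, ‖W‖ * M * ‖P.C'‖ + 1, by positivity, by positivity, ?_⟩
  intro q s hq hs v
  constructor
  · calc ‖P.C (ex P.E q (Dop P.μ s (Y v)))‖ ≤ ‖P.C‖ * ‖ex P.E q (Dop P.μ s (Y v))‖ :=
          P.C.le_opNorm _
      _ ≤ ‖P.C‖ * (M * ‖Dop P.μ s (Y v)‖) := by
          gcongr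
          exact (ContinuousLinearMap.le_opNorm _ _).trans
            (mul_le_mul_of_nonneg_right (hMb q hq) (norm_nonneg _))
      _ = ‖P.C‖ * M * ‖Y v‖ := by rw [norm_Dop_apply P.μ hs]; ring
      _ ≤ ‖P.C‖ * M * (‖Y‖ * ‖v‖) := by gcongr; exact Y.le_opNorm v
      _ ≤ (‖P.C‖ * M * ‖Y‖ + 1) * ‖v‖ := by nlinarith [norm_nonneg v]
  · set w := P.C (ex P.E q (Dop P.μ s (Y v))) with hw
    have h1 : v = W (Y v) := by
      have := congrArg (fun X : Op d => X v) hW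
      exact this.symm
    have h2 : ex P.E q (Dop P.μ s (Y v)) = P.C' w := by
      have := congrArg (fun X : Op d => X (ex P.E q (Dop P.μ s (Y v)))) P.C'_mul
      exact this.symm
    have h3 : Dop P.μ s (Y v) = ex P.E (-q) (P.C' w) := by
      rw [← h2]
      have := congrArg (fun X : Op d => X (Dop P.μ s (Y v))) (ex_neg_mul P.E q)
      exact this.symm
    calc ‖v‖ = ‖W (Y v)‖ := by rw [← h1]
      _ ≤ ‖W‖ * ‖Y v‖ := W.le_opNorm _
      _ = ‖W‖ * ‖Dop P.μ s (Y v)‖ := by rw [norm_Dop_apply P.μ hs]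
      _ = ‖W‖ * ‖ex P.E (-q) (P.C' w)‖ := by rw [h3]
      _ ≤ ‖W‖ * (M * (‖P.C'‖ * ‖w‖)) := by
          gcongr
          refine (ContinuousLinearMap.le_opNorm _ _).trans ?_
          gcongr
          · exact hMb _ (by rwa [norm_neg])
          · exact P.C'.le_opNorm _
      _ ≤ (‖W‖ * M * ‖P.C'‖ + 1) * ‖w‖ := by nlinarith [norm_nonneg w]

theorem core (P : PData d ι) {α : ι → ℂ → ℂ} {Yo : ℂ → Op d} {W : Op d} {ε : ℝ}
    (hflat : ∀ v, P.IsFlat α (fun z => Yo z v))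
    (hα : ∀ i, ∀ z : ℂ, 0 < z.im → ‖α i z‖ * z.im ^ (P.m i + 1) ≤ ε) (hε : ε * P.K ≤ 1 / 16)
    (hW : W * Yo Complex.I = 1) :
    ∃ K : ℝ, 0 < K ∧ ∀ (δ : SL(2, ℝ)) (R R' : Op d), R * R' = 1 →
      (Yo ((δ • I : ℍ) : ℂ) * R = ex P.E ((δ 1 0 : ℂ) * jfac δ Complex.I) *
        Dop P.μ (jfac δ Complex.I)⁻¹ * Yo Complex.I) →
      (∃ W₁ : Submodule ℂ (Ed d),
        d ≤ finrank ℂ W₁ + (Finset.univ.filter (fun i => ¬ 0 < P.μ i)).card ∧
        ∀ v ∈ W₁, Real.exp (7 / 16 * dist I (δ • I)) * ‖v‖ ≤ K * ‖R' v‖) ∧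
      (∃ W₂ : Submodule ℂ (Ed d),
        d ≤ finrank ℂ W₂ + (Finset.univ.filter (fun i => 0 < P.μ i)).card ∧
        ∀ v ∈ W₂, ‖R' v‖ ≤ K * Real.exp (1 / 8 * dist I (δ • I)) * ‖v‖) := by
  obtain ⟨K1, K2, hK1, hK2, hB⟩ := B_bounds P hW
  refine ⟨K1 * K2, by positivity, ?_⟩
  intro δ R R' hR heq
  set T := dist I (δ • I) with hT
  have hT0 : 0 ≤ T := dist_nonneg
  obtain ⟨θ, hθ⟩ := exists_polar (δ • I)
  rw [← hT] at hθ
  set u : Ed d → ℝ → Ed d := fun v t => P.C (P.frame1 θ t (Yo (pz θ t) v)) with hu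
  have hsol : ∀ v, IsSol P.μ (ε * P.K) (u v) := fun v => P.path_isSol (hflat v) hα θ
  -- the two ends
  set j := jfac δ Complex.I with hj
  have hj0 : j ≠ 0 := jfac_I_ne_zero δ
  have hpzT : pz θ T = ((δ • I : ℍ) : ℂ) := by rw [pz_ofReal, hθ]
  have hnT : ‖pj θ T‖ = ‖j‖ := by
    have h1 := pz_im θ T
    rw [hpzT, im_smul_I] at h1
    have h2 : ‖pj θ T‖ ^ 2 = ‖j‖ ^ 2 := by
      have h5 := congrArg (fun x : ℝ => x⁻¹) h1
      simp only [one_div, inv_inv] at h5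
      exact h5.symm
    exact (pow_left_inj₀ (norm_nonneg _) (norm_nonneg _) two_ne_zero).1 h2
  have hn0 : ‖pj θ 0‖ = 1 := by
    have h1 := pz_im θ 0
    rw [Complex.ofReal_zero, pz_theta_zero, Complex.I_im] at h1
    have h2 : ‖pj θ 0‖ ^ 2 = 1 ^ 2 := by
      have h5 := congrArg (fun x : ℝ => x⁻¹) h1
      simp only [one_div, inv_inv] at h5
      rw [← h5]
      norm_num
    exact (pow_left_inj₀ (norm_nonneg _) zero_le_one two_ne_zero).1 h2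
  have hq : ∀ t : ℝ, ‖-(pc θ t / pj θ t)‖ ≤ 1 := by
    intro t
    rw [norm_neg, norm_div]
    exact div_le_one_of_le₀ (norm_pc_le θ t) (norm_nonneg _)
  have hu0 : ∀ v, u v 0 = P.C (ex P.E (-(pc θ 0 / pj θ 0)) (Dop P.μ (pj θ 0) (Yo Complex.I v))) := by
    intro v
    have := P.frame1_eq θ 0
    rw [Complex.ofReal_zero] at this
    simp only [hu, Complex.ofReal_zero, pz_theta_zero, this]
    rfl
  set q1 : ℂ := -(pc θ T / pj θ T) + (pj θ T) ^ (-2 : ℤ) * ((δ 1 0 : ℂ) * j) with hq1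
  set s1 : ℂ := pj θ T * j⁻¹ with hs1
  have hs1n : ‖s1‖ = 1 := by
    rw [hs1, norm_mul, norm_inv, hnT]
    exact mul_inv_cancel₀ (norm_ne_zero_iff.2 hj0)
  have hq1n : ‖q1‖ ≤ 2 := by
    refine (norm_add_le _ _).trans ?_
    have h1 := hq T
    have h2 : ‖(pj θ T) ^ (-2 : ℤ) * ((δ 1 0 : ℂ) * j)‖ ≤ 1 := by
      rw [norm_mul, norm_mul, norm_zpow, hnT]
      have h3 := norm_c_le δ
      rw [← hj] at h3
      have h4 : 0 < ‖j‖ := norm_pos_iff.2 hj0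
      have h5 : ‖j‖ ^ (-2 : ℤ) = 1 / (‖j‖ * ‖j‖) := by
        rw [zpow_neg, one_div]
        congr 1
        exact pow_two _
      rw [h5, one_div, inv_mul_le_iff₀ (by positivity), mul_one]
      exact mul_le_mul_of_nonneg_right h3 h4.le
    linarith
  have huT : ∀ v, u v T = P.C (ex P.E q1 (Dop P.μ s1 (Yo Complex.I (R' v)))) := by
    intro v
    have h1 : v = R (R' v) := by
      have := congrArg (fun X : Op d => X v) hR
      exact this.symm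
    have h2 : Yo (pz θ T) v = (ex P.E ((δ 1 0 : ℂ) * j) * Dop P.μ j⁻¹ * Yo Complex.I) (R' v) := by
      rw [hpzT, ← heq]
      conv_lhs => rw [h1]
      rfl
    have h3 : P.frame1 θ T * (ex P.E ((δ 1 0 : ℂ) * j) * Dop P.μ j⁻¹ * Yo Complex.I) =
        ex P.E q1 * (Dop P.μ s1 * Yo Complex.I) := by
      rw [P.frame1_eq, hq1, ex_add, hs1, ← Dop_mul]
      have h4 := P.hE.Dop_ex (pj_ne_zero θ T) ((δ 1 0 : ℂ) * j)
      calc ex P.E (-(pc θ T / pj θ T)) * Dop P.μ (pj θ T) *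
            (ex P.E ((δ 1 0 : ℂ) * j) * Dop P.μ j⁻¹ * Yo Complex.I)
          = ex P.E (-(pc θ T / pj θ T)) * (Dop P.μ (pj θ T) * ex P.E ((δ 1 0 : ℂ) * j)) *
            (Dop P.μ j⁻¹ * Yo Complex.I) := by simp only [mul_assoc]
        _ = _ := by rw [h4]; simp only [mul_assoc]
    simp only [hu]
    rw [h2]
    have h5 := congrArg (fun X : Op d => P.C (X (R' v))) h3
    exact h5
  constructor
  · obtain ⟨W₁, hd1, hW1⟩ := exists_subspace
      (P.C * (ex P.E (-(pc θ 0 / pj θ 0)) * (Dop P.μ (pj θ 0) * Yo Complex.I)))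
      (Finset.univ.filter (fun i => ¬ 0 < P.μ i))
    refine ⟨W₁, hd1, fun v hv => ?_⟩
    have h1 : negPart P.μ (u v 0) = 0 := by
      apply Finset.sum_eq_zero
      intro i hi
      have h2 := hW1 v hv i hi
      rw [hu0]
      have h3 : (P.C (ex P.E (-(pc θ 0 / pj θ 0)) (Dop P.μ (pj θ 0) (Yo Complex.I v)))) i = 0 := h2
      rw [h3]
      simp
    have h2 := expand (hsol v) hε hT0 h1
    rw [hu0, huT] at h2
    have h3 := (hB _ _ ((hq 0).trans one_le_two) (by simpa using hn0) v).2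
    have h4 := (hB _ _ hq1n hs1n (R' v)).1
    simp only [Complex.ofReal_zero] at h3
    calc Real.exp (7 / 16 * T) * ‖v‖
        ≤ Real.exp (7 / 16 * T) * (K2 *
          ‖P.C (ex P.E (-(pc θ 0 / pj θ 0)) (Dop P.μ (pj θ 0) (Yo Complex.I v)))‖) := by gcongr
      _ = K2 * (Real.exp (7 / 16 * T) *
          ‖P.C (ex P.E (-(pc θ 0 / pj θ 0)) (Dop P.μ (pj θ 0) (Yo Complex.I v)))‖) := by ring
      _ ≤ K2 * (K1 * ‖R' v‖) := mul_le_mul_of_nonneg_left (h2.trans h4) hK2.le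
      _ = K1 * K2 * ‖R' v‖ := by ring
  · obtain ⟨W₂, hd2, hW2⟩ := exists_subspace
      (P.C * (ex P.E q1 * (Dop P.μ s1 * (Yo Complex.I * R'))))
      (Finset.univ.filter (fun i => 0 < P.μ i))
    refine ⟨W₂, hd2, fun v hv => ?_⟩
    have h1 : posPart P.μ (u v T) = 0 := by
      apply Finset.sum_eq_zero
      intro i hi
      have h2 := hW2 v hv i hi
      rw [huT]
      have h3 : (P.C (ex P.E q1 (Dop P.μ s1 (Yo Complex.I (R' v))))) i = 0 := h2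
      rw [h3]
      simp
    have h2 := contract (hsol v) hε hT0 h1
    rw [hu0, huT] at h2
    have h3 := (hB _ _ ((hq 0).trans one_le_two) (by simpa using hn0) v).1
    have h4 := (hB _ _ hq1n hs1n (R' v)).2
    simp only [Complex.ofReal_zero] at h3
    calc ‖R' v‖ ≤ K2 * ‖P.C (ex P.E q1 (Dop P.μ s1 (Yo Complex.I (R' v))))‖ := h4
      _ ≤ K2 * (Real.exp (1 / 8 * T) * (K1 * ‖v‖)) := by
          gcongr
          exact h2.trans (by gcongr)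
      _ = K1 * K2 * Real.exp (1 / 8 * T) * ‖v‖ := by ring

theorem log_gap (T Tinv : Ed d →ₗ[ℂ] Ed d) (hT : ∀ x, Tinv (T x) = x) {N : ℕ} (hN : 1 ≤ N)
    (hNd : N < d) {a b : ℝ} (ha : 0 < a) (hb : 0 < b) (W₁ W₂ : Submodule ℂ (Ed d))
    (h1 : N ≤ finrank ℂ W₁) (h2 : d ≤ N + finrank ℂ W₂)
    (e1 : ∀ x ∈ W₁, a * ‖x‖ ≤ ‖T x‖) (e2 : ∀ x ∈ W₂, ‖T x‖ ≤ b * ‖x‖) :
    Real.log a - Real.log b ≤
      Real.log (T.singularValues (N - 1)) - Real.log (T.singularValues N) := by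
  have l1 := le_singularValue T hN ha.le W₁ h1 e1
  have l2 := singularValue_le T (N := N) hb.le W₂ (by rwa [finrank_euclideanSpace_fin]) e2
  have l3 : 0 < T.singularValues N := by
    set S : Ed d →L[ℂ] Ed d := LinearMap.toContinuousLinearMap Tinv with hS
    have hc : 0 < 1 / (‖S‖ + 1) := by positivity
    refine hc.trans_le ?_
    have := le_singularValue T (N := N + 1) (by omega) hc.le ⊤
      (by rw [finrank_top, finrank_euclideanSpace_fin]; omega) (fun x _ => ?_)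
    · simpa using this
    · have h3 : ‖x‖ ≤ ‖S‖ * ‖T x‖ := by
        have : x = S (T x) := (hT x).symm
        conv_lhs => rw [this]
        exact S.le_opNorm _
      rw [one_div, inv_mul_le_iff₀ (by positivity)]
      nlinarith [norm_nonneg (T x)]
  have l4 := Real.log_le_log ha l1
  have l5 := Real.log_le_log l3 l2
  linarith

/-- change of linear coordinates -/
theorem conj_gap (Φ : Ed d ≃ₗ[ℂ] Ed d) : ∃ L : ℝ, 0 < L ∧ ∀ (T : Ed d →ₗ[ℂ] Ed d) (a b : ℝ)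
    (W₁ W₂ : Submodule ℂ (Ed d)), 0 ≤ a → 0 ≤ b → (∀ x ∈ W₁, a * ‖x‖ ≤ ‖T x‖) →
    (∀ x ∈ W₂, ‖T x‖ ≤ b * ‖x‖) →
    (∀ x ∈ W₁.map Φ.toLinearMap, a / L * ‖x‖ ≤ ‖Φ (T (Φ.symm x))‖) ∧
    (∀ x ∈ W₂.map Φ.toLinearMap, ‖Φ (T (Φ.symm x))‖ ≤ b * L * ‖x‖) := by
  set M : Ed d →L[ℂ] Ed d := LinearMap.toContinuousLinearMap Φ.toLinearMap with hM
  set M' : Ed d →L[ℂ] Ed d := LinearMap.toContinuousLinearMap Φ.symm.toLinearMap with hM'
  refine ⟨(‖M‖ + 1) * (‖M'‖ + 1), by positivity, ?_⟩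
  intro T a b W₁ W₂ ha hb e1 e2
  have hb1 : ∀ x, ‖Φ x‖ ≤ (‖M‖ + 1) * ‖x‖ := fun x =>
    (M.le_opNorm x).trans (by nlinarith [norm_nonneg x])
  have hb2 : ∀ x, ‖Φ.symm x‖ ≤ (‖M'‖ + 1) * ‖x‖ := fun x =>
    (M'.le_opNorm x).trans (by nlinarith [norm_nonneg x])
  have hb1' : ∀ x, ‖x‖ ≤ (‖M‖ + 1) * ‖Φ.symm x‖ := fun x => by
    have := hb1 (Φ.symm x)
    rwa [Φ.apply_symm_apply] at this
  have hb2' : ∀ x, ‖x‖ ≤ (‖M'‖ + 1) * ‖Φ x‖ := fun x => by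
    have := hb2 (Φ x)
    rwa [Φ.symm_apply_apply] at this
  constructor
  · rintro x ⟨v, hv, rfl⟩
    have : Φ.symm (Φ.toLinearMap v) = v := Φ.symm_apply_apply v
    rw [this]
    have h1 := e1 v hv
    have h2 := hb2' (T v)
    have h3 := hb1 v
    have h4 : ‖Φ.toLinearMap v‖ ≤ (‖M‖ + 1) * ‖v‖ := h3
    rw [div_mul_eq_mul_div, div_le_iff₀ (by positivity)]
    calc a * ‖Φ.toLinearMap v‖ ≤ a * ((‖M‖ + 1) * ‖v‖) := by gcongr
      _ = (‖M‖ + 1) * (a * ‖v‖) := by ring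
      _ ≤ (‖M‖ + 1) * ((‖M'‖ + 1) * ‖Φ (T v)‖) :=
          mul_le_mul_of_nonneg_left (h1.trans h2) (by positivity)
      _ = ‖Φ (T v)‖ * ((‖M‖ + 1) * (‖M'‖ + 1)) := by ring
  · rintro x ⟨v, hv, rfl⟩
    have : Φ.symm (Φ.toLinearMap v) = v := Φ.symm_apply_apply v
    rw [this]
    have h4 : ‖v‖ ≤ (‖M'‖ + 1) * ‖Φ.toLinearMap v‖ := hb2' v
    calc ‖Φ (T v)‖ ≤ (‖M‖ + 1) * ‖T v‖ := hb1 _
      _ ≤ (‖M‖ + 1) * (b * ‖v‖) := by gcongr; exact e2 v hv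
      _ ≤ (‖M‖ + 1) * (b * ((‖M'‖ + 1) * ‖Φ.toLinearMap v‖)) := by gcongr
      _ = b * ((‖M‖ + 1) * (‖M'‖ + 1)) * ‖Φ.toLinearMap v‖ := by ring

end Pool.Agent.Lib.MP_93fb9a_gt
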