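import Mathlib

set_option autoImplicit false
set_option linter.unusedSectionVars false

open NormedSpace

namespace Pool.Agent.Lib.MP_93fb9a_gt

section Banach

variable {𝒜 : Type*} [NormedRing 𝒜] [NormedAlgebra ℂ 𝒜] [CompleteSpace 𝒜]

/-- the one-parameter group `exp (s X)` -/
noncomputable def ex (X : 𝒜) (s : ℂ) : 𝒜 := NormedSpace.exp (s • X)

theorem ex_zero (X : 𝒜) : ex X 0 = 1 := by simp [ex]

theorem ex_add (X : 𝒜) (s t : ℂ) : ex X (s + t) = ex X s * ex X t := by
  let _ : NormedAlgebra ℚ 𝒜 := NormedAlgebra.restrictScalars ℚ ℂ 𝒜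
  rw [ex, add_smul]
  exact NormedSpace.exp_add_of_commute
    (((Commute.refl X).smul_left s).smul_right t)

theorem ex_neg_mul (X : 𝒜) (s : ℂ) : ex X (-s) * ex X s = 1 := by
  rw [← ex_add, neg_add_cancel, ex_zero]

theorem ex_mul_neg (X : 𝒜) (s : ℂ) : ex X s * ex X (-s) = 1 := by
  rw [← ex_add, add_neg_cancel, ex_zero]

theorem hasDerivAt_ex (X : 𝒜) (s : ℂ) : HasDerivAt (ex X) (X * ex X s) s :=
  hasDerivAt_exp_smul_const' (𝕂 := ℂ) X s

theorem hasDerivAt_ex' (X : 𝒜) (s : ℂ) : HasDerivAt (ex X) (ex X s * X) s :=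
  hasDerivAt_exp_smul_const (𝕂 := ℂ) X s

theorem ex_self_comm (X : 𝒜) (s : ℂ) : X * ex X s = ex X s * X :=
  (hasDerivAt_ex X s).unique (hasDerivAt_ex' X s)

theorem ex_comm {E A : 𝒜} (h : E * A = A * E) (p : ℂ) : ex E p * A = A * ex E p := by
  let _ : NormedAlgebra ℚ 𝒜 := NormedAlgebra.restrictScalars ℚ ℂ 𝒜
  have h1 : Commute A (p • E) := (Commute.smul_right (show Commute A E from h.symm) p)
  exact (h1.exp_right).symm

theorem hasDerivAt_ex_neg (X : 𝒜) (s : ℂ) :
    HasDerivAt (fun s => ex X (-s)) (-(X * ex X (-s))) s := by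
  have := HasDerivAt.scomp s (hasDerivAt_ex X (-s)) (hasDerivAt_neg s)
  simpa [Function.comp_def] using this

/-- A conjugation principle: if `X' = - [E, X]` then `exp(pE) X(p) exp(-pE)` is constant. -/
theorem conj_const {E : 𝒜} {X : ℂ → 𝒜}
    (hX : ∀ p, HasDerivAt X (-(E * X p - X p * E)) p) (p : ℂ) :
    ex E (-p) * X 0 = X p * ex E (-p) := by
  have hd : ∀ p, HasDerivAt (fun p => ex E p * X p * ex E (-p)) 0 p := by
    intro p
    have h := ((hasDerivAt_ex' E p).mul (hX p)).mul (hasDerivAt_ex_neg E p)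
    have e : (ex E p * E * X p + ex E p * -(E * X p - X p * E)) * ex E (-p) +
      ex E p * X p * -(E * ex E (-p)) = 0 := by noncomm_ring
    exact h.congr_deriv e
  have hc := is_const_of_deriv_eq_zero (fun p => (hd p).differentiableAt)
    (fun p => (hd p).deriv) p 0
  simp only [neg_zero, ex_zero, one_mul, mul_one] at hc
  rw [← hc]
  calc ex E (-p) * (ex E p * X p * ex E (-p)) = (ex E (-p) * ex E p) * X p * ex E (-p) := by
        noncomm_ring
    _ = _ := by rw [ex_neg_mul, one_mul]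

theorem ex_conj_F {E H F : 𝒜} (h1 : E * F - F * E = H) (h2 : H * E - E * H = (2 : ℂ) • E)
    (p : ℂ) : ex E (-p) * F = (F - p • H - p ^ 2 • E) * ex E (-p) := by
  have hX : ∀ p : ℂ, HasDerivAt (fun p : ℂ => F - p • H - p ^ 2 • E)
      (-(E * (F - p • H - p ^ 2 • E) - (F - p • H - p ^ 2 • E) * E)) p := by
    intro p
    have ha : HasDerivAt (fun p : ℂ => F - p • H - p ^ 2 • E) (0 - (1 : ℂ) • H - (2 * p) • E) p := by
      refine ((hasDerivAt_const p F).sub ((hasDerivAt_id p).smul_const H)).sub ?_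
      have := (hasDerivAt_pow 2 p).smul_const E
      simpa using this
    convert ha using 1
    have e : -(E * (F - p • H - p ^ 2 • E) - (F - p • H - p ^ 2 • E) * E)
      = -(E * F - F * E) - p • (H * E - E * H) := by
      simp only [mul_sub, sub_mul, smul_mul_assoc, mul_smul_comm, smul_sub]
      abel
    rw [e, h1, h2, smul_smul]
    simp only [one_smul, zero_sub]
    rw [mul_comm p 2]
  have := conj_const hX p
  simpa using this

theorem ex_conj_H {F H : 𝒜} (h : H * F - F * H = -((2 : ℂ) • F)) (x : ℂ) :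
    ex F x * H = (H + (2 * x) • F) * ex F x := by
  have hX : ∀ p : ℂ, HasDerivAt (fun p : ℂ => H - (2 * p) • F)
      (-(F * (H - (2 * p) • F) - (H - (2 * p) • F) * F)) p := by
    intro p
    have ha : HasDerivAt (fun p : ℂ => H - (2 * p) • F) (0 - (2 * 1 : ℂ) • F) p := by
      exact (hasDerivAt_const p H).sub (((hasDerivAt_id p).const_mul (2 : ℂ)).smul_const F)
    convert ha using 1
    have e : -(F * (H - (2 * p) • F) - (H - (2 * p) • F) * F) = (H * F - F * H) := by
      simp only [mul_sub, sub_mul, smul_mul_assoc, mul_smul_comm]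
      abel
    rw [e, h]
    simp
  have := conj_const hX (-x)
  simpa using this

/-- `exp(iF) (H/2 - iF) = (H/2) exp(iF)`. -/
theorem ex_half {F H : 𝒜} (h : H * F - F * H = -((2 : ℂ) • F)) :
    ex F Complex.I * ((1 / 2 : ℂ) • H - Complex.I • F) = ((1 / 2 : ℂ) • H) * ex F Complex.I := by
  rw [mul_sub, mul_smul_comm, ex_conj_H h, mul_smul_comm, ← ex_self_comm, add_mul,
    smul_add, smul_mul_assoc, smul_mul_assoc, smul_smul]
  have : (1 / 2 : ℂ) * (2 * Complex.I) = Complex.I := by ring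
  rw [this]
  abel

end Banach

end Pool.Agent.Lib.MP_93fb9a_gt
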