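import Pool.Agent.Lib.MP_93fb9a_gt.GaugeA

set_option autoImplicit false
set_option linter.unusedSectionVars false

open NormedSpace

namespace Pool.Agent.Lib.MP_93fb9a_gt

abbrev Ed (d : ℕ) := EuclideanSpace ℂ (Fin d)
abbrev Op (d : ℕ) := Ed d →L[ℂ] Ed d

variable {d : ℕ}

/-- diagonal operators -/
noncomputable def diagL (d : ℕ) : (Fin d → ℂ) →L[ℂ] Op d :=
  LinearMap.toContinuousLinearMap
    { toFun := fun w => LinearMap.toContinuousLinearMap
        { toFun := fun x => WithLp.toLp 2 (fun i => w i * x i)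
          map_add' := by intro x y; ext i; simp [mul_add]
          map_smul' := by intro c x; ext i; simp; ring }
      map_add' := by intro v w; ext x i; simp [add_mul]
      map_smul' := by intro c w; ext x i; simp [mul_assoc] }

theorem diagL_apply (w : Fin d → ℂ) (x : Ed d) (i : Fin d) : diagL d w x i = w i * x i := rfl

theorem diagL_mul (v w : Fin d → ℂ) : diagL d v * diagL d w = diagL d (v * w) := by
  ext x i
  simp [diagL_apply, mul_assoc]

theorem diagL_one : diagL d 1 = 1 := by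
  ext x i
  simp [diagL_apply]

theorem op_ext {X Y : Op d} (h : ∀ j i, X (EuclideanSpace.single j 1) i =
    Y (EuclideanSpace.single j 1) i) : X = Y := by
  apply ContinuousLinearMap.coe_injective
  refine (EuclideanSpace.basisFun (Fin d) ℂ).toBasis.ext fun j => ?_
  ext i
  simpa using h j i

theorem diagL_mul_entry (w : Fin d → ℂ) (X : Op d) (j i : Fin d) :
    (diagL d w * X) (EuclideanSpace.single j 1) i = w i * X (EuclideanSpace.single j 1) i := rfl

theorem diagL_single (w : Fin d → ℂ) (j : Fin d) :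
    diagL d w (EuclideanSpace.single j 1) = w j • EuclideanSpace.single j 1 := by
  ext i
  rw [diagL_apply]
  by_cases h : i = j
  · subst h; simp
  · simp [h]

theorem mul_diagL_entry (w : Fin d → ℂ) (X : Op d) (j i : Fin d) :
    (X * diagL d w) (EuclideanSpace.single j 1) i = w j * X (EuclideanSpace.single j 1) i := by
  rw [mul_apply_eq_comp, diagL_single, map_smul]
  simp

/-- the weight operator -/
noncomputable def Hop (μ : Fin d → ℤ) : Op d := diagL d (fun i => (μ i : ℂ))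

/-- `D s` acts by `s ^ (-μ i)` on the `i`-th coordinate. -/
noncomputable def Dop (μ : Fin d → ℤ) (s : ℂ) : Op d := diagL d (fun i => s ^ (-μ i))

theorem Dop_apply (μ : Fin d → ℤ) (s : ℂ) (x : Ed d) (i : Fin d) :
    Dop μ s x i = s ^ (-μ i) * x i := rfl

theorem Dop_mul (μ : Fin d → ℤ) (s t : ℂ) : Dop μ s * Dop μ t = Dop μ (s * t) := by
  rw [Dop, Dop, diagL_mul, Dop]
  congr 1
  funext i
  simp only [Pi.mul_apply, mul_zpow]

theorem Dop_one (μ : Fin d → ℤ) : Dop μ 1 = 1 := by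
  rw [← diagL_one, Dop]
  congr 1
  funext i
  simp

theorem Dop_inv (μ : Fin d → ℤ) {s : ℂ} (hs : s ≠ 0) : Dop μ s * Dop μ s⁻¹ = 1 := by
  rw [Dop_mul, mul_inv_cancel₀ hs, Dop_one]

theorem Dop_inv' (μ : Fin d → ℤ) {s : ℂ} (hs : s ≠ 0) : Dop μ s⁻¹ * Dop μ s = 1 := by
  rw [Dop_mul, inv_mul_cancel₀ hs, Dop_one]

theorem hasDerivAt_Dop (μ : Fin d → ℤ) {s : ℂ} (hs : s ≠ 0) :
    HasDerivAt (Dop μ) (-(s⁻¹ • (Hop μ * Dop μ s))) s := by
  have h1 : HasDerivAt (fun s : ℂ => fun i : Fin d => s ^ (-μ i))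
      (fun i => ((-μ i : ℤ) : ℂ) * s ^ (-μ i - 1)) s :=
    hasDerivAt_pi.2 (fun i => hasDerivAt_zpow (-μ i) s (Or.inl hs))
  have h2 := (diagL d).hasFDerivAt.comp_hasDerivAt s h1
  refine h2.congr_deriv ?_
  ext x i
  simp only [diagL_apply, Hop, Dop]
  have : (-(s⁻¹ • (diagL d (fun i => (μ i : ℂ)) * diagL d fun i => s ^ (-μ i)))) x i =
    -(s⁻¹ * ((μ i : ℂ) * (s ^ (-μ i) * x i))) := rfl
  rw [this, zpow_sub_one₀ hs]
  push_cast
  ring

theorem norm_Dop_apply (μ : Fin d → ℤ) {s : ℂ} (hs : ‖s‖ = 1) (x : Ed d) :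
    ‖Dop μ s x‖ = ‖x‖ := by
  rw [EuclideanSpace.norm_eq, EuclideanSpace.norm_eq]
  congr 1
  apply Finset.sum_congr rfl
  intro i _
  rw [Dop_apply, norm_mul, norm_zpow, hs, one_zpow, one_mul]

/-- `X` has weight `k`. -/
def HasWt (μ : Fin d → ℤ) (k : ℤ) (X : Op d) : Prop := Hop μ * X - X * Hop μ = (k : ℂ) • X

theorem HasWt.Dop_comm {μ : Fin d → ℤ} {k : ℤ} {X : Op d} (hX : HasWt μ k X) {s : ℂ}
    (hs : s ≠ 0) : Dop μ s * X = s ^ (-k) • (X * Dop μ s) := by
  apply op_ext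
  intro j i
  have h1 : (Hop μ * X - X * Hop μ) (EuclideanSpace.single j 1) i =
    ((k : ℂ) • X) (EuclideanSpace.single j 1) i := by rw [hX]
  have h2 : (Hop μ * X - X * Hop μ) (EuclideanSpace.single j 1) i =
      (Hop μ * X) (EuclideanSpace.single j 1) i - (X * Hop μ) (EuclideanSpace.single j 1) i := rfl
  have h3 : ((k : ℂ) • X) (EuclideanSpace.single j 1) i =
      (k : ℂ) * X (EuclideanSpace.single j 1) i := rfl
  rw [h2, h3, Hop, diagL_mul_entry, mul_diagL_entry] at h1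
  have h4 : (s ^ (-k) • (X * Dop μ s)) (EuclideanSpace.single j 1) i =
      s ^ (-k) * (X * Dop μ s) (EuclideanSpace.single j 1) i := rfl
  rw [h4, Dop, diagL_mul_entry, mul_diagL_entry]
  by_cases h0 : X (EuclideanSpace.single j 1) i = 0
  · rw [h0]; ring
  · have h5 : ((μ i : ℂ) - μ j - k) * X (EuclideanSpace.single j 1) i = 0 := by
      linear_combination h1
    have h6 : (μ i : ℂ) - μ j - k = 0 := (mul_eq_zero.1 h5).resolve_right h0
    have h7 : μ i = μ j + k := by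
      have : (μ i : ℂ) = ((μ j + k : ℤ) : ℂ) := by push_cast; linear_combination h6
      exact_mod_cast this
    have h8 : s ^ (-μ i) = s ^ (-k) * s ^ (-μ j) := by
      rw [← zpow_add₀ hs, h7]
      congr 1
      ring
    rw [h8]
    ring

theorem HasWt.Dop_ex {μ : Fin d → ℤ} {E : Op d} (hE : HasWt μ 2 E) {s : ℂ}
    (hs : s ≠ 0) (p : ℂ) : Dop μ s * ex E p = ex E (s ^ (-2 : ℤ) * p) * Dop μ s := by
  let _ : NormedAlgebra ℚ (Op d) := NormedAlgebra.restrictScalars ℚ ℂ (Op d)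
  have h1 : SemiconjBy (Dop μ s) (p • E) ((s ^ (-2 : ℤ) * p) • E) := by
    unfold SemiconjBy
    rw [mul_smul_comm, hE.Dop_comm hs, smul_mul_assoc, smul_smul, mul_comm]
  exact h1.exp_right

theorem HasWt.Hop_Dop (μ : Fin d → ℤ) (s : ℂ) : Dop μ s * Hop μ = Hop μ * Dop μ s := by
  rw [Dop, Hop, diagL_mul, diagL_mul, mul_comm]

/-- The data of a principal `sl₂` acting on `ℂ^d` in a weight basis, together with the
lowest... (centralizer of `E`) operators `V i` of weight `2 m i`. -/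
structure PData (d : ℕ) (ι : Type) where
  μ : Fin d → ℤ
  E : Op d
  F : Op d
  V : ι → Op d
  m : ι → ℕ
  hE : HasWt μ 2 E
  hF : HasWt μ (-2) F
  hEF : E * F - F * E = Hop μ
  hV : ∀ i, HasWt μ (2 * m i) (V i)
  hEV : ∀ i, E * V i = V i * E

variable {ι : Type} [Fintype ι]

/-- the oper connection form `F + ∑ a i V i` -/
noncomputable def PData.conn (P : PData d ι) (a : ι → ℂ) : Op d := P.F + ∑ i, a i • P.V i

/-- the transformed connection form -/
noncomputable def PData.Z (P : PData d ι) (j j' p p' z' : ℂ) (a : ι → ℂ) : Op d :=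
  (-(j' / j) + z' * p) • Hop P.μ + ((-p' + z' * p ^ 2) * j ^ (-2 : ℤ)) • P.E -
    (z' * j ^ 2) • P.F - z' • ∑ i, (a i * j ^ (-(2 * P.m i : ℤ))) • P.V i

theorem PData.E_wt (P : PData d ι) : Hop P.μ * P.E - P.E * Hop P.μ = (2 : ℂ) • P.E := by
  have := P.hE
  unfold HasWt at this
  exact_mod_cast this

theorem PData.DX_conn (P : PData d ι) (a : ι → ℂ) {j : ℂ} (hj : j ≠ 0) (p : ℂ) :
    Dop P.μ j * ex P.E (-p) * P.conn a =
      (j ^ 2 • P.F - p • Hop P.μ - (p ^ 2 * j ^ (-2 : ℤ)) • P.E +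
        ∑ i, (a i * j ^ (-(2 * P.m i : ℤ))) • P.V i) * (Dop P.μ j * ex P.E (-p)) := by
  have h1 : Dop P.μ j * ex P.E (-p) * P.F =
      (j ^ 2 • P.F - p • Hop P.μ - (p ^ 2 * j ^ (-2 : ℤ)) • P.E) * (Dop P.μ j * ex P.E (-p)) := by
    rw [mul_assoc, ex_conj_F P.hEF P.E_wt, ← mul_assoc, ← mul_assoc]
    congr 1
    rw [mul_sub, mul_sub, mul_smul_comm, mul_smul_comm, P.hF.Dop_comm hj, P.hE.Dop_comm hj,
      HasWt.Hop_Dop, sub_mul, sub_mul, smul_mul_assoc, smul_mul_assoc, smul_mul_assoc, smul_smul]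
    simp
  have h2 : ∀ i, Dop P.μ j * ex P.E (-p) * P.V i =
      j ^ (-(2 * P.m i : ℤ)) • (P.V i * (Dop P.μ j * ex P.E (-p))) := by
    intro i
    rw [mul_assoc, ex_comm (P.hEV i), ← mul_assoc, (P.hV i).Dop_comm hj, smul_mul_assoc, mul_assoc]
  rw [PData.conn, mul_add, h1, add_mul]
  congr 1
  rw [Finset.mul_sum, Finset.sum_mul]
  apply Finset.sum_congr rfl
  intro i _
  rw [mul_smul_comm, h2, smul_smul, smul_mul_assoc]

theorem PData.gauge_deriv (P : PData d ι) {j p : ℂ → ℂ} {y : ℂ → Ed d} {j' p' z' : ℂ}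
    {a : ι → ℂ} {t : ℂ} (hj : HasDerivAt j j' t) (hj0 : j t ≠ 0) (hp : HasDerivAt p p' t)
    (hy : HasDerivAt y (-(z' • P.conn a (y t))) t) :
    HasDerivAt (fun s => (Dop P.μ (j s) * ex P.E (-p s)) (y s))
      (P.Z (j t) j' (p t) p' z' a ((Dop P.μ (j t) * ex P.E (-p t)) (y t))) t := by
  have h1 : HasDerivAt (fun s => Dop P.μ (j s))
      (j' • (-((j t)⁻¹ • (Hop P.μ * Dop P.μ (j t))))) t :=
    (hasDerivAt_Dop P.μ hj0).scomp t hj
  have h2 : HasDerivAt (fun s => ex P.E (-p s)) ((-p') • (P.E * ex P.E (-p t))) t :=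
    HasDerivAt.scomp (h := fun s => -p s) t (hasDerivAt_ex P.E (-p t)) hp.fun_neg
  have h3 := (h1.mul h2).clm_apply hy
  refine h3.congr_deriv ?_
  set X := ex P.E (-p t) with hX
  set Dj := Dop P.μ (j t) with hDj
  have h4 : (j' • (-((j t)⁻¹ • (Hop P.μ * Dj)))) * X + Dj * ((-p') • (P.E * X)) -
      z' • (Dj * X * P.conn a) = P.Z (j t) j' (p t) p' z' a * (Dj * X) := by
    rw [hDj, hX, P.DX_conn a hj0, ← hDj, ← hX]
    have h5 : Dj * ((-p') • (P.E * X)) = (-p' * (j t) ^ (-2 : ℤ)) • (P.E * (Dj * X)) := by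
      rw [mul_smul_comm, ← mul_assoc, P.hE.Dop_comm hj0, smul_mul_assoc, smul_smul, mul_assoc]
    have h6 : (j' • (-((j t)⁻¹ • (Hop P.μ * Dj)))) * X = (-(j' / j t)) • (Hop P.μ * (Dj * X)) := by
      have e : j' • (-((j t)⁻¹ • (Hop P.μ * Dj))) = (-(j' / j t)) • (Hop P.μ * Dj) := by
        rw [div_eq_mul_inv]; module
      rw [e, smul_mul_assoc, mul_assoc]
    rw [h5, h6]
    have h7 : (-(j' / j t)) • (Hop P.μ * (Dj * X)) = ((-(j' / j t)) • Hop P.μ) * (Dj * X) :=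
      (smul_mul_assoc _ _ _).symm
    have h8 : (-p' * (j t) ^ (-2 : ℤ)) • (P.E * (Dj * X)) =
        ((-p' * (j t) ^ (-2 : ℤ)) • P.E) * (Dj * X) := (smul_mul_assoc _ _ _).symm
    rw [h7, h8, ← smul_mul_assoc, ← add_mul, ← sub_mul]
    congr 1
    rw [PData.Z]
    simp only [smul_add, smul_smul, add_mul, sub_eq_add_neg]
    module
  rw [← mul_apply_eq_comp (P.Z (j t) j' (p t) p' z' a) (Dj * X) (y t)] 
  rw [← h4]
  simp only [_root_.add_apply, _root_.sub_apply, mul_apply_eq_comp,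
    _root_.smul_apply, map_neg, map_smul]
  abel

end Pool.Agent.Lib.MP_93fb9a_gt
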