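import Pool.Agent.Lib.MP_93fb9a_gt.Path
import Pool.Agent.Lib.MP_93fb9a_gt.Defs

set_option autoImplicit false
set_option linter.unusedSectionVars false

open UpperHalfPlane
open scoped MatrixGroups

namespace Pool.Agent.Lib.MP_93fb9a_gt

theorem pg_mul (θ t : ℝ) : pg θ t = pg θ 0 * pg 0 t := by
  apply Matrix.SpecialLinearGroup.ext
  intro i j
  rw [Matrix.SpecialLinearGroup.coe_mul, Matrix.mul_apply, Fin.sum_univ_two]
  fin_cases i <;> fin_cases j <;> simp [pg]

theorem pz_zero (t : ℝ) : pz 0 t = (Real.exp t : ℂ) * Complex.I := by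
  have h1 : Complex.exp (t / 2) = Complex.exp t * Complex.exp (-(t / 2)) := by
    rw [← Complex.exp_add]; congr 1; ring
  have h2 := Complex.exp_ne_zero (-((t : ℂ) / 2))
  simp only [pz, pa, pb, pj, pc, pd, Real.sin_zero, Real.cos_zero, Complex.ofReal_exp,
    Complex.ofReal_one, Complex.ofReal_zero]
  rw [h1]
  field_simp
  ring

theorem pg_zero_smul (t : ℝ) : pg 0 t • I = (⟨⟨0, Real.exp t⟩, Real.exp_pos t⟩ : ℍ) := by
  apply UpperHalfPlane.ext
  rw [← pz_ofReal, pz_zero]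
  apply Complex.ext
  · rw [Complex.re_ofReal_mul]; simp
  · rw [Complex.im_ofReal_mul]; simp

theorem dist_pg (θ s t : ℝ) : dist (pg θ s • I) (pg θ t • I) = |s - t| := by
  rw [pg_mul θ s, pg_mul θ t, mul_smul, mul_smul, dist_smul, pg_zero_smul, pg_zero_smul]
  exact (isometry_vertical_line 0).dist_eq s t

theorem normSq_pj' (θ t : ℝ) :
    ‖pj θ t‖ ^ 2 = Real.cosh t - Real.cos (2 * θ) * Real.sinh t := by
  rw [norm_pj_sq, normSq_pj, Real.cosh_eq, Real.sinh_eq, Real.cos_two_mul]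
  have h5 : Real.exp (t / 2) ^ 2 = Real.exp t := by
    rw [← Real.exp_nat_mul]; congr 1; push_cast; ring
  have h6 : Real.exp (-(t / 2)) ^ 2 = Real.exp (-t) := by
    rw [← Real.exp_nat_mul]; congr 1; push_cast; ring
  have h7 := Real.sin_sq_add_cos_sq θ
  rw [mul_pow, mul_pow, h5, h6]
  linear_combination (Real.exp t) * h7

theorem pz_re (θ t : ℝ) : (pz θ t).re * ‖pj θ t‖ ^ 2 = -(Real.sin (2 * θ) * Real.sinh t) := by
  rw [norm_pj_sq]
  have h0 := (normSq_pj_pos θ t).ne'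
  have h1 : pz θ t = (((Real.cos θ * Real.exp (t / 2) : ℝ) : ℂ) * Complex.I +
      ((Real.sin θ * Real.exp (-(t / 2)) : ℝ) : ℂ)) / pj θ t := by
    simp [pz, pa, pb]
  have h3 : (pj θ t).re = Real.cos θ * Real.exp (-(t / 2)) := by
    rw [pj_ofReal, Complex.add_re, Complex.re_ofReal_mul, Complex.I_re, Complex.ofReal_re]
    ring
  have h4 : (pj θ t).im = -Real.sin θ * Real.exp (t / 2) := by
    rw [pj_ofReal, Complex.add_im, Complex.im_ofReal_mul, Complex.I_im, Complex.ofReal_im]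
    ring
  rw [h1, Complex.div_re, h3, h4, Complex.add_re, Complex.add_im, Complex.re_ofReal_mul,
    Complex.im_ofReal_mul, Complex.ofReal_re, Complex.ofReal_im, Complex.I_re, Complex.I_im,
    ← add_div, div_mul_cancel₀ _ h0, Real.sinh_eq, Real.sin_two_mul]
  have h5 : Real.exp (t / 2) * Real.exp (t / 2) = Real.exp t := by
    rw [← Real.exp_add]; congr 1; ring
  have h6 : Real.exp (-(t / 2)) * Real.exp (-(t / 2)) = Real.exp (-t) := by
    rw [← Real.exp_add]; congr 1; ring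
  linear_combination (-(Real.sin θ * Real.cos θ)) * h5 + (Real.sin θ * Real.cos θ) * h6

theorem exists_polar (w : ℍ) : ∃ θ : ℝ, pg θ (dist I w) • I = w := by
  set T := dist I w with hT
  have hT0 : 0 ≤ T := dist_nonneg
  have hy := w.im_pos
  have hc : Real.cosh T = (w.re ^ 2 + 1 + w.im ^ 2) / (2 * w.im) := by
    rw [hT, UpperHalfPlane.cosh_dist']
    simp
  have hs : Real.sinh T ^ 2 = Real.cosh T ^ 2 - 1 := by
    have := Real.cosh_sq T; linarith
  have hs0 : 0 ≤ Real.sinh T := Real.sinh_nonneg_iff.2 hT0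
  set ζ : ℂ := ⟨Real.cosh T - 1 / w.im, -(w.re / w.im)⟩ with hζ
  have hζn : ‖ζ‖ = Real.sinh T := by
    have h1 : ‖ζ‖ ^ 2 = Real.sinh T ^ 2 := by
      rw [← Complex.normSq_eq_norm_sq, Complex.normSq_apply, hs, hζ]
      simp only
      have : Real.cosh T * (2 * w.im) = w.re ^ 2 + 1 + w.im ^ 2 := by
        rw [hc]; field_simp
      field_simp
      linear_combination (-1 : ℝ) * this
    exact (pow_left_inj₀ (norm_nonneg _) hs0 two_ne_zero).1 h1
  refine ⟨ζ.arg / 2, ?_⟩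
  have h1 : Real.cos (2 * (ζ.arg / 2)) * Real.sinh T = Real.cosh T - 1 / w.im := by
    have := Complex.norm_mul_cos_arg ζ
    rw [hζn] at this
    rw [mul_div_cancel₀ _ (two_ne_zero), mul_comm]
    exact this
  have h2 : Real.sin (2 * (ζ.arg / 2)) * Real.sinh T = -(w.re / w.im) := by
    have := Complex.norm_mul_sin_arg ζ
    rw [hζn] at this
    rw [mul_div_cancel₀ _ (two_ne_zero), mul_comm]
    exact this
  have h3 := normSq_pj' (ζ.arg / 2) T
  rw [h1] at h3
  have h4 := pz_re (ζ.arg / 2) T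
  rw [h2, h3] at h4
  have h5 := pz_im (ζ.arg / 2) T
  rw [h3] at h5
  apply UpperHalfPlane.ext
  rw [← pz_ofReal]
  apply Complex.ext
  · rw [coe_re]
    field_simp at h4
    linarith
  · rw [coe_im, h5]
    simp

section Word

variable {G X : Type*} [Group G] [MetricSpace X] [MulAction G X] [IsIsometricSMul G X]

theorem word_aux (K' : Set X) (S : Set G) (hcov : ∀ x : X, ∃ g : G, g • x ∈ K')
    (hS : ∀ g : G, ∀ x y : X, x ∈ K' → y ∈ K' → dist (g • x) y ≤ 1 → g ∈ S)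
    (n : ℕ) : ∀ (x : ℕ → X) (g h : G), (∀ k ≤ n, dist (x k) (x (k + 1)) ≤ 1) →
      g • x 0 ∈ K' → h • x (n + 1) ∈ K' →
      ∃ w : List G, w.length = n + 1 ∧ (∀ s ∈ w, s ∈ S) ∧ w.prod = g * h⁻¹ := by
  induction n with
  | zero =>
    intro x g h hd hg hh
    refine ⟨[g * h⁻¹], rfl, ?_, by simp⟩
    intro s hs
    rw [List.mem_singleton] at hs
    subst hs
    refine hS _ _ _ hh hg ?_
    rw [smul_smul, inv_mul_cancel_right, dist_smul, dist_comm]
    exact hd 0 le_rfl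
  | succ n ih =>
    intro x g h hd hg hh
    obtain ⟨h', hh'⟩ := hcov (x (n + 1))
    obtain ⟨w, hwl, hwS, hwp⟩ := ih x g h' (fun k hk => hd k (by omega)) hg hh'
    refine ⟨w ++ [h' * h⁻¹], by simp [hwl], ?_, ?_⟩
    · intro s hs
      rw [List.mem_append, List.mem_singleton] at hs
      rcases hs with hs | hs
      · exact hwS s hs
      · subst hs
        refine hS _ _ _ hh hh' ?_
        rw [smul_smul, inv_mul_cancel_right, dist_smul, dist_comm]
        exact hd (n + 1) le_rfl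
    · rw [List.prod_append, hwp]
      simp [mul_assoc]

end Word

theorem pz_theta_zero (θ : ℝ) : pz θ 0 = Complex.I := by
  have h0 := pj_ne_zero θ 0
  rw [Complex.ofReal_zero] at h0
  rw [pz, div_eq_iff h0]
  unfold pj pa pb pc pd
  simp only [zero_div, neg_zero, Complex.exp_zero, mul_one]
  linear_combination (Real.sin θ : ℂ) * Complex.I_mul_I

theorem pg_theta_zero (θ : ℝ) : pg θ 0 • I = I := by
  apply UpperHalfPlane.ext
  rw [← pz_ofReal, Complex.ofReal_zero, pz_theta_zero]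
  rfl

theorem exists_word {Γ : Subgroup SL(2, ℝ)} (hΓ : IsCocompactFuchsian Γ) :
    ∃ S : Set Γ, S.Finite ∧ ∀ δ : Γ, ∃ w : List Γ,
      (w.length : ℝ) ≤ dist I ((δ : SL(2, ℝ)) • I) + 2 ∧ (∀ s ∈ w, s ∈ S) ∧ w.prod = δ := by
  obtain ⟨K, hK, hcov⟩ := hΓ.cocompact
  set K' : Set ℍ := insert I K with hK'
  have hK'c : IsCompact K' := hK.insert I
  set K1 : Set ℍ := Metric.cthickening 1 K' with hK1
  have hK1c : IsCompact K1 := hK'c.cthickening
  refine ⟨_, hΓ.properlyDiscontinuous K1 hK1c, ?_⟩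
  intro δ
  set T := dist I ((δ : SL(2, ℝ)) • I) with hT
  have hT0 : 0 ≤ T := dist_nonneg
  obtain ⟨θ, hθ⟩ := exists_polar ((δ : SL(2, ℝ)) • I)
  rw [← hT] at hθ
  have hcov' : ∀ x : ℍ, ∃ g : Γ, g • x ∈ K' := by
    intro x
    obtain ⟨g, hg, hgx⟩ := hcov x
    exact ⟨⟨g, hg⟩, Set.mem_insert_of_mem _ hgx⟩
  have hS : ∀ g : Γ, ∀ x y : ℍ, x ∈ K' → y ∈ K' → dist (g • x) y ≤ 1 →
      g ∈ {γ : Γ | ∃ z ∈ K1, (γ : SL(2, ℝ)) • z ∈ K1} := by
    intro g x y hx hy hd
    exact ⟨x, Metric.self_subset_cthickening _ hx, Metric.mem_cthickening_of_dist_le _ y 1 K' hy hd⟩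
  have hI : IsIsometricSMul Γ ℍ := ⟨fun g => isometry_smul ℍ (g : SL(2, ℝ))⟩
  have c1 : ∀ k ≤ ⌈T⌉₊, dist (pg θ (min (k : ℝ) T) • I) (pg θ (min ((k + 1 : ℕ) : ℝ) T) • I) ≤ 1 := by
    intro k _
    rw [dist_pg]
    push_cast
    rcases le_total (k : ℝ) T with h1 | h1
    · rcases le_total ((k : ℝ) + 1) T with h2 | h2
      · rw [min_eq_left h1, min_eq_left h2]
        rw [abs_le]; constructor <;> linarith
      · rw [min_eq_left h1, min_eq_right h2]
        rw [abs_le]; constructor <;> linarith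
    · rw [min_eq_right h1, min_eq_right (by linarith)]
      simp
  have c2 : (1 : Γ) • (pg θ (min ((0 : ℕ) : ℝ) T) • I) ∈ K' := by
    simp only [Nat.cast_zero, min_eq_left hT0, one_smul, pg_theta_zero]
    exact Set.mem_insert _ _
  have c3 : (δ⁻¹ : Γ) • (pg θ (min ((⌈T⌉₊ + 1 : ℕ) : ℝ) T) • I) ∈ K' := by
    have h1 : min (((⌈T⌉₊ + 1 : ℕ)) : ℝ) T = T := by
      apply min_eq_right
      push_cast
      have := Nat.le_ceil T
      linarith
    rw [h1, hθ]
    have h2 : (δ⁻¹ • ((δ : SL(2, ℝ)) • I) : ℍ) = I := by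
      have : ((δ : SL(2, ℝ)) • I : ℍ) = δ • I := rfl
      rw [this, inv_smul_smul]
    rw [h2]
    exact Set.mem_insert _ _
  obtain ⟨w, hwl, hwS, hwp⟩ := word_aux (G := Γ) K' _ hcov' hS ⌈T⌉₊
    (fun k => pg θ (min (k : ℝ) T) • I) 1 δ⁻¹ c1 c2 c3
  refine ⟨w, ?_, hwS, ?_⟩
  · rw [hwl]
    push_cast
    have := Nat.ceil_lt_add_one hT0
    linarith
  · rw [hwp]; simp

end Pool.Agent.Lib.MP_93fb9a_gt
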