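import Pool.Agent.Lib.MP_93fb9a_gt.Defs

set_option autoImplicit false
set_option linter.unusedSectionVars false

namespace Pool.Agent.Lib.MP_93fb9a_gt

variable {G : Type*} [Group G] {S : Set G}

theorem exists_wordLength (h : Subgroup.closure S = ⊤) (g : G) :
    ∃ w : List G, w.length = wordLength S g ∧ (∀ s ∈ w, s ∈ S ∨ s⁻¹ ∈ S) ∧ w.prod = g := by
  have hne : {n | ∃ w : List G, w.length = n ∧ (∀ s ∈ w, s ∈ S ∨ s⁻¹ ∈ S) ∧ w.prod = g}.Nonempty := by
    have h1 : g ∈ (Subgroup.closure S).toSubmonoid := by rw [h]; trivial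
    rw [Subgroup.closure_toSubmonoid] at h1
    obtain ⟨l, hl, hp⟩ := Submonoid.exists_list_of_mem_closure h1
    exact ⟨l.length, l, rfl, fun s hs => by simpa using hl s hs, hp⟩
  exact Nat.sInf_mem hne

theorem wordLength_le {g : G} {w : List G} (hw : ∀ s ∈ w, s ∈ S ∨ s⁻¹ ∈ S) (hp : w.prod = g) :
    wordLength S g ≤ w.length := Nat.sInf_le ⟨w, rfl, hw, hp⟩

theorem wordLength_mul_le (h : Subgroup.closure S = ⊤) (a b : G) :
    wordLength S (a * b) ≤ wordLength S a + wordLength S b := by
  obtain ⟨u, hu, hu2, hu3⟩ := exists_wordLength h a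
  obtain ⟨v, hv, hv2, hv3⟩ := exists_wordLength h b
  rw [← hu, ← hv, ← List.length_append]
  refine wordLength_le ?_ (by rw [List.prod_append, hu3, hv3])
  intro s hs
  rcases List.mem_append.1 hs with h1 | h1
  · exact hu2 s h1
  · exact hv2 s h1

theorem wordLength_one : wordLength S 1 = 0 := by
  have := wordLength_le (S := S) (g := 1) (w := []) (by simp) rfl
  simpa using this

theorem wordLength_comparison (h : Subgroup.closure S = ⊤) {S₀ : Set G} (hS : S₀.Finite) :
    ∃ L : ℕ, ∀ w : List G, (∀ s ∈ w, s ∈ S₀) → wordLength S w.prod ≤ L * w.length := by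
  obtain ⟨L, hL⟩ := (hS.image (wordLength S)).bddAbove
  refine ⟨L, fun w => ?_⟩
  induction w with
  | nil => intro _; simp [wordLength_one]
  | cons a w ih =>
    intro hw
    rw [List.prod_cons, List.length_cons]
    refine (wordLength_mul_le h _ _).trans ?_
    have h1 := ih (fun s hs => hw s (List.mem_cons_of_mem _ hs))
    have h2 : wordLength S a ≤ L := hL ⟨a, hw a List.mem_cons_self, rfl⟩
    rw [mul_add, mul_one]
    omega

end Pool.Agent.Lib.MP_93fb9a_gt
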