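import Pool.Agent.Lib.MP_93fb9a_gt.Gap
import Pool.Agent.Lib.MP_93fb9a_gt.Alg
import Pool.Agent.Lib.MP_93fb9a_gt.WordLen

set_option autoImplicit false
set_option linter.unusedSectionVars false

open UpperHalfPlane Module
open scoped MatrixGroups

namespace Pool.Agent.Lib.MP_93fb9a_gt

variable {𝔤 : Type*} [LieRing 𝔤] [LieAlgebra ℂ 𝔤] [FiniteDimensional ℂ 𝔤]
variable {d : ℕ}

/-- coordinates in a basis -/
noncomputable def coords (b : Basis (Fin (finrank ℂ 𝔤)) ℂ 𝔤) : 𝔤 ≃ₗ[ℂ] Ed (finrank ℂ 𝔤) :=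
  b.equivFun ≪≫ₗ (WithLp.linearEquiv 2 ℂ (Fin (finrank ℂ 𝔤) → ℂ)).symm

theorem coords_apply (b : Basis (Fin (finrank ℂ 𝔤)) ℂ 𝔤) (x : 𝔤) (i : Fin (finrank ℂ 𝔤)) :
    coords b x i = b.coord i x := rfl

theorem coords_basis (b : Basis (Fin (finrank ℂ 𝔤)) ℂ 𝔤) (j : Fin (finrank ℂ 𝔤)) :
    coords b (b j) = EuclideanSpace.single j 1 := by
  ext i
  rw [coords_apply]
  simp [Finsupp.single_apply, eq_comm]

/-- transport of a linear map to the model space -/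
noncomputable def cj (ψ : 𝔤 ≃ₗ[ℂ] Ed d) (T : 𝔤 →ₗ[ℂ] 𝔤) : Op d :=
  LinearMap.toContinuousLinearMap (ψ.toLinearMap ∘ₗ T ∘ₗ ψ.symm.toLinearMap)

theorem cj_apply' (ψ : 𝔤 ≃ₗ[ℂ] Ed d) (T : 𝔤 →ₗ[ℂ] 𝔤) (v : Ed d) :
    cj ψ T v = ψ (T (ψ.symm v)) := rfl

theorem cj_apply (ψ : 𝔤 ≃ₗ[ℂ] Ed d) (T : 𝔤 →ₗ[ℂ] 𝔤) (x : 𝔤) : cj ψ T (ψ x) = ψ (T x) := by
  rw [cj_apply', ψ.symm_apply_apply]

theorem Op.ext_of (ψ : 𝔤 ≃ₗ[ℂ] Ed d) {X Y : Op d} (h : ∀ x, X (ψ x) = Y (ψ x)) : X = Y := by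
  ext1 v
  obtain ⟨x, rfl⟩ := ψ.surjective v
  exact h x

theorem cj_mul (ψ : 𝔤 ≃ₗ[ℂ] Ed d) (S T : 𝔤 →ₗ[ℂ] 𝔤) : cj ψ (S * T) = cj ψ S * cj ψ T := by
  apply Op.ext_of ψ
  intro x
  have h : (cj ψ S * cj ψ T) (ψ x) = cj ψ S (cj ψ T (ψ x)) := rfl
  rw [h, cj_apply, cj_apply, cj_apply]
  rfl

theorem cj_one (ψ : 𝔤 ≃ₗ[ℂ] Ed d) : cj ψ 1 = 1 := by
  apply Op.ext_of ψ
  intro x
  rw [cj_apply]
  rfl

theorem cj_pow (ψ : 𝔤 ≃ₗ[ℂ] Ed d) (T : 𝔤 →ₗ[ℂ] 𝔤) (n : ℕ) : cj ψ (T ^ n) = cj ψ T ^ n := by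
  induction n with
  | zero => rw [pow_zero, pow_zero, cj_one]
  | succ n ih => rw [pow_succ, pow_succ, cj_mul, ih]

theorem cj_zero (ψ : 𝔤 ≃ₗ[ℂ] Ed d) : cj ψ 0 = 0 := by
  apply Op.ext_of ψ
  intro x
  rw [cj_apply]
  simp

/-- the adjoint action on the model space -/
noncomputable def adOp (ψ : 𝔤 ≃ₗ[ℂ] Ed d) : 𝔤 →ₗ[ℂ] Op d where
  toFun x := cj ψ (LieAlgebra.ad ℂ 𝔤 x : 𝔤 →ₗ[ℂ] 𝔤)
  map_add' x y := by
    apply Op.ext_of ψ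
    intro z
    rw [cj_apply, _root_.add_apply, cj_apply, cj_apply, ← map_add]
    simp
  map_smul' c x := by
    apply Op.ext_of ψ
    intro z
    rw [cj_apply]
    simp only [RingHom.id_apply, _root_.smul_apply]
    rw [cj_apply, ← map_smul]
    simp

theorem adOp_eq (ψ : 𝔤 ≃ₗ[ℂ] Ed d) (x : 𝔤) :
    adOp ψ x = cj ψ (LieAlgebra.ad ℂ 𝔤 x : 𝔤 →ₗ[ℂ] 𝔤) := rfl

theorem adOp_apply (ψ : 𝔤 ≃ₗ[ℂ] Ed d) (x y : 𝔤) : adOp ψ x (ψ y) = ψ ⁅x, y⁆ := by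
  rw [adOp_eq, cj_apply]; rfl

theorem adOp_lie (ψ : 𝔤 ≃ₗ[ℂ] Ed d) (x y : 𝔤) :
    adOp ψ ⁅x, y⁆ = adOp ψ x * adOp ψ y - adOp ψ y * adOp ψ x := by
  apply Op.ext_of ψ
  intro z
  rw [adOp_apply, _root_.sub_apply, mul_apply_eq_comp, mul_apply_eq_comp, adOp_apply, adOp_apply,
    adOp_apply, adOp_apply, ← map_sub]
  congr 1
  rw [lie_lie]

theorem adOp_h (b : Basis (Fin (finrank ℂ 𝔤)) ℂ 𝔤) {μ : Fin (finrank ℂ 𝔤) → ℤ} {h : 𝔤}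
    (hμ : ∀ i, ⁅h, b i⁆ = (μ i : ℂ) • b i) : adOp (coords b) h = Hop μ := by
  apply op_ext
  intro j i
  rw [← coords_basis b, adOp_apply, hμ, map_smul, Hop, coords_basis, diagL_single]

theorem adOp_wt (b : Basis (Fin (finrank ℂ 𝔤)) ℂ 𝔤) {μ : Fin (finrank ℂ 𝔤) → ℤ} {h : 𝔤}
    (hμ : ∀ i, ⁅h, b i⁆ = (μ i : ℂ) • b i) {x : 𝔤} {k : ℤ} (hx : ⁅h, x⁆ = (k : ℂ) • x) :
    HasWt μ k (adOp (coords b) x) := by
  unfold HasWt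
  rw [← adOp_h b hμ, ← adOp_lie, hx, map_smul]

/-- The model of the Kostant slice. -/
noncomputable def KostantSlice.pdata (D : KostantSlice 𝔤) (b : Basis (Fin (finrank ℂ 𝔤)) ℂ 𝔤)
    (μ : Fin (finrank ℂ 𝔤) → ℤ) (hμ : ∀ i, ⁅D.h, b i⁆ = (μ i : ℂ) • b i) :
    PData (finrank ℂ 𝔤) (Fin (LieAlgebra.rank ℂ 𝔤)) where
  μ := μ
  E := adOp (coords b) D.e
  F := adOp (coords b) D.f
  V i := adOp (coords b) (D.v i)
  m := D.m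
  hE := adOp_wt b hμ (by rw [D.triple.lie_h_e_nsmul, ← Nat.cast_smul_eq_nsmul ℂ]; norm_num)
  hF := adOp_wt b hμ (by
    rw [D.triple.lie_h_f_nsmul, ← Nat.cast_smul_eq_nsmul ℂ]; push_cast; module)
  hEF := by rw [← adOp_lie, D.triple.lie_e_f, adOp_h b hμ]
  hV i := adOp_wt b hμ (by rw [D.weight]; push_cast; rfl)
  hEV i := by
    have h1 : D.v i ∈ LinearMap.ker (LieAlgebra.ad ℂ 𝔤 D.e : 𝔤 →ₗ[ℂ] 𝔤) := by
      rw [← D.span_eq]; exact Submodule.subset_span ⟨i, rfl⟩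
    have h2 : ⁅D.e, D.v i⁆ = 0 := h1
    rw [← sub_eq_zero, ← adOp_lie, h2, map_zero]

theorem HasWt.eq_zero {μ : Fin d → ℤ} {k : ℤ} {X : Op d} (hX : HasWt μ k X)
    (hk : ∀ i j, μ i - μ j ≠ k) : X = 0 := by
  apply op_ext
  intro j i
  have h1 : (Hop μ * X - X * Hop μ) (EuclideanSpace.single j 1) i =
    ((k : ℂ) • X) (EuclideanSpace.single j 1) i := by rw [hX]
  have h2 : (Hop μ * X - X * Hop μ) (EuclideanSpace.single j 1) i =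
      (Hop μ * X) (EuclideanSpace.single j 1) i - (X * Hop μ) (EuclideanSpace.single j 1) i := rfl
  have h3 : ((k : ℂ) • X) (EuclideanSpace.single j 1) i =
      (k : ℂ) * X (EuclideanSpace.single j 1) i := rfl
  rw [h2, h3, Hop, diagL_mul_entry, mul_diagL_entry] at h1
  have h5 : (((μ i - μ j - k : ℤ)) : ℂ) * X (EuclideanSpace.single j 1) i = 0 := by
    push_cast
    linear_combination h1
  have h6 : (((μ i - μ j - k : ℤ)) : ℂ) ≠ 0 := by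
    have := hk i j
    exact_mod_cast sub_ne_zero.2 this
  rw [(mul_eq_zero.1 h5).resolve_left h6]
  rfl

theorem HasWt.mul {μ : Fin d → ℤ} {k l : ℤ} {X Y : Op d} (hX : HasWt μ k X) (hY : HasWt μ l Y) :
    HasWt μ (k + l) (X * Y) := by
  unfold HasWt at hX hY ⊢
  have : Hop μ * (X * Y) - X * Y * Hop μ =
      (Hop μ * X - X * Hop μ) * Y + X * (Hop μ * Y - Y * Hop μ) := by
    rw [sub_mul, mul_sub]
    simp only [mul_assoc]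
    abel
  rw [this, hX, hY, smul_mul_assoc, mul_smul_comm]
  push_cast
  module

theorem HasWt.one (μ : Fin d → ℤ) : HasWt μ 0 (1 : Op d) := by
  unfold HasWt
  rw [mul_one, one_mul, sub_self, Int.cast_zero]
  exact (zero_smul ℂ _).symm

theorem HasWt.pow {μ : Fin d → ℤ} {k : ℤ} {X : Op d} (hX : HasWt μ k X) (n : ℕ) :
    HasWt μ (n * k) (X ^ n) := by
  induction n with
  | zero => simpa using HasWt.one μ
  | succ n ih =>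
    rw [pow_succ]
    have := ih.mul hX
    convert this using 1
    push_cast; ring

theorem HasWt.nilpotent {μ : Fin d → ℤ} {X : Op d} (hX : HasWt μ 2 X) : ∃ n, X ^ n = 0 := by
  refine ⟨(∑ i, (μ i).natAbs) + 1, (hX.pow _).eq_zero ?_⟩
  intro i j h
  have h1 : (μ i).natAbs ≤ ∑ i, (μ i).natAbs :=
    Finset.single_le_sum (f := fun i => (μ i).natAbs) (fun _ _ => Nat.zero_le _) (Finset.mem_univ i)
  have h2 : (μ j).natAbs ≤ ∑ i, (μ i).natAbs :=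
    Finset.single_le_sum (f := fun i => (μ i).natAbs) (fun _ _ => Nat.zero_le _) (Finset.mem_univ j)
  omega

theorem pow_finrank_eq_zero {T : 𝔤 →ₗ[ℂ] 𝔤} (h : IsNilpotent T) : T ^ finrank ℂ 𝔤 = 0 := by
  have h1 := LinearMap.aeval_self_charpoly T
  rw [(LinearMap.isNilpotent_iff_charpoly T).1 h] at h1
  simpa using h1

theorem ad_e_nilpotent (b : Basis (Fin (finrank ℂ 𝔤)) ℂ 𝔤) {μ : Fin (finrank ℂ 𝔤) → ℤ} {h e : 𝔤}
    (hμ : ∀ i, ⁅h, b i⁆ = (μ i : ℂ) • b i) (he : ⁅h, e⁆ = (2 : ℂ) • e) :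
    IsNilpotent (LieAlgebra.ad ℂ 𝔤 e : 𝔤 →ₗ[ℂ] 𝔤) := by
  have h1 : HasWt μ 2 (adOp (coords b) e) := adOp_wt b hμ (by exact_mod_cast he)
  obtain ⟨n, hn⟩ := h1.nilpotent
  refine ⟨n, ?_⟩
  rw [adOp_eq, ← cj_pow] at hn
  ext x
  have h2 := cj_apply (coords b) ((LieAlgebra.ad ℂ 𝔤 e : 𝔤 →ₗ[ℂ] 𝔤) ^ n) x
  rw [hn] at h2
  have h3 : coords b (((LieAlgebra.ad ℂ 𝔤 e : 𝔤 →ₗ[ℂ] 𝔤) ^ n) x) = 0 := h2.symm
  exact (coords b).map_eq_zero_iff.1 h3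

theorem ex_eq_sum {X : Op d} {n : ℕ} (hX : X ^ n = 0) (s : ℂ) :
    ex X s = ∑ k ∈ Finset.range n, (s ^ k / (k.factorial : ℂ)) • X ^ k := by
  rw [ex, NormedSpace.exp_eq_tsum ℂ]
  simp only
  rw [tsum_eq_sum (s := Finset.range n)]
  · apply Finset.sum_congr rfl
    intro k _
    rw [smul_pow, smul_smul]
    congr 1
    rw [div_eq_inv_mul]
  · intro k hk
    rw [Finset.mem_range, not_lt] at hk
    have e0 : ∀ c : ℂ, c • (0 : Op d) = 0 := fun c =>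
      ContinuousLinearMap.ext fun v => (smul_zero c : c • (0 : Ed d) = 0)
    rw [smul_pow, pow_eq_zero_of_le hk hX, e0, e0]

theorem cj_expAd (ψ : 𝔤 ≃ₗ[ℂ] Ed d) {e : 𝔤}
    (he : IsNilpotent (LieAlgebra.ad ℂ 𝔤 e : 𝔤 →ₗ[ℂ] 𝔤)) (s : ℂ) :
    cj ψ (expAd e s) = ex (adOp ψ e) s := by
  have h1 : adOp ψ e ^ (finrank ℂ 𝔤 + 1) = 0 := by
    rw [adOp_eq, ← cj_pow, pow_succ, pow_finrank_eq_zero he, zero_mul, cj_zero]
  rw [ex_eq_sum h1]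
  apply Op.ext_of ψ
  intro x
  rw [cj_apply, expAd, LinearMap.sum_apply, map_sum, _root_.sum_apply]
  apply Finset.sum_congr rfl
  intro k _
  rw [LinearMap.smul_apply, map_smul, _root_.smul_apply, adOp_eq, ← cj_pow, cj_apply]

theorem cj_torus (b : Basis (Fin (finrank ℂ 𝔤)) ℂ 𝔤) {μ : Fin (finrank ℂ 𝔤) → ℤ} {h : 𝔤}
    (hμ : ∀ i, ⁅h, b i⁆ = (μ i : ℂ) • b i) {t : ℂ} {T : 𝔤 →ₗ[ℂ] 𝔤} (hT : IsTorusElement h t T) :
    cj (coords b) T = Dop μ t⁻¹ := by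
  apply op_ext
  intro j i
  rw [← coords_basis b, cj_apply, hT (μ j) (b j) (hμ j), map_smul, Dop, coords_basis, diagL_single]
  simp

end Pool.Agent.Lib.MP_93fb9a_gt
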