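import Mathlib

set_option autoImplicit false

open scoped RealInnerProductSpace

namespace Pool.Agent.Lib.MP_93fb9a_gt

variable {d : ℕ}

/-- sum of the squares of the coordinates with positive weight -/
noncomputable def posPart (μ : Fin d → ℤ) (u : EuclideanSpace ℂ (Fin d)) : ℝ :=
  ∑ i ∈ Finset.univ.filter (fun i => 0 < μ i), ‖u i‖ ^ 2

/-- sum of the squares of the coordinates with nonpositive weight -/
noncomputable def negPart (μ : Fin d → ℤ) (u : EuclideanSpace ℂ (Fin d)) : ℝ :=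
  ∑ i ∈ Finset.univ.filter (fun i => ¬ 0 < μ i), ‖u i‖ ^ 2

theorem posPart_nonneg (μ : Fin d → ℤ) (u : EuclideanSpace ℂ (Fin d)) : 0 ≤ posPart μ u :=
  Finset.sum_nonneg (fun _ _ => sq_nonneg _)

theorem negPart_nonneg (μ : Fin d → ℤ) (u : EuclideanSpace ℂ (Fin d)) : 0 ≤ negPart μ u :=
  Finset.sum_nonneg (fun _ _ => sq_nonneg _)

theorem pos_add_neg (μ : Fin d → ℤ) (u : EuclideanSpace ℂ (Fin d)) :
    posPart μ u + negPart μ u = ‖u‖ ^ 2 := by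
  rw [posPart, negPart, Finset.sum_filter_add_sum_filter_not, EuclideanSpace.norm_sq_eq]

/-- data of a perturbed diagonal equation -/
structure IsSol (μ : Fin d → ℤ) (δ : ℝ) (u : ℝ → EuclideanSpace ℂ (Fin d)) : Prop where
  ex : ∃ r : ℝ → EuclideanSpace ℂ (Fin d), (∀ t, ‖r t‖ ≤ δ * ‖u t‖) ∧
    ∀ t i, HasDerivAt (fun s => u s i) ((μ i : ℂ) / 2 * u t i + r t i) t

theorem hasDerivAt_normSq {u : ℝ → ℂ} {u' : ℂ} {t : ℝ} (h : HasDerivAt u u' t) :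
    HasDerivAt (fun s => ‖u s‖ ^ 2) (2 * ⟪u t, u'⟫) t := h.norm_sq

theorem inner_formula (m : ℤ) (a b : ℂ) :
    2 * ⟪a, (m : ℂ) / 2 * a + b⟫ = m * ‖a‖ ^ 2 + 2 * ⟪a, b⟫ := by
  rw [inner_add_right, mul_add]
  congr 1
  have : (m : ℂ) / 2 * a = ((m : ℝ) / 2) • a := by
    rw [Complex.real_smul]; push_cast; ring
  rw [this, inner_smul_right, real_inner_self_eq_norm_sq]
  ring

theorem sum_inner_le (s : Finset (Fin d)) (a b : EuclideanSpace ℂ (Fin d)) :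
    ∑ i ∈ s, ‖a i‖ * ‖b i‖ ≤ ‖a‖ * ‖b‖ := by
  calc ∑ i ∈ s, ‖a i‖ * ‖b i‖ ≤ ∑ i, ‖a i‖ * ‖b i‖ :=
        Finset.sum_le_sum_of_subset_of_nonneg (Finset.subset_univ _)
          (fun _ _ _ => mul_nonneg (norm_nonneg _) (norm_nonneg _))
    _ ≤ Real.sqrt (∑ i, ‖a i‖ ^ 2) * Real.sqrt (∑ i, ‖b i‖ ^ 2) :=
        Real.sum_mul_le_sqrt_mul_sqrt _ _ _
    _ = ‖a‖ * ‖b‖ := by rw [EuclideanSpace.norm_eq, EuclideanSpace.norm_eq]

theorem split_inner_le (μ : Fin d → ℤ) (a b : EuclideanSpace ℂ (Fin d)) :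
    -(‖a‖ * ‖b‖) ≤ ∑ i ∈ Finset.univ.filter (fun i => 0 < μ i), ⟪a i, b i⟫ -
      ∑ i ∈ Finset.univ.filter (fun i => ¬ 0 < μ i), ⟪a i, b i⟫ := by
  have h1 : ∀ i, -(‖a i‖ * ‖b i‖) ≤ ⟪a i, b i⟫ := fun i =>
    (abs_le.1 (abs_real_inner_le_norm (a i) (b i))).1
  have h2 : ∀ i, ⟪a i, b i⟫ ≤ ‖a i‖ * ‖b i‖ := fun i => real_inner_le_norm (a i) (b i)
  have h3 : -(∑ i ∈ Finset.univ.filter (fun i => 0 < μ i), ‖a i‖ * ‖b i‖) ≤
      ∑ i ∈ Finset.univ.filter (fun i => 0 < μ i), ⟪a i, b i⟫ := by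
    rw [← Finset.sum_neg_distrib]
    exact Finset.sum_le_sum (fun i _ => h1 i)
  have h4 : ∑ i ∈ Finset.univ.filter (fun i => ¬ 0 < μ i), ⟪a i, b i⟫ ≤
      ∑ i ∈ Finset.univ.filter (fun i => ¬ 0 < μ i), ‖a i‖ * ‖b i‖ :=
    Finset.sum_le_sum (fun i _ => h2 i)
  have h5 : ∑ i ∈ Finset.univ.filter (fun i => 0 < μ i), ‖a i‖ * ‖b i‖ +
      ∑ i ∈ Finset.univ.filter (fun i => ¬ 0 < μ i), ‖a i‖ * ‖b i‖ = ∑ i, ‖a i‖ * ‖b i‖ :=
    Finset.sum_filter_add_sum_filter_not _ _ _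
  have h6 := sum_inner_le Finset.univ a b
  linarith

variable {μ : Fin d → ℤ} {δ : ℝ} {u : ℝ → EuclideanSpace ℂ (Fin d)}

theorem q_deriv (hu : IsSol μ δ u) (hδ : δ ≤ 1 / 16) (t : ℝ) :
    ∃ q' : ℝ, HasDerivAt (fun s => posPart μ (u s) - negPart μ (u s)) q' t ∧
      7 / 8 * (posPart μ (u t) - negPart μ (u t)) ≤ q' := by
  obtain ⟨r, hr, hd⟩ := hu.ex
  have h1 : HasDerivAt (fun s => posPart μ (u s))
      (∑ i ∈ Finset.univ.filter (fun i => 0 < μ i), 2 * ⟪u t i, (μ i : ℂ) / 2 * u t i + r t i⟫) t := by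
    unfold posPart
    exact HasDerivAt.fun_sum (fun i _ => hasDerivAt_normSq (hd t i))
  have h2 : HasDerivAt (fun s => negPart μ (u s))
      (∑ i ∈ Finset.univ.filter (fun i => ¬ 0 < μ i), 2 * ⟪u t i, (μ i : ℂ) / 2 * u t i + r t i⟫) t := by
    unfold negPart
    exact HasDerivAt.fun_sum (fun i _ => hasDerivAt_normSq (hd t i))
  refine ⟨_, h1.sub h2, ?_⟩
  simp_rw [inner_formula, Finset.sum_add_distrib, ← Finset.mul_sum]
  have h3 : posPart μ (u t) ≤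
      ∑ i ∈ Finset.univ.filter (fun i => 0 < μ i), (μ i : ℝ) * ‖u t i‖ ^ 2 := by
    unfold posPart
    apply Finset.sum_le_sum
    intro i hi
    have : (1 : ℝ) ≤ μ i := by exact_mod_cast (Finset.mem_filter.1 hi).2
    nlinarith [sq_nonneg ‖u t i‖]
  have h4 : ∑ i ∈ Finset.univ.filter (fun i => ¬ 0 < μ i), (μ i : ℝ) * ‖u t i‖ ^ 2 ≤ 0 := by
    apply Finset.sum_nonpos
    intro i hi
    have : (μ i : ℝ) ≤ 0 := by exact_mod_cast not_lt.1 (Finset.mem_filter.1 hi).2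
    nlinarith [sq_nonneg ‖u t i‖]
  have h5 := split_inner_le μ (u t) (r t)
  have h6 : ‖u t‖ * ‖r t‖ ≤ 1 / 16 * ‖u t‖ ^ 2 := by
    have := hr t
    have h7 : ‖r t‖ ≤ 1 / 16 * ‖u t‖ :=
      this.trans (mul_le_mul_of_nonneg_right hδ (norm_nonneg _))
    nlinarith [norm_nonneg (u t)]
  have h8 := pos_add_neg μ (u t)
  have h9 := negPart_nonneg μ (u t)
  have h10 := posPart_nonneg μ (u t)
  linarith

theorem m_deriv (hu : IsSol μ δ u) (hδ : δ ≤ 1 / 16) (t : ℝ) :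
    ∃ m' : ℝ, HasDerivAt (fun s => negPart μ (u s)) m' t ∧
      (posPart μ (u t) - negPart μ (u t) ≤ 0 → m' ≤ 1 / 4 * negPart μ (u t)) := by
  obtain ⟨r, hr, hd⟩ := hu.ex
  have h2 : HasDerivAt (fun s => negPart μ (u s))
      (∑ i ∈ Finset.univ.filter (fun i => ¬ 0 < μ i), 2 * ⟪u t i, (μ i : ℂ) / 2 * u t i + r t i⟫) t := by
    unfold negPart
    exact HasDerivAt.fun_sum (fun i _ => hasDerivAt_normSq (hd t i))
  refine ⟨_, h2, fun hq => ?_⟩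
  simp_rw [inner_formula, Finset.sum_add_distrib, ← Finset.mul_sum]
  have h4 : ∑ i ∈ Finset.univ.filter (fun i => ¬ 0 < μ i), (μ i : ℝ) * ‖u t i‖ ^ 2 ≤ 0 := by
    apply Finset.sum_nonpos
    intro i hi
    have : (μ i : ℝ) ≤ 0 := by exact_mod_cast not_lt.1 (Finset.mem_filter.1 hi).2
    nlinarith [sq_nonneg ‖u t i‖]
  have h5 : ∑ i ∈ Finset.univ.filter (fun i => ¬ 0 < μ i), ⟪u t i, r t i⟫ ≤ ‖u t‖ * ‖r t‖ :=
    (Finset.sum_le_sum (fun i _ => real_inner_le_norm _ _)).trans (sum_inner_le _ _ _)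
  have h6 : ‖u t‖ * ‖r t‖ ≤ 1 / 16 * ‖u t‖ ^ 2 := by
    have := hr t
    have h7 : ‖r t‖ ≤ 1 / 16 * ‖u t‖ :=
      this.trans (mul_le_mul_of_nonneg_right hδ (norm_nonneg _))
    nlinarith [norm_nonneg (u t)]
  have h8 := pos_add_neg μ (u t)
  linarith

/-- `q(t) exp(-7t/8)` is nondecreasing. -/
theorem q_mono (hu : IsSol μ δ u) (hδ : δ ≤ 1 / 16) :
    Monotone (fun t => (posPart μ (u t) - negPart μ (u t)) * Real.exp (-(7 / 8) * t)) := by
  have hder : ∀ t, ∃ w, HasDerivAt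
      (fun t => (posPart μ (u t) - negPart μ (u t)) * Real.exp (-(7 / 8) * t)) w t ∧ 0 ≤ w := by
    intro t
    obtain ⟨q', hq', hle⟩ := q_deriv hu hδ t
    have he : HasDerivAt (fun s => Real.exp (-(7 / 8) * s)) (Real.exp (-(7 / 8) * t) * (-(7 / 8))) t := by
      have := ((hasDerivAt_id t).const_mul (-(7 / 8) : ℝ)).exp
      simpa using this
    refine ⟨_, hq'.mul he, ?_⟩
    have hpos := Real.exp_pos (-(7 / 8) * t)
    nlinarith
  apply monotone_of_deriv_nonneg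
  · intro t
    obtain ⟨w, hw, _⟩ := hder t
    exact hw.differentiableAt
  · intro t
    obtain ⟨w, hw, h0⟩ := hder t
    rw [hw.deriv]
    exact h0

theorem expand (hu : IsSol μ δ u) (hδ : δ ≤ 1 / 16) {T : ℝ} (hT : 0 ≤ T)
    (h0 : negPart μ (u 0) = 0) :
    Real.exp (7 / 16 * T) * ‖u 0‖ ≤ ‖u T‖ := by
  have h1 := q_mono hu hδ hT
  simp only [mul_zero, Real.exp_zero, mul_one, h0, sub_zero] at h1
  have h2 := pos_add_neg μ (u 0)
  have h3 := pos_add_neg μ (u T)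
  have h4 := negPart_nonneg μ (u T)
  rw [h0, add_zero] at h2
  rw [h2] at h1
  have h5 : (posPart μ (u T) - negPart μ (u T)) ≤ ‖u T‖ ^ 2 := by linarith
  have h6 : ‖u 0‖ ^ 2 ≤ ‖u T‖ ^ 2 * Real.exp (-(7 / 8) * T) :=
    h1.trans (mul_le_mul_of_nonneg_right h5 (Real.exp_pos _).le)
  have h7 : (Real.exp (7 / 16 * T) * ‖u 0‖) ^ 2 ≤ ‖u T‖ ^ 2 := by
    have e1 : (Real.exp (7 / 16 * T)) ^ 2 * Real.exp (-(7 / 8) * T) = 1 := by
      rw [← Real.exp_nat_mul, ← Real.exp_add]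
      have : ((2 : ℕ) : ℝ) * (7 / 16 * T) + -(7 / 8) * T = 0 := by push_cast; ring
      rw [this, Real.exp_zero]
    calc (Real.exp (7 / 16 * T) * ‖u 0‖) ^ 2 = (Real.exp (7 / 16 * T)) ^ 2 * ‖u 0‖ ^ 2 := by ring
      _ ≤ (Real.exp (7 / 16 * T)) ^ 2 * (‖u T‖ ^ 2 * Real.exp (-(7 / 8) * T)) :=
          mul_le_mul_of_nonneg_left h6 (by positivity)
      _ = ((Real.exp (7 / 16 * T)) ^ 2 * Real.exp (-(7 / 8) * T)) * ‖u T‖ ^ 2 := by ring
      _ = ‖u T‖ ^ 2 := by rw [e1, one_mul]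
  exact (pow_le_pow_iff_left₀ (by positivity) (norm_nonneg _) two_ne_zero).1 h7

theorem contract (hu : IsSol μ δ u) (hδ : δ ≤ 1 / 16) {T : ℝ} (hT : 0 ≤ T)
    (hP : posPart μ (u T) = 0) :
    ‖u T‖ ≤ Real.exp (1 / 8 * T) * ‖u 0‖ := by
  have hq : ∀ t ≤ T, posPart μ (u t) - negPart μ (u t) ≤ 0 := by
    intro t ht
    have h1 := q_mono hu hδ ht
    simp only [hP, zero_sub] at h1
    have h2 : -negPart μ (u T) * Real.exp (-(7 / 8) * T) ≤ 0 := by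
      have := negPart_nonneg μ (u T)
      have := Real.exp_pos (-(7 / 8) * T)
      nlinarith
    have h3 : (posPart μ (u t) - negPart μ (u t)) * Real.exp (-(7 / 8) * t) ≤ 0 := h1.trans h2
    have h4 := Real.exp_pos (-(7 / 8) * t)
    by_contra hcon
    have := mul_pos (not_le.1 hcon) h4
    linarith
  have hanti : AntitoneOn (fun t => negPart μ (u t) * Real.exp (-(1 / 4) * t)) (Set.Icc 0 T) := by
    have hder : ∀ t, ∃ w, HasDerivAt (fun t => negPart μ (u t) * Real.exp (-(1 / 4) * t)) w t ∧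
        (t ≤ T → w ≤ 0) := by
      intro t
      obtain ⟨m', hm', hle⟩ := m_deriv hu hδ t
      have he : HasDerivAt (fun s => Real.exp (-(1 / 4) * s))
          (Real.exp (-(1 / 4) * t) * (-(1 / 4))) t := by
        have := ((hasDerivAt_id t).const_mul (-(1 / 4) : ℝ)).exp
        simpa using this
      refine ⟨_, hm'.mul he, fun ht => ?_⟩
      have hpos := Real.exp_pos (-(1 / 4) * t)
      have := hle (hq t ht)
      nlinarith
    apply antitoneOn_of_deriv_nonpos (convex_Icc 0 T)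
    · intro t _
      obtain ⟨w, hw, _⟩ := hder t
      exact hw.continuousAt.continuousWithinAt
    · intro t _
      obtain ⟨w, hw, _⟩ := hder t
      exact hw.differentiableAt.differentiableWithinAt
    · intro t ht
      obtain ⟨w, hw, h0⟩ := hder t
      rw [hw.deriv]
      rw [interior_Icc] at ht
      exact h0 ht.2.le
  have h1 := hanti (Set.left_mem_Icc.2 hT) (Set.right_mem_Icc.2 hT) hT
  simp only [mul_zero, Real.exp_zero, mul_one] at h1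
  have h2 := pos_add_neg μ (u T)
  rw [hP, zero_add] at h2
  have h3 := pos_add_neg μ (u 0)
  have h4 := posPart_nonneg μ (u 0)
  rw [h2] at h1
  have h5 : ‖u T‖ ^ 2 * Real.exp (-(1 / 4) * T) ≤ ‖u 0‖ ^ 2 := by linarith
  have h7 : ‖u T‖ ^ 2 ≤ (Real.exp (1 / 8 * T) * ‖u 0‖) ^ 2 := by
    have e1 : (Real.exp (1 / 8 * T)) ^ 2 * Real.exp (-(1 / 4) * T) = 1 := by
      rw [← Real.exp_nat_mul, ← Real.exp_add]
      have : ((2 : ℕ) : ℝ) * (1 / 8 * T) + -(1 / 4) * T = 0 := by push_cast; ring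
      rw [this, Real.exp_zero]
    calc ‖u T‖ ^ 2 = (Real.exp (1 / 8 * T)) ^ 2 * (‖u T‖ ^ 2 * Real.exp (-(1 / 4) * T)) := by
          linear_combination (-(‖u T‖ ^ 2)) * e1
      _ ≤ (Real.exp (1 / 8 * T)) ^ 2 * ‖u 0‖ ^ 2 := mul_le_mul_of_nonneg_left h5 (by positivity)
      _ = (Real.exp (1 / 8 * T) * ‖u 0‖) ^ 2 := by ring
  exact (pow_le_pow_iff_left₀ (norm_nonneg _) (by positivity) two_ne_zero).1 h7

end Pool.Agent.Lib.MP_93fb9a_gt
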