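import Pool.Agent.Lib.MP_93fb9a_gt.GaugeB
import Pool.Agent.Lib.MP_93fb9a_gt.Ode

set_option autoImplicit false
set_option linter.unusedSectionVars false

open UpperHalfPlane
open scoped MatrixGroups

namespace Pool.Agent.Lib.MP_93fb9a_gt

/-- lower left entry of `k_θ a_t` -/
noncomputable def pc (θ : ℝ) (t : ℂ) : ℂ := -(Real.sin θ : ℂ) * Complex.exp (t / 2)
/-- lower right entry -/
noncomputable def pd (θ : ℝ) (t : ℂ) : ℂ := (Real.cos θ : ℂ) * Complex.exp (-(t / 2))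
/-- upper left entry -/
noncomputable def pa (θ : ℝ) (t : ℂ) : ℂ := (Real.cos θ : ℂ) * Complex.exp (t / 2)
/-- upper right entry -/
noncomputable def pb (θ : ℝ) (t : ℂ) : ℂ := (Real.sin θ : ℂ) * Complex.exp (-(t / 2))

noncomputable def pj (θ : ℝ) (t : ℂ) : ℂ := pc θ t * Complex.I + pd θ t
noncomputable def pz (θ : ℝ) (t : ℂ) : ℂ := (pa θ t * Complex.I + pb θ t) / pj θ t

theorem pdet (θ : ℝ) (t : ℂ) : pa θ t * pd θ t - pb θ t * pc θ t = 1 := by
  have h1 : Complex.exp (t / 2) * Complex.exp (-(t / 2)) = 1 := by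
    rw [← Complex.exp_add, add_neg_cancel, Complex.exp_zero]
  have h2 : (Real.sin θ : ℂ) ^ 2 + (Real.cos θ : ℂ) ^ 2 = 1 := by
    exact_mod_cast Real.sin_sq_add_cos_sq θ
  unfold pa pd pb pc
  linear_combination (((Real.sin θ : ℂ) ^ 2 + (Real.cos θ : ℂ) ^ 2)) * h1 + h2

theorem hasDerivAt_exp_half (t : ℂ) :
    HasDerivAt (fun t : ℂ => Complex.exp (t / 2)) (Complex.exp (t / 2) / 2) t := by
  have := ((hasDerivAt_id t).div_const 2).cexp
  simpa [div_eq_mul_inv] using this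

theorem hasDerivAt_exp_neg_half (t : ℂ) :
    HasDerivAt (fun t : ℂ => Complex.exp (-(t / 2))) (-(Complex.exp (-(t / 2)) / 2)) t := by
  have := ((hasDerivAt_id t).div_const 2).neg.cexp
  simpa [div_eq_mul_inv] using this

theorem hasDerivAt_pc (θ : ℝ) (t : ℂ) : HasDerivAt (pc θ) (pc θ t / 2) t := by
  have := (hasDerivAt_exp_half t).const_mul (-(Real.sin θ : ℂ))
  refine this.congr_deriv ?_
  unfold pc; ring

theorem hasDerivAt_pa (θ : ℝ) (t : ℂ) : HasDerivAt (pa θ) (pa θ t / 2) t := by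
  have := (hasDerivAt_exp_half t).const_mul ((Real.cos θ : ℂ))
  refine this.congr_deriv ?_
  unfold pa; ring

theorem hasDerivAt_pd (θ : ℝ) (t : ℂ) : HasDerivAt (pd θ) (-(pd θ t / 2)) t := by
  have := (hasDerivAt_exp_neg_half t).const_mul ((Real.cos θ : ℂ))
  refine this.congr_deriv ?_
  unfold pd; ring

theorem hasDerivAt_pb (θ : ℝ) (t : ℂ) : HasDerivAt (pb θ) (-(pb θ t / 2)) t := by
  have := (hasDerivAt_exp_neg_half t).const_mul ((Real.sin θ : ℂ))
  refine this.congr_deriv ?_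
  unfold pb; ring

theorem hasDerivAt_pj (θ : ℝ) (t : ℂ) :
    HasDerivAt (pj θ) ((pc θ t * Complex.I - pd θ t) / 2) t := by
  have := ((hasDerivAt_pc θ t).mul_const Complex.I).add (hasDerivAt_pd θ t)
  refine this.congr_deriv ?_
  ring

theorem hasDerivAt_pcj (θ : ℝ) (t : ℂ) :
    HasDerivAt (fun t => pc θ t * pj θ t) (pc θ t ^ 2 * Complex.I) t := by
  have := (hasDerivAt_pc θ t).mul (hasDerivAt_pj θ t)
  refine this.congr_deriv ?_
  unfold pj; ring

theorem hasDerivAt_pz (θ : ℝ) (t : ℂ) (h : pj θ t ≠ 0) :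
    HasDerivAt (pz θ) (Complex.I / pj θ t ^ 2) t := by
  have := (((hasDerivAt_pa θ t).mul_const Complex.I).add (hasDerivAt_pb θ t)).div
    (hasDerivAt_pj θ t) h
  refine this.congr_deriv ?_
  have h1 := pdet θ t
  congr 1
  have : (((fun y => pa θ y * Complex.I) + pb θ) t) = pa θ t * Complex.I + pb θ t := rfl
  rw [this]
  unfold pj
  linear_combination Complex.I * h1

/-- the matrix `k_θ a_t` -/
noncomputable def pg (θ t : ℝ) : SL(2, ℝ) :=
  ⟨!![Real.cos θ * Real.exp (t / 2), Real.sin θ * Real.exp (-(t / 2));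
     -Real.sin θ * Real.exp (t / 2), Real.cos θ * Real.exp (-(t / 2))], by
    rw [Matrix.det_fin_two_of]
    have h1 : Real.exp (t / 2) * Real.exp (-(t / 2)) = 1 := by
      rw [← Real.exp_add, add_neg_cancel, Real.exp_zero]
    have h2 := Real.sin_sq_add_cos_sq θ
    linear_combination (Real.sin θ ^ 2 + Real.cos θ ^ 2) * h1 + h2⟩

theorem pz_ofReal (θ t : ℝ) : pz θ t = ((pg θ t • UpperHalfPlane.I : ℍ) : ℂ) := by
  rw [coe_specialLinearGroup_apply]
  simp [pg, pz, pj, pa, pb, pc, pd]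

theorem pj_ofReal (θ t : ℝ) : pj θ t =
    ((-Real.sin θ * Real.exp (t / 2) : ℝ) : ℂ) * Complex.I +
      ((Real.cos θ * Real.exp (-(t / 2)) : ℝ) : ℂ) := by
  simp [pj, pc, pd]

theorem normSq_pj (θ t : ℝ) : Complex.normSq (pj θ t) =
    (Real.sin θ * Real.exp (t / 2)) ^ 2 + (Real.cos θ * Real.exp (-(t / 2))) ^ 2 := by
  rw [pj_ofReal, Complex.normSq_apply]
  simp only [Complex.add_re, Complex.add_im, Complex.re_ofReal_mul, Complex.im_ofReal_mul,
    Complex.I_re, Complex.I_im, Complex.ofReal_re, Complex.ofReal_im]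
  ring

theorem normSq_pj_pos (θ t : ℝ) : 0 < Complex.normSq (pj θ t) := by
  rw [normSq_pj]
  have h1 := Real.exp_pos (t / 2)
  have h2 := Real.exp_pos (-(t / 2))
  have h3 := Real.sin_sq_add_cos_sq θ
  by_cases h : Real.sin θ = 0
  · have h4 : Real.cos θ ^ 2 = 1 := by rw [h] at h3; linarith
    have : Real.cos θ ≠ 0 := by intro h5; rw [h5] at h4; norm_num at h4
    positivity
  · positivity

theorem pj_ne_zero (θ t : ℝ) : pj θ t ≠ 0 := by
  intro h
  have := normSq_pj_pos θ t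
  rw [h] at this
  simp at this

theorem norm_pj_sq (θ t : ℝ) : ‖pj θ t‖ ^ 2 = Complex.normSq (pj θ t) :=
  (Complex.normSq_eq_norm_sq _).symm

theorem pz_im (θ t : ℝ) : (pz θ t).im = 1 / ‖pj θ t‖ ^ 2 := by
  rw [norm_pj_sq]
  have h0 := (normSq_pj_pos θ t).ne'
  have h1 : pz θ t = (((Real.cos θ * Real.exp (t / 2) : ℝ) : ℂ) * Complex.I +
      ((Real.sin θ * Real.exp (-(t / 2)) : ℝ) : ℂ)) / pj θ t := by
    simp [pz, pa, pb]
  have h3 : (pj θ t).re = Real.cos θ * Real.exp (-(t / 2)) := by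
    rw [pj_ofReal, Complex.add_re, Complex.re_ofReal_mul, Complex.I_re, Complex.ofReal_re]
    ring
  have h4 : (pj θ t).im = -Real.sin θ * Real.exp (t / 2) := by
    rw [pj_ofReal, Complex.add_im, Complex.im_ofReal_mul, Complex.I_im, Complex.ofReal_im]
    ring
  rw [h1, Complex.div_im, h3, h4, Complex.add_re, Complex.add_im, Complex.re_ofReal_mul,
    Complex.im_ofReal_mul, Complex.ofReal_re, Complex.ofReal_im, Complex.I_re, Complex.I_im]
  have h5 : Real.exp (t / 2) * Real.exp (-(t / 2)) = 1 := by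
    rw [← Real.exp_add, add_neg_cancel, Real.exp_zero]
  have h6 := Real.sin_sq_add_cos_sq θ
  rw [← sub_div]
  congr 1
  linear_combination (Real.sin θ ^ 2 + Real.cos θ ^ 2) * h5 + h6

theorem pz_im_pos (θ t : ℝ) : 0 < (pz θ t).im := by
  rw [pz_im]
  have := normSq_pj_pos θ t
  rw [← norm_pj_sq] at this
  positivity

variable {d : ℕ} {ι : Type} [Fintype ι]

/-- a solution of the oper equation on the upper half plane -/
def PData.IsFlat (P : PData d ι) (α : ι → ℂ → ℂ) (y : ℂ → Ed d) : Prop :=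
  ∀ z : ℂ, 0 < z.im → HasDerivAt y (-(P.conn (fun i => α i z) (y z))) z

/-- the frame along the path -/
noncomputable def PData.frame1 (P : PData d ι) (θ : ℝ) (t : ℂ) : Op d :=
  Dop P.μ (pj θ t) * ex P.E (-(pc θ t * pj θ t))

/-- the twisted coefficient -/
noncomputable def bet (P : PData d ι) (α : ι → ℂ → ℂ) (θ : ℝ) (t : ℂ) (i : ι) : ℂ :=
  α i (pz θ t) * pj θ t ^ (-(2 * (P.m i + 1) : ℤ))

theorem PData.path_deriv (P : PData d ι) {α : ι → ℂ → ℂ} {y : ℂ → Ed d} (hy : P.IsFlat α y)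
    (θ t : ℝ) :
    HasDerivAt (fun s : ℂ => P.frame1 θ s (y (pz θ s)))
      (((1 / 2 : ℂ) • Hop P.μ - Complex.I • P.F - Complex.I • ∑ i, bet P α θ t i • P.V i)
        (P.frame1 θ t (y (pz θ t)))) (t : ℂ) := by
  have hj0 := pj_ne_zero θ t
  have h1 : HasDerivAt (fun s : ℂ => y (pz θ s))
      (-((Complex.I / pj θ t ^ 2) • P.conn (fun i => α i (pz θ t)) (y (pz θ t)))) (t : ℂ) := by
    have := HasDerivAt.scomp (h := pz θ) (t : ℂ) (hy (pz θ t) (pz_im_pos θ t))
      (hasDerivAt_pz θ t hj0)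
    rw [smul_neg] at this
    exact this
  have h2 := P.gauge_deriv (hasDerivAt_pj θ t) hj0 (hasDerivAt_pcj θ t) h1
  refine h2.congr_deriv ?_
  have h3 : P.Z (pj θ t) ((pc θ t * Complex.I - pd θ t) / 2) (pc θ t * pj θ t)
      (pc θ t ^ 2 * Complex.I) (Complex.I / pj θ t ^ 2) (fun i => α i (pz θ t)) =
      ((1 / 2 : ℂ) • Hop P.μ - Complex.I • P.F - Complex.I • ∑ i, bet P α θ t i • P.V i) := by
    rw [PData.Z]
    have e1 : -((pc θ t * Complex.I - pd θ t) / 2 / pj θ t) +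
        Complex.I / pj θ t ^ 2 * (pc θ t * pj θ t) = 1 / 2 := by
      field_simp
      unfold pj
      ring
    have e2 : (-(pc θ t ^ 2 * Complex.I) + Complex.I / pj θ t ^ 2 * (pc θ t * pj θ t) ^ 2) *
        pj θ t ^ (-2 : ℤ) = 0 := by
      field_simp
      ring
    have e3 : Complex.I / pj θ t ^ 2 * pj θ t ^ 2 = Complex.I := by
      field_simp
    have e5 : (0 : ℂ) • P.E = 0 := zero_smul ℂ P.E
    rw [e1, e2, e3, e5, add_zero]
    congr 1
    rw [Finset.smul_sum, Finset.smul_sum]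
    apply Finset.sum_congr rfl
    intro i _
    rw [smul_smul, smul_smul, bet]
    congr 1
    have e4 : pj θ t ^ (-(2 * (P.m i + 1) : ℤ)) =
        pj θ t ^ (-(2 * P.m i : ℤ)) * (pj θ t ^ 2)⁻¹ := by
      rw [← zpow_natCast, ← zpow_neg, ← zpow_add₀ hj0]
      congr 1
      push_cast
      ring
    rw [e4]
    field_simp
  rw [h3]
  rfl

/-- the Cayley type conjugation -/
noncomputable def PData.C (P : PData d ι) : Op d := ex P.F Complex.I
noncomputable def PData.C' (P : PData d ι) : Op d := ex P.F (-Complex.I)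

theorem PData.C'_mul (P : PData d ι) : P.C' * P.C = 1 := ex_neg_mul _ _
theorem PData.C_mul (P : PData d ι) : P.C * P.C' = 1 := ex_mul_neg _ _

/-- the constant controlling the perturbation -/
noncomputable def PData.K (P : PData d ι) : ℝ := ∑ i, ‖P.C * P.V i * P.C'‖

theorem PData.K_nonneg (P : PData d ι) : 0 ≤ P.K := Finset.sum_nonneg (fun _ _ => norm_nonneg _)

theorem norm_bet (P : PData d ι) (α : ι → ℂ → ℂ) (θ t : ℝ) (i : ι) :
    ‖bet P α θ t i‖ = ‖α i (pz θ t)‖ * (pz θ t).im ^ (P.m i + 1) := by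
  rw [bet, norm_mul, norm_zpow, pz_im]
  congr 1
  rw [zpow_neg, one_div, inv_pow, ← pow_mul]
  congr 1

theorem PData.F_wt (P : PData d ι) : Hop P.μ * P.F - P.F * Hop P.μ = -((2 : ℂ) • P.F) := by
  have := P.hF
  unfold HasWt at this
  rw [this]
  push_cast
  module

theorem PData.C_conn (P : PData d ι) (b : ι → ℂ) :
    P.C * ((1 / 2 : ℂ) • Hop P.μ - Complex.I • P.F - Complex.I • ∑ i, b i • P.V i) =
      ((1 / 2 : ℂ) • Hop P.μ - Complex.I • ∑ i, b i • (P.C * P.V i * P.C')) * P.C := by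
  rw [mul_sub, PData.C, ex_half P.F_wt, ← PData.C, sub_mul]
  congr 1
  rw [mul_smul_comm, smul_mul_assoc, Finset.mul_sum, Finset.sum_mul]
  congr 1
  apply Finset.sum_congr rfl
  intro i _
  rw [mul_smul_comm, smul_mul_assoc, mul_assoc (P.C * P.V i), P.C'_mul, mul_one]

theorem PData.path_isSol (P : PData d ι) {α : ι → ℂ → ℂ} {y : ℂ → Ed d} (hy : P.IsFlat α y)
    {ε : ℝ} (hα : ∀ i, ∀ z : ℂ, 0 < z.im → ‖α i z‖ * z.im ^ (P.m i + 1) ≤ ε) (θ : ℝ) :
    IsSol P.μ (ε * P.K) (fun t : ℝ => P.C (P.frame1 θ t (y (pz θ t)))) := by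
  set R : ℝ → Op d := fun t => -(Complex.I • ∑ i, bet P α θ t i • (P.C * P.V i * P.C')) with hR
  refine ⟨⟨fun t => R t (P.C (P.frame1 θ t (y (pz θ t)))), ?_, ?_⟩⟩
  · intro t
    refine (ContinuousLinearMap.le_opNorm _ _).trans ?_
    apply mul_le_mul_of_nonneg_right _ (norm_nonneg _)
    rw [hR]
    simp only [norm_neg, norm_smul, Complex.norm_I, one_mul]
    refine (norm_sum_le _ _).trans ?_
    rw [PData.K, Finset.mul_sum]
    apply Finset.sum_le_sum
    intro i _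
    rw [norm_smul]
    apply mul_le_mul_of_nonneg_right _ (norm_nonneg _)
    rw [norm_bet]
    exact hα i _ (pz_im_pos θ t)
  · intro t i
    have h1 := P.path_deriv hy θ t
    set L : Ed d →L[ℂ] ℂ := (EuclideanSpace.proj i).comp P.C with hL
    have h2 := L.hasFDerivAt.comp_hasDerivAt (t : ℂ) h1
    have h3 := h2.comp_ofReal
    refine h3.congr_deriv ?_
    have h4 : ∀ v : Ed d, P.C (((1 / 2 : ℂ) • Hop P.μ - Complex.I • P.F -
        Complex.I • ∑ i, bet P α θ t i • P.V i) v) =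
        ((1 / 2 : ℂ) • Hop P.μ - Complex.I • ∑ i, bet P α θ t i • (P.C * P.V i * P.C')) (P.C v) := by
      intro v
      have := congrArg (fun X : Op d => X v) (P.C_conn (bet P α θ t))
      exact this
    have h5 : ∀ v : Ed d, L v = (P.C v) i := fun v => rfl
    rw [h5, h4, hR]
    set w := P.C (P.frame1 θ t (y (pz θ t))) with hw
    have h6 : ((1 / 2 : ℂ) • Hop P.μ - Complex.I • ∑ i, bet P α θ t i • (P.C * P.V i * P.C')) w =
      (1 / 2 : ℂ) • (Hop P.μ w) + (-(Complex.I • ∑ i, bet P α θ t i • (P.C * P.V i * P.C'))) w := by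
      rw [sub_eq_add_neg]
      rfl
    rw [h6]
    have h7 : ((1 / 2 : ℂ) • (Hop P.μ w) +
      (-(Complex.I • ∑ i, bet P α θ t i • (P.C * P.V i * P.C'))) w) i =
      (1 / 2 : ℂ) * ((P.μ i : ℂ) * w i) +
      ((-(Complex.I • ∑ i, bet P α θ t i • (P.C * P.V i * P.C'))) w) i := rfl
    rw [h7]
    ring

end Pool.Agent.Lib.MP_93fb9a_gt
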